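import Pool.Agent.H725R3.SConv.Ito2

set_option autoImplicit false
set_option linter.unusedSectionVars false
set_option linter.style.haveILetI false
set_option linter.unusedSimpArgs false
open MeasureTheory ProbabilityTheory Filter Set
open scoped ENNReal NNReal Topology

namespace Pool.Agent.H725R3.SConv

variable {Ω : Type*} {mΩ : MeasurableSpace Ω} {P : Measure Ω} [IsProbabilityMeasure P]
  {F : Filtration ℝ mΩ} {T : ℝ} {W : ℝ → Ω → ℝ}
variable {X : Type*} [NormedAddCommGroup X] [InnerProductSpace ℝ X]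

/-- jointly measurable and approximable by simple processes on `[0,t]` -/
def Apx (P : Measure Ω) (F : Filtration ℝ mΩ) (t : ℝ) (φ : ℝ → Ω → X) : Prop :=
  StronglyMeasurable (fun p : Ω × ℝ => φ p.2 p.1) ∧
  ∀ ε : ℝ≥0∞, ε ≠ 0 → ∃ Ψ : SimpleProc P F t X,
    ∫⁻ ω, (∫⁻ s in Icc 0 t, ‖Ψ.eval s ω - φ s ω‖ₑ ^ 2) ∂P ≤ ε

theorem Apx.exists_ito [CompleteSpace X] {t : ℝ} (htT : t ≤ T) (hW : IsBM P F T W)
    {φ : ℝ → Ω → X} (h : Apx P F t φ) : ∃ Y, IsItoIntegral P F W t φ Y := by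
  have h1 : ∀ n : ℕ, ∃ Ψ : SimpleProc P F t X,
    ∫⁻ ω, (∫⁻ s in Icc 0 t, ‖Ψ.eval s ω - φ s ω‖ₑ ^ 2) ∂P ≤ ((n : ℝ≥0∞) + 1)⁻¹ := fun n =>
      h.2 _ (by simp)
  choose ψ hψ using h1
  refine SConv.exists_ito htT hW h.1 ψ ?_
  refine tendsto_of_tendsto_of_tendsto_of_le_of_le tendsto_const_nhds ?_ (fun n => zero_le) hψ
  have h2 := (tendsto_add_atTop_iff_nat 1).2 ENNReal.tendsto_inv_nat_nhds_zero
  simpa using h2

theorem Apx.zero (t : ℝ) : Apx P F t (fun _ _ => (0 : X)) := by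
  refine ⟨stronglyMeasurable_const, fun ε _ => ⟨⟨PEmpty, inferInstance, PEmpty.elim, PEmpty.elim,
    PEmpty.elim, fun i => i.elim, fun i => i.elim, fun i => i.elim, fun i => i.elim,
    fun i => i.elim⟩, ?_⟩⟩
  simp [SimpleProc.eval]

theorem Apx.sub {t : ℝ} {φ φ' : ℝ → Ω → X} (h : Apx P F t φ) (h' : Apx P F t φ') :
    Apx P F t (fun s ω => φ s ω - φ' s ω) := by
  refine ⟨h.1.sub h'.1, fun ε hε => ?_⟩
  have h4 : ε / 4 ≠ 0 := (ENNReal.div_pos hε (by simp)).ne'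
  obtain ⟨Ψ, hΨ⟩ := h.2 (ε / 4) h4
  obtain ⟨Ψ', hΨ'⟩ := h'.2 (ε / 4) h4
  refine ⟨Ψ.sub Ψ', ?_⟩
  have e1 : ∀ s ω, (Ψ.sub Ψ').eval s ω - (φ s ω - φ' s ω) =
      (Ψ.eval s ω - φ s ω) + (φ' s ω - Ψ'.eval s ω) := by
    intro s ω
    rw [SimpleProc.eval_sub]
    abel
  simp_rw [e1]
  refine (lint2_add_le (h'.1.sub Ψ'.stronglyMeasurable_eval)).trans ?_
  have e4 : ∀ ω, ∫⁻ s in Icc 0 t, ‖φ' s ω - Ψ'.eval s ω‖ₑ ^ 2 =
      ∫⁻ s in Icc 0 t, ‖Ψ'.eval s ω - φ' s ω‖ₑ ^ 2 := fun ω => lint_neg _ _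
  simp_rw [e4]
  calc _ ≤ 2 * (ε / 4) + 2 * (ε / 4) := by gcongr
    _ = ε := by
      rw [← two_mul, ← mul_assoc, ← mul_div_assoc]
      have : (2 : ℝ≥0∞) * 2 = 4 := by norm_num
      rw [this, mul_comm, mul_div_assoc, ENNReal.div_self (by simp) (by simp), mul_one]

theorem Apx.add {t : ℝ} {φ φ' : ℝ → Ω → X} (h : Apx P F t φ) (h' : Apx P F t φ') :
    Apx P F t (fun s ω => φ s ω + φ' s ω) := by
  have := h.sub ((Apx.zero t).sub h')
  simpa using this

theorem Apx.sum {t : ℝ} {κ : Type*} (A : Finset κ) {φ : κ → ℝ → Ω → X}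
    (h : ∀ i ∈ A, Apx P F t (φ i)) : Apx P F t (fun s ω => ∑ i ∈ A, φ i s ω) := by
  classical
  induction A using Finset.induction_on with
  | empty => simpa using Apx.zero t
  | insert i A hi ih =>
    simp_rw [Finset.sum_insert hi]
    exact (h i (Finset.mem_insert_self _ _)).add
      (ih fun j hj => h j (Finset.mem_insert_of_mem hj))

theorem Apx.congr {t : ℝ} {φ φ' : ℝ → Ω → X} (h : Apx P F t φ)
    (hm : StronglyMeasurable (fun p : Ω × ℝ => φ' p.2 p.1))
    (he : ∀ s ω, 0 ≤ s → s ≤ t → φ s ω = φ' s ω) : Apx P F t φ' := by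
  refine ⟨hm, fun ε hε => ?_⟩
  obtain ⟨Ψ, hΨ⟩ := h.2 ε hε
  refine ⟨Ψ, le_trans (le_of_eq ?_) hΨ⟩
  refine lintegral_congr fun ω => ?_
  refine setLIntegral_congr_fun measurableSet_Icc fun s hs => ?_
  rw [he s ω hs.1 hs.2]

theorem Apx.limit {t : ℝ} {φ : ℝ → Ω → X} (hm : StronglyMeasurable (fun p : Ω × ℝ => φ p.2 p.1))
    (h : ∀ ε : ℝ≥0∞, ε ≠ 0 → ∃ φ' : ℝ → Ω → X, Apx P F t φ' ∧
      ∫⁻ ω, (∫⁻ s in Icc 0 t, ‖φ' s ω - φ s ω‖ₑ ^ 2) ∂P ≤ ε) : Apx P F t φ := by
  refine ⟨hm, fun ε hε => ?_⟩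
  have h4 : ε / 4 ≠ 0 := (ENNReal.div_pos hε (by simp)).ne'
  obtain ⟨φ', hφ', hd⟩ := h (ε / 4) h4
  obtain ⟨Ψ, hΨ⟩ := hφ'.2 (ε / 4) h4
  refine ⟨Ψ, ?_⟩
  have e1 : ∀ s ω, Ψ.eval s ω - φ s ω = (Ψ.eval s ω - φ' s ω) + (φ' s ω - φ s ω) := by
    intro s ω
    abel
  simp_rw [e1]
  refine (lint2_add_le (hφ'.1.sub hm)).trans ?_
  calc _ ≤ 2 * (ε / 4) + 2 * (ε / 4) := by gcongr
    _ = ε := by
      rw [← two_mul, ← mul_assoc, ← mul_div_assoc]
      have : (2 : ℝ≥0∞) * 2 = 4 := by norm_num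
      rw [this, mul_comm, mul_div_assoc, ENNReal.div_self (by simp) (by simp), mul_one]

theorem sum_indicator {E : Type*} [AddCommMonoid E] (u : ℕ → ℝ) (hu : Monotone u) (x : E) (s : ℝ)
    (n : ℕ) : ∑ j ∈ Finset.range n, (Ioc (u j) (u (j + 1))).indicator (fun _ => x) s =
      (Ioc (u 0) (u n)).indicator (fun _ => x) s := by
  induction n with
  | zero => simp
  | succ n ih =>
    rw [Finset.sum_range_succ, ih]
    have h1 := hu (Nat.zero_le n)
    have h2 := hu (Nat.le_succ n)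
    simp only [Set.indicator, mem_Ioc]
    by_cases a1 : u 0 < s <;> by_cases a2 : s ≤ u n <;> by_cases a3 : s ≤ u (n + 1)
    · simp [a1, a2, a3, not_lt.2 a2]
    · exact absurd (a2.trans h2) a3
    · simp [a1, a2, a3, not_le.1 a2]
    · simp [a1, a2, a3]
    · simp [a1, a2, a3, not_lt.2 a2]
    · exact absurd (a2.trans h2) a3
    · exact absurd ((not_lt.1 a1).trans h1) a2
    · simp [a1, a2, a3]

/-- joint measurability of an indicator process -/
theorem sm_indicator {a b : ℝ} {h : ℝ → ℝ} (hh : Continuous h) {ξ : Ω → X}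
    (hξ : StronglyMeasurable ξ) :
    StronglyMeasurable (fun p : Ω × ℝ => (Ioc a b).indicator (fun s => h s • ξ p.1) p.2) := by
  have h2 : (fun p : Ω × ℝ => (Ioc a b).indicator (fun s => h s • ξ p.1) p.2) =
      ((fun p : Ω × ℝ => p.2) ⁻¹' (Ioc a b)).indicator (fun p => h p.2 • ξ p.1) := by
    funext p
    by_cases hp : p.2 ∈ Ioc a b <;> simp [Set.indicator, hp]
  rw [h2]
  refine StronglyMeasurable.indicator ?_ (measurable_snd measurableSet_Ioc)
  exact ((hh.measurable.comp measurable_snd).stronglyMeasurable).smul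
    (hξ.comp_measurable measurable_fst)

/-- a Lipschitz time dependent coefficient on one interval is approximable -/
theorem apx_term {t : ℝ} {a b : ℝ} (ha : 0 ≤ a) (hab : a ≤ b) (hbt : b ≤ t) {h : ℝ → ℝ}
    (hh : Continuous h) {K : ℝ} (hK0 : 0 ≤ K) (hK : ∀ s s', |h s - h s'| ≤ K * |s - s'|)
    {ξ : Ω → X} (hξ : StronglyMeasurable[F a] ξ) (hξ2 : MemLp ξ 2 P) :
    Apx P F t (fun s ω => (Ioc a b).indicator (fun s => h s • ξ ω) s) := by
  refine ⟨sm_indicator hh (hξ.mono (F.le _)), fun ε hε => ?_⟩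
  -- the total size
  set M : ℝ≥0∞ := ∫⁻ ω, (‖ξ ω‖ₑ ^ 2 * ENNReal.ofReal t) ∂P with hM
  have hMfin : M ≠ ∞ := by
    rw [hM, lintegral_mul_const' _ _ ENNReal.ofReal_ne_top]
    refine ENNReal.mul_ne_top ?_ ENNReal.ofReal_ne_top
    rw [← eLpNorm_sq]
    exact ENNReal.pow_ne_top hξ2.eLpNorm_ne_top
  -- choose the number of pieces
  have hlim : Tendsto (fun n : ℕ => ENNReal.ofReal ((K * (b - a) / (n + 1)) ^ 2) * M) atTop
      (𝓝 0) := by
    have h1 : Tendsto (fun n : ℕ => (K * (b - a) / ((n : ℝ) + 1)) ^ 2) atTop (𝓝 (0 ^ 2)) := by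
      refine Tendsto.pow ?_ 2
      have := (tendsto_const_div_atTop_nhds_zero_nat (K * (b - a))).comp (tendsto_add_atTop_nat 1)
      refine this.congr fun n => ?_
      simp
    have h2 := ENNReal.tendsto_ofReal h1
    have h3 := ENNReal.Tendsto.mul_const (b := M) h2 (Or.inr hMfin)
    simpa using h3
  obtain ⟨n, hn⟩ := (((tendsto_order.1 hlim).2 ε (pos_iff_ne_zero.2 hε))).exists
  set u : ℕ → ℝ := fun j => a + j * ((b - a) / (n + 1)) with hu
  have hn0 : (0 : ℝ) < (n : ℝ) + 1 := by positivity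
  have hstep : 0 ≤ (b - a) / ((n : ℝ) + 1) := div_nonneg (by linarith) hn0.le
  have humono : Monotone u := by
    intro i j hij
    have : (i : ℝ) ≤ j := by exact_mod_cast hij
    simp only [hu]
    have := mul_le_mul_of_nonneg_right this hstep
    linarith
  have hu0 : u 0 = a := by simp [hu]
  have hun : u (n + 1) = b := by
    simp only [hu]
    push_cast
    field_simp
    ring
  have hau : ∀ j, a ≤ u j := fun j => hu0 ▸ humono (Nat.zero_le j)
  have hub : ∀ j, j ≤ n + 1 → u j ≤ b := fun j hj => hun ▸ humono hj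
  refine ⟨⟨Fin (n + 1), inferInstance, fun j => u j, fun j => u (j + 1),
    fun j ω => h (u j) • ξ ω, fun j => ha.trans (hau j), fun j => humono (Nat.le_succ _),
    fun j => (hub _ (by have := j.2; omega)).trans hbt, fun j => ?_, fun j => ?_⟩, ?_⟩
  · exact (hξ.mono (F.mono (hau j))).const_smul _
  · exact hξ2.const_smul _
  · refine le_trans ?_ hn.le
    rw [hM, ← lintegral_const_mul' _ _ ENNReal.ofReal_ne_top]
    refine lintegral_mono fun ω => ?_
    have hpt : ∀ s, ‖(∑ j : Fin (n + 1), (Ioc (u j) (u (j + 1))).indicator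
        (fun _ => h (u j) • ξ ω) s) - (Ioc a b).indicator (fun s => h s • ξ ω) s‖ₑ ^ 2 ≤
        ENNReal.ofReal ((K * (b - a) / (n + 1)) ^ 2) * ‖ξ ω‖ₑ ^ 2 := by
      intro s
      have e1 : (Ioc a b).indicator (fun s => h s • ξ ω) s =
          ∑ j : Fin (n + 1), (Ioc (u j) (u (j + 1))).indicator (fun _ => h s • ξ ω) s := by
        have h5 := sum_indicator u humono (h s • ξ ω) s (n + 1)
        rw [hu0, hun] at h5
        rw [Fin.sum_univ_eq_sum_range
          (fun j => (Ioc (u j) (u (j + 1))).indicator (fun _ => h s • ξ ω) s), h5]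
        by_cases hp : s ∈ Ioc a b <;> simp [Set.indicator, hp]
      rw [e1, ← Finset.sum_sub_distrib]
      have e2 : ‖∑ j : Fin (n + 1), ((Ioc (u j) (u (j + 1))).indicator
          (fun _ => h (u j) • ξ ω) s - (Ioc (u j) (u (j + 1))).indicator (fun _ => h s • ξ ω) s)‖ ≤
          (K * (b - a) / (n + 1)) * ‖ξ ω‖ := by
        have hc0 : 0 ≤ (K * (b - a) / (n + 1)) * ‖ξ ω‖ := by
          have : 0 ≤ b - a := by linarith
          positivity
        have h6 := sum_indicator u humono ((K * (b - a) / (n + 1)) * ‖ξ ω‖) s (n + 1)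
        have h7 : (Ioc (u 0) (u (n + 1))).indicator
            (fun _ => (K * (b - a) / (n + 1)) * ‖ξ ω‖) s ≤ (K * (b - a) / (n + 1)) * ‖ξ ω‖ := by
          by_cases hp : s ∈ Ioc (u 0) (u (n + 1)) <;> simp [Set.indicator, hp, hc0]
        rw [← h6, ← Fin.sum_univ_eq_sum_range (fun j => (Ioc (u j) (u (j + 1))).indicator
          (fun _ => (K * (b - a) / (n + 1)) * ‖ξ ω‖) s)] at h7
        refine (norm_sum_le _ _).trans (le_trans (Finset.sum_le_sum fun j _ => ?_) h7)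
        by_cases hp : s ∈ Ioc (u j) (u (j + 1))
        · simp only [Set.indicator, hp, if_true]
          rw [← sub_smul, norm_smul, Real.norm_eq_abs]
          refine mul_le_mul_of_nonneg_right ((hK _ _).trans ?_) (norm_nonneg _)
          have h8 : |u j - s| ≤ (b - a) / (n + 1) := by
            rw [abs_sub_comm, abs_of_nonneg (by linarith [hp.1])]
            have h9 := hp.2
            have h10 : u (j + 1) = u j + (b - a) / (n + 1) := by
              simp only [hu]; push_cast; ring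
            linarith
          calc K * |u j - s| ≤ K * ((b - a) / (n + 1)) := mul_le_mul_of_nonneg_left h8 hK0
            _ = _ := by ring
        · simp [Set.indicator, hp]
      rw [← ofReal_norm, ← ofReal_norm, ← ENNReal.ofReal_pow (norm_nonneg _),
        ← ENNReal.ofReal_pow (norm_nonneg _), ← ENNReal.ofReal_mul (by positivity), ← mul_pow]
      exact ENNReal.ofReal_le_ofReal (pow_le_pow_left₀ (norm_nonneg _) e2 2)
    calc _ ≤ ∫⁻ s in Icc 0 t, ENNReal.ofReal ((K * (b - a) / (n + 1)) ^ 2) * ‖ξ ω‖ₑ ^ 2 :=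
          lintegral_mono fun s => hpt s
      _ = ENNReal.ofReal ((K * (b - a) / (n + 1)) ^ 2) * (‖ξ ω‖ₑ ^ 2 * ENNReal.ofReal t) := by
          rw [lintegral_const, Measure.restrict_apply_univ, Real.volume_Icc, sub_zero, mul_assoc]

theorem apx_term' {t : ℝ} {a b : ℝ} (ha : 0 ≤ a) (hab : a ≤ b) {h : ℝ → ℝ}
    (hh : Continuous h) {K : ℝ} (hK0 : 0 ≤ K) (hK : ∀ s s', |h s - h s'| ≤ K * |s - s'|)
    {ξ : Ω → X} (hξ : StronglyMeasurable[F a] ξ) (hξ2 : MemLp ξ 2 P) :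
    Apx P F t (fun s ω => (Ioc a b).indicator (fun s => h s • ξ ω) s) := by
  rcases lt_or_ge t a with hta | hta
  · refine (Apx.zero t).congr (sm_indicator hh (hξ.mono (F.le _))) fun s ω _ hs => ?_
    rw [indicator_of_notMem]
    intro hp
    exact absurd hp.1 (not_lt.2 (hs.trans hta.le))
  · refine (apx_term (b := min b t) ha (le_min hab hta) (min_le_right _ _) hh hK0 hK hξ hξ2).congr
      (sm_indicator hh (hξ.mono (F.le _))) fun s ω _ hs => ?_
    by_cases hp : s ∈ Ioc a b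
    · have hp' : s ∈ Ioc a (min b t) := ⟨hp.1, le_min hp.2 hs⟩
      rw [indicator_of_mem hp, indicator_of_mem hp']
    · have hp' : s ∉ Ioc a (min b t) := fun h' => hp ⟨h'.1, h'.2.trans (min_le_left _ _)⟩
      rw [indicator_of_notMem hp, indicator_of_notMem hp']

end Pool.Agent.H725R3.SConv
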