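import Pool.Agent.H725R3.SConv.Tree

set_option autoImplicit false
open Finset

namespace Pool.Agent.H725R3.SConv

/-- coefficient space of a block with `2^m` modes -/
def Blk (m : ℕ) : Type := Fin (2 ^ m) → ℝ

noncomputable instance (m : ℕ) : AddCommGroup (Blk m) :=
  inferInstanceAs (AddCommGroup (Fin (2 ^ m) → ℝ))

noncomputable instance (m : ℕ) : Module ℝ (Blk m) :=
  inferInstanceAs (Module ℝ (Fin (2 ^ m) → ℝ))

instance (m : ℕ) : FiniteDimensional ℝ (Blk m) :=
  inferInstanceAs (FiniteDimensional ℝ (Fin (2 ^ m) → ℝ))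

/-- extension by zero -/
noncomputable def ext {m : ℕ} (a : Blk m) (i : ℕ) : ℝ := if h : i < 2 ^ m then a ⟨i, h⟩ else 0

theorem ext_add {m : ℕ} (a b : Blk m) : ext (a + b) = fun i => ext a i + ext b i := by
  funext i
  unfold ext
  split_ifs
  · rfl
  · simp

theorem ext_smul {m : ℕ} (c : ℝ) (a : Blk m) : ext (c • a) = fun i => c * ext a i := by
  funext i
  unfold ext
  split_ifs
  · rfl
  · simp

/-- the inner product of the block -/
@[instance_reducible]
noncomputable def core (m : ℕ) : InnerProductSpace.Core ℝ (Blk m) where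
  inner a b := Bt (ext a) (ext b) m 0
  conj_inner_symm a b := by
    simp only [RCLike.conj_to_real]
    exact Bt_symm _ _ _ _
  re_inner_nonneg a := by
    simp only [RCLike.re_to_real]
    exact Qt_nonneg _ _ _
  add_left a b c := by
    rw [ext_add]
    exact Bt_add_left _ _ _ _ _
  smul_left a b r := by
    simp only [RCLike.conj_to_real]
    rw [ext_smul]
    exact Bt_smul_left _ _ _ _ _
  definite a h := by
    funext i
    have := Qt_eq_zero (s := 0) h i.1 i.2
    rw [zero_add] at this
    unfold ext at this
    rw [dif_pos i.2] at this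
    exact this

noncomputable instance (m : ℕ) : NormedAddCommGroup (Blk m) := (core m).toNormedAddCommGroup

noncomputable instance (m : ℕ) : InnerProductSpace ℝ (Blk m) :=
  InnerProductSpace.ofCore (core m).toCore

instance (m : ℕ) : CompleteSpace (Blk m) := FiniteDimensional.complete ℝ (Blk m)

theorem blk_norm_sq {m : ℕ} (a : Blk m) : ‖a‖ ^ 2 = Bt (ext a) (ext a) m 0 := by
  rw [← real_inner_self_eq_norm_sq]
  rfl

end Pool.Agent.H725R3.SConv
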