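import Mathlib

set_option autoImplicit false
open MeasureTheory ProbabilityTheory Filter Set
open scoped ENNReal NNReal Topology

/-!
Definitions for the stochastic convolution problem. Time is indexed by `ℝ`; only the times in
`[0,T]` matter.
-/

namespace Pool.Agent.H725R3.SConv

/-- `W` is a standard real Brownian motion on `[0,T]` with respect to the filtration `F` -/
structure IsBM {Ω : Type*} {mΩ : MeasurableSpace Ω} (P : Measure Ω) (F : Filtration ℝ mΩ) (T : ℝ)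
    (W : ℝ → Ω → ℝ) : Prop where
  adapted : ∀ t, 0 ≤ t → t ≤ T → Measurable[F t] (W t)
  zero : ∀ᵐ ω ∂P, W 0 ω = 0
  cont : ∀ᵐ ω ∂P, ContinuousOn (fun t => W t ω) (Icc 0 T)
  law : ∀ s t, 0 ≤ s → s ≤ t → t ≤ T →
    P.map (fun ω => W t ω - W s ω) = gaussianReal 0 (t - s).toNNReal
  indep : ∀ s t, 0 ≤ s → s ≤ t → t ≤ T →
    Indep (MeasurableSpace.comap (fun ω => W t ω - W s ω) inferInstance) (F s) P

/-- A simple process on `[0,t]`: a finite family of intervals `(a_i,b_i] ⊆ [0,t]` and of square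
integrable `F_{a_i}`-measurable `X`-valued random variables `ξ_i`. It stands for the process
`s ↦ ∑_i 1_{(a_i,b_i]}(s) ξ_i`. -/
structure SimpleProc {Ω : Type*} {mΩ : MeasurableSpace Ω} (P : Measure Ω) (F : Filtration ℝ mΩ)
    (t : ℝ) (X : Type*) [NormedAddCommGroup X] where
  ι : Type
  fin : Fintype ι
  a : ι → ℝ
  b : ι → ℝ
  ξ : ι → Ω → X
  nonneg : ∀ i, 0 ≤ a i
  le : ∀ i, a i ≤ b i
  le_t : ∀ i, b i ≤ t
  meas : ∀ i, StronglyMeasurable[F (a i)] (ξ i)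
  memLp : ∀ i, MemLp (ξ i) 2 P

/-- the process `s ↦ ∑_i 1_{(a_i,b_i]}(s) ξ_i` -/
noncomputable def SimpleProc.eval {Ω : Type*} {mΩ : MeasurableSpace Ω} {P : Measure Ω}
    {F : Filtration ℝ mΩ} {t : ℝ} {X : Type*} [NormedAddCommGroup X] (φ : SimpleProc P F t X)
    (s : ℝ) (ω : Ω) : X :=
  letI := φ.fin
  ∑ i, (Ioc (φ.a i) (φ.b i)).indicator (fun _ => φ.ξ i ω) s

/-- the elementary stochastic integral `∑_i (W_{b_i} - W_{a_i}) ξ_i` -/
noncomputable def SimpleProc.integral {Ω : Type*} {mΩ : MeasurableSpace Ω} {P : Measure Ω}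
    {F : Filtration ℝ mΩ} {t : ℝ} {X : Type*} [NormedAddCommGroup X] [NormedSpace ℝ X]
    (φ : SimpleProc P F t X) (W : ℝ → Ω → ℝ) (ω : Ω) : X :=
  letI := φ.fin
  ∑ i, (W (φ.b i) ω - W (φ.a i) ω) • φ.ξ i ω

/-- `Y` is (a version of) the Ito integral `∫_0^t φ_s dW_s`: there are simple processes `ψ_n` on
`[0,t]` with `E ∫_0^t ‖ψ_n - φ‖² ds → 0` and `E ‖∫_0^t ψ_n dW - Y‖² → 0`. -/
def IsItoIntegral {Ω : Type*} {mΩ : MeasurableSpace Ω} (P : Measure Ω) (F : Filtration ℝ mΩ)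
    (W : ℝ → Ω → ℝ) {X : Type*} [NormedAddCommGroup X] [NormedSpace ℝ X] (t : ℝ)
    (φ : ℝ → Ω → X) (Y : Ω → X) : Prop :=
  AEStronglyMeasurable Y P ∧ ∃ ψ : ℕ → SimpleProc P F t X,
    Tendsto (fun n => ∫⁻ ω, (∫⁻ s in Icc 0 t, ‖(ψ n).eval s ω - φ s ω‖ₑ ^ 2) ∂P) atTop (𝓝 0) ∧
    Tendsto (fun n => ∫⁻ ω, ‖(ψ n).integral W ω - Y ω‖ₑ ^ 2 ∂P) atTop (𝓝 0)

/-- `C_0`-semigroup of bounded operators (only times `t ≥ 0` matter) -/
structure IsC0Semigroup {X : Type*} [NormedAddCommGroup X] [NormedSpace ℝ X]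
    (S : ℝ → X →L[ℝ] X) : Prop where
  zero : ∀ x, S 0 x = x
  add : ∀ s t, 0 ≤ s → 0 ≤ t → ∀ x, S (s + t) x = S s (S t x)
  cont : ∀ x, ContinuousOn (fun t => S t x) (Ici 0)

end Pool.Agent.H725R3.SConv
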