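import Pool.Agent.H725R3.SConv.Defs

set_option autoImplicit false
set_option linter.unusedSectionVars false
open MeasureTheory ProbabilityTheory Filter Set
open scoped ENNReal NNReal Topology

namespace Pool.Agent.H725R3.SConv

variable {Ω : Type*} {mΩ : MeasurableSpace Ω} {P : Measure Ω} [IsProbabilityMeasure P]
  {F : Filtration ℝ mΩ} {T : ℝ} {W : ℝ → Ω → ℝ}

section increments

theorem IsBM.meas_inc (hW : IsBM P F T W) {s t : ℝ} (h0 : 0 ≤ s) (hst : s ≤ t) (htT : t ≤ T) :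
    Measurable[F t] (fun ω => W t ω - W s ω) :=
  (hW.adapted t (h0.trans hst) htT).sub
    ((hW.adapted s h0 (hst.trans htT)).mono (F.mono hst) le_rfl)

theorem IsBM.meas_inc' (hW : IsBM P F T W) {s t : ℝ} (h0 : 0 ≤ s) (hst : s ≤ t) (htT : t ≤ T) :
    Measurable (fun ω => W t ω - W s ω) :=
  (hW.meas_inc h0 hst htT).mono (F.le t) le_rfl

theorem IsBM.memLp_inc (hW : IsBM P F T W) {s t : ℝ} (h0 : 0 ≤ s) (hst : s ≤ t) (htT : t ≤ T) :
    MemLp (fun ω => W t ω - W s ω) 2 P := by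
  have h1 : MemLp id 2 (P.map (fun ω => W t ω - W s ω)) := by
    rw [hW.law s t h0 hst htT]
    exact memLp_id_gaussianReal 2
  exact (memLp_map_measure_iff (by fun_prop) (hW.meas_inc' h0 hst htT).aemeasurable).1 h1

theorem IsBM.integral_inc (hW : IsBM P F T W) {s t : ℝ} (h0 : 0 ≤ s) (hst : s ≤ t)
    (htT : t ≤ T) : ∫ ω, (W t ω - W s ω) ∂P = 0 := by
  have h1 : ∫ x, x ∂(P.map (fun ω => W t ω - W s ω)) = ∫ ω, (W t ω - W s ω) ∂P :=
    integral_map (hW.meas_inc' h0 hst htT).aemeasurable (by fun_prop)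
  rw [← h1, hW.law s t h0 hst htT]
  exact integral_id_gaussianReal

theorem IsBM.integral_inc_sq (hW : IsBM P F T W) {s t : ℝ} (h0 : 0 ≤ s) (hst : s ≤ t)
    (htT : t ≤ T) : ∫ ω, (W t ω - W s ω) ^ 2 ∂P = t - s := by
  have h1 : ∫ x, x ^ 2 ∂(P.map (fun ω => W t ω - W s ω)) = ∫ ω, (W t ω - W s ω) ^ 2 ∂P :=
    integral_map (hW.meas_inc' h0 hst htT).aemeasurable (by fun_prop)
  rw [← h1, hW.law s t h0 hst htT]
  have h2 := variance_id_gaussianReal (μ := 0) (v := (t - s).toNNReal)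
  have h4 := variance_eq_sub (X := (id : ℝ → ℝ)) (memLp_id_gaussianReal (μ := 0)
    (v := (t - s).toNNReal) 2)
  rw [h2] at h4
  have h5 : ∫ x, id x ∂(gaussianReal 0 (t - s).toNNReal) = 0 := integral_id_gaussianReal
  rw [h5] at h4
  have h3 : ((t - s).toNNReal : ℝ) = t - s := Real.coe_toNNReal _ (by linarith)
  rw [h3] at h4
  have h6 : ∫ x, ((id : ℝ → ℝ) ^ 2) x ∂(gaussianReal 0 (t - s).toNNReal) =
    ∫ x, x ^ 2 ∂(gaussianReal 0 (t - s).toNNReal) := rfl
  rw [h6] at h4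
  linarith

theorem IsBM.indepFun (hW : IsBM P F T W) {s t : ℝ} (h0 : 0 ≤ s) (hst : s ≤ t) (htT : t ≤ T)
    {ζ : Ω → ℝ} (hζ : Measurable[F s] ζ) : IndepFun (fun ω => W t ω - W s ω) ζ P := by
  rw [IndepFun_iff_Indep]
  exact indep_of_indep_of_le_right (hW.indep s t h0 hst htT) hζ.comap_le

/-- `E[(W_t - W_s) ζ] = 0` -/
theorem IsBM.integral_inc_mul (hW : IsBM P F T W) {s t : ℝ} (h0 : 0 ≤ s) (hst : s ≤ t)
    (htT : t ≤ T) {ζ : Ω → ℝ} (hζ : Measurable[F s] ζ) :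
    ∫ ω, (W t ω - W s ω) * ζ ω ∂P = 0 := by
  rw [(hW.indepFun h0 hst htT hζ).integral_fun_mul_eq_mul_integral
    (hW.meas_inc' h0 hst htT).aestronglyMeasurable
    (hζ.mono (F.le s) le_rfl).aestronglyMeasurable, hW.integral_inc h0 hst htT, zero_mul]

/-- `E[(W_t - W_s)² ζ] = (t - s) E[ζ]` -/
theorem IsBM.integral_inc_sq_mul (hW : IsBM P F T W) {s t : ℝ} (h0 : 0 ≤ s) (hst : s ≤ t)
    (htT : t ≤ T) {ζ : Ω → ℝ} (hζ : Measurable[F s] ζ) :
    ∫ ω, (W t ω - W s ω) ^ 2 * ζ ω ∂P = (t - s) * ∫ ω, ζ ω ∂P := by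
  have h1 : IndepFun (fun ω => (W t ω - W s ω) ^ 2) ζ P :=
    (hW.indepFun h0 hst htT hζ).comp (φ := fun x : ℝ => x ^ 2) (ψ := id) (by fun_prop)
      measurable_id
  rw [h1.integral_fun_mul_eq_mul_integral
    ((hW.meas_inc' h0 hst htT).pow_const 2).aestronglyMeasurable
    (hζ.mono (F.le s) le_rfl).aestronglyMeasurable, hW.integral_inc_sq h0 hst htT]

end increments

variable {X : Type*} [NormedAddCommGroup X] [InnerProductSpace ℝ X]

/-- `(W_t - W_s) ξ` -/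
noncomputable def DD (W : ℝ → Ω → ℝ) (s t : ℝ) (ξ : Ω → X) (ω : Ω) : X :=
  (W t ω - W s ω) • ξ ω

theorem DD_add (W : ℝ → Ω → ℝ) (s r t : ℝ) (ξ : Ω → X) :
    DD W s t ξ = fun ω => DD W s r ξ ω + DD W r t ξ ω := by
  funext ω
  simp only [DD, ← add_smul]
  congr 1
  ring

theorem IsBM.memLp_DD (hW : IsBM P F T W) {a s t : ℝ} (h0 : 0 ≤ a) (has : a ≤ s) (hst : s ≤ t)
    (htT : t ≤ T) {ξ : Ω → X} (hξ : StronglyMeasurable[F a] ξ) (hξ2 : MemLp ξ 2 P) :
    MemLp (DD W s t ξ) 2 P := by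
  have h0s := h0.trans has
  have hm : AEStronglyMeasurable (DD W s t ξ) P :=
    (hW.meas_inc' h0s hst htT).aestronglyMeasurable.smul hξ2.aestronglyMeasurable
  rw [memLp_two_iff_integrable_sq_norm hm]
  have h1 : Measurable[F s] (fun ω => ‖ξ ω‖ ^ 2) :=
    ((hξ.norm.measurable).pow_const 2).mono (F.mono has) le_rfl
  have h2 : IndepFun (fun ω => (W t ω - W s ω) ^ 2) (fun ω => ‖ξ ω‖ ^ 2) P :=
    (hW.indepFun h0s hst htT h1).comp (φ := fun x : ℝ => x ^ 2) (ψ := id) (by fun_prop)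
      measurable_id
  have h3 := h2.integrable_mul ((hW.memLp_inc h0s hst htT).integrable_sq)
    ((memLp_two_iff_integrable_sq_norm hξ2.aestronglyMeasurable).1 hξ2)
  refine h3.congr (Eventually.of_forall fun ω => ?_)
  simp only [DD, Pi.mul_apply, norm_smul, Real.norm_eq_abs, mul_pow, sq_abs]

theorem integrable_inner {f g : Ω → X} (hf : MemLp f 2 P) (hg : MemLp g 2 P) :
    Integrable (fun ω => inner ℝ (f ω) (g ω)) P := by
  have h1 : Integrable (fun ω => ‖f ω‖ * ‖g ω‖) P := hf.norm.integrable_mul hg.norm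
  refine h1.mono' (hf.aestronglyMeasurable.inner hg.aestronglyMeasurable) ?_
  exact Eventually.of_forall fun ω => norm_inner_le_norm _ _

theorem stronglyMeasurable_inner {m : MeasurableSpace Ω} {f g : Ω → X}
    (hf : StronglyMeasurable[m] f) (hg : StronglyMeasurable[m] g) :
    StronglyMeasurable[m] (fun ω => inner ℝ (f ω) (g ω)) :=
  hf.inner hg

/-- disjoint ordered intervals are orthogonal -/
theorem IsBM.inner_disj (hW : IsBM P F T W) {a s t a' s' t' : ℝ} (h0 : 0 ≤ a) (h0' : 0 ≤ a')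
    (has : a ≤ s) (hst : s ≤ t) (hts' : t ≤ s') (has' : a' ≤ s') (hst' : s' ≤ t') (htT' : t' ≤ T)
    {ξ ξ' : Ω → X} (hξ : StronglyMeasurable[F a] ξ) (hξ' : StronglyMeasurable[F a'] ξ') :
    ∫ ω, inner ℝ (DD W s t ξ ω) (DD W s' t' ξ' ω) ∂P = 0 := by
  have h1 : ∀ ω, inner ℝ (DD W s t ξ ω) (DD W s' t' ξ' ω) =
      (W t' ω - W s' ω) * ((W t ω - W s ω) * inner ℝ (ξ ω) (ξ' ω)) := by
    intro ω
    simp only [DD, inner_smul_left, inner_smul_right, RCLike.conj_to_real]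
  simp_rw [h1]
  refine hW.integral_inc_mul (h0'.trans has') hst' htT' ?_
  have e1 : Measurable[F s'] (fun ω => W t ω - W s ω) :=
    (hW.meas_inc (h0.trans has) hst (hts'.trans (hst'.trans htT'))).mono (F.mono hts') le_rfl
  have e2 : StronglyMeasurable[F s'] ξ := hξ.mono (F.mono (has.trans (hst.trans hts')))
  have e3 : StronglyMeasurable[F s'] ξ' := hξ'.mono (F.mono has')
  exact e1.mul (stronglyMeasurable_inner e2 e3).measurable

/-- the same interval -/
theorem IsBM.inner_same (hW : IsBM P F T W) {a a' s t : ℝ} (h0 : 0 ≤ a) (has : a ≤ s)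
    (has' : a' ≤ s) (hst : s ≤ t) (htT : t ≤ T) {ξ ξ' : Ω → X}
    (hξ : StronglyMeasurable[F a] ξ) (hξ' : StronglyMeasurable[F a'] ξ') :
    ∫ ω, inner ℝ (DD W s t ξ ω) (DD W s t ξ' ω) ∂P = (t - s) * ∫ ω, inner ℝ (ξ ω) (ξ' ω) ∂P := by
  have h1 : ∀ ω, inner ℝ (DD W s t ξ ω) (DD W s t ξ' ω) =
      (W t ω - W s ω) ^ 2 * inner ℝ (ξ ω) (ξ' ω) := by
    intro ω
    simp only [DD, inner_smul_left, inner_smul_right, RCLike.conj_to_real]
    ring
  simp_rw [h1]
  refine hW.integral_inc_sq_mul (h0.trans has) hst htT ?_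
  exact (stronglyMeasurable_inner (hξ.mono (F.mono has)) (hξ'.mono (F.mono has'))).measurable

/-- length of the intersection of two intervals -/
noncomputable def len (a b a' b' : ℝ) : ℝ := max 0 (min b b' - max a a')

theorem len_symm (a b a' b' : ℝ) : len a b a' b' = len a' b' a b := by
  unfold len
  rw [min_comm, max_comm a a']

theorem IsBM.inner_aux (hW : IsBM P F T W) {a b a' b' : ℝ} (h0 : 0 ≤ a) (hab : a ≤ b)
    (hb : b ≤ T) (h0' : 0 ≤ a') (hab' : a' ≤ b') (hb' : b' ≤ T) {ξ ξ' : Ω → X}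
    (hξ : StronglyMeasurable[F a] ξ) (hξ' : StronglyMeasurable[F a'] ξ')
    (h2 : MemLp ξ 2 P) (h2' : MemLp ξ' 2 P) (haa : a ≤ a') :
    ∫ ω, inner ℝ (DD W a b ξ ω) (DD W a' b' ξ' ω) ∂P =
      len a b a' b' * ∫ ω, inner ℝ (ξ ω) (ξ' ω) ∂P := by
  rcases le_total b a' with hba | hba
  · rw [hW.inner_disj h0 h0' le_rfl hab hba le_rfl hab' hb' hξ hξ']
    have : len a b a' b' = 0 := by
      unfold len
      rw [max_eq_left]
      have := min_le_left b b'
      have := le_max_right a a'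
      linarith
    rw [this, zero_mul]
  · -- split the first interval at `a'`
    have e1 : ∀ ω, inner ℝ (DD W a b ξ ω) (DD W a' b' ξ' ω) =
        inner ℝ (DD W a a' ξ ω) (DD W a' b' ξ' ω) + inner ℝ (DD W a' b ξ ω) (DD W a' b' ξ' ω) := by
      intro ω
      rw [DD_add W a a' b ξ, inner_add_left]
    simp_rw [e1]
    have m1 := hW.memLp_DD h0 le_rfl haa (hba.trans hb) hξ h2
    have m2 := hW.memLp_DD h0 haa hba hb hξ h2
    have m3 := hW.memLp_DD h0' le_rfl hab' hb' hξ' h2'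
    rw [integral_add (integrable_inner m1 m3) (integrable_inner m2 m3),
      hW.inner_disj h0 h0' le_rfl haa le_rfl le_rfl hab' hb' hξ hξ', zero_add]
    rcases le_total b b' with hbb | hbb
    · have e2 : ∀ ω, inner ℝ (DD W a' b ξ ω) (DD W a' b' ξ' ω) =
          inner ℝ (DD W a' b ξ ω) (DD W a' b ξ' ω) + inner ℝ (DD W a' b ξ ω) (DD W b b' ξ' ω) := by
        intro ω
        rw [DD_add W a' b b' ξ', inner_add_right]
      simp_rw [e2]
      have m4 := hW.memLp_DD h0' le_rfl hba hb hξ' h2'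
      have m5 := hW.memLp_DD h0' hba hbb hb' hξ' h2'
      rw [integral_add (integrable_inner m2 m4) (integrable_inner m2 m5),
        hW.inner_disj h0 h0' haa hba le_rfl hba hbb hb' hξ hξ', add_zero,
        hW.inner_same h0 haa le_rfl hba hb hξ hξ']
      congr 1
      unfold len
      rw [min_eq_left hbb, max_eq_right haa, max_eq_right (by linarith)]
    · have e2 : ∀ ω, inner ℝ (DD W a' b ξ ω) (DD W a' b' ξ' ω) =
          inner ℝ (DD W a' b' ξ ω) (DD W a' b' ξ' ω) +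
            inner ℝ (DD W a' b' ξ' ω) (DD W b' b ξ ω) := by
        intro ω
        rw [DD_add W a' b' b ξ, inner_add_left, real_inner_comm (DD W b' b ξ ω)]
      simp_rw [e2]
      have m4 := hW.memLp_DD h0 haa hab' hb' hξ h2
      have m5 := hW.memLp_DD h0 (haa.trans hab') hbb hb hξ h2
      rw [integral_add (integrable_inner m4 m3) (integrable_inner m3 m5),
        hW.inner_disj h0' h0 le_rfl hab' le_rfl (haa.trans hab') hbb hb hξ' hξ, add_zero,
        hW.inner_same h0 haa le_rfl hab' hb' hξ hξ']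
      congr 1
      unfold len
      rw [min_eq_right hbb, max_eq_right haa, max_eq_right (by linarith)]

theorem IsBM.inner_DD (hW : IsBM P F T W) {a b a' b' : ℝ} (h0 : 0 ≤ a) (hab : a ≤ b)
    (hb : b ≤ T) (h0' : 0 ≤ a') (hab' : a' ≤ b') (hb' : b' ≤ T) {ξ ξ' : Ω → X}
    (hξ : StronglyMeasurable[F a] ξ) (hξ' : StronglyMeasurable[F a'] ξ')
    (h2 : MemLp ξ 2 P) (h2' : MemLp ξ' 2 P) :
    ∫ ω, inner ℝ (DD W a b ξ ω) (DD W a' b' ξ' ω) ∂P =
      len a b a' b' * ∫ ω, inner ℝ (ξ ω) (ξ' ω) ∂P := by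
  rcases le_total a a' with haa | haa
  · exact hW.inner_aux h0 hab hb h0' hab' hb' hξ hξ' h2 h2' haa
  · have := hW.inner_aux h0' hab' hb' h0 hab hb hξ' hξ h2' h2 haa
    rw [len_symm]
    simp_rw [real_inner_comm] at this ⊢
    exact this

end Pool.Agent.H725R3.SConv
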