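import Pool.Agent.H725R3.SConv.Iso

set_option autoImplicit false
set_option linter.unusedSectionVars false
set_option linter.style.haveILetI false
set_option linter.unusedSimpArgs false
open MeasureTheory ProbabilityTheory Filter Set
open scoped ENNReal NNReal Topology

namespace Pool.Agent.H725R3.SConv

variable {Ω : Type*} {mΩ : MeasurableSpace Ω} {P : Measure Ω} [IsProbabilityMeasure P]
  {F : Filtration ℝ mΩ} {T : ℝ} {W : ℝ → Ω → ℝ}
variable {X : Type*} [NormedAddCommGroup X] [InnerProductSpace ℝ X]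

theorem enorm_sq {E : Type*} [SeminormedAddCommGroup E] (x : E) :
    ‖x‖ₑ ^ 2 = ENNReal.ofReal (‖x‖ ^ 2) := by
  rw [← ofReal_norm, ENNReal.ofReal_pow (norm_nonneg x)]

theorem enorm_add_sq {E : Type*} [SeminormedAddCommGroup E] (x y : E) :
    ‖x + y‖ₑ ^ 2 ≤ 2 * ‖x‖ₑ ^ 2 + 2 * ‖y‖ₑ ^ 2 := by
  have h2 : (2 : ℝ≥0∞) = ENNReal.ofReal 2 := by simp
  rw [enorm_sq, enorm_sq, enorm_sq, h2, ← ENNReal.ofReal_mul (by norm_num),
    ← ENNReal.ofReal_mul (by norm_num), ← ENNReal.ofReal_add (by positivity) (by positivity)]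
  refine ENNReal.ofReal_le_ofReal ?_
  have h1 := norm_add_le x y
  have h3 := norm_nonneg (x + y)
  nlinarith [sq_nonneg (‖x‖ - ‖y‖)]

theorem lint_add_le {α : Type*} {m : MeasurableSpace α} {μ : Measure α} {E : Type*}
    [SeminormedAddCommGroup E] {f g : α → E} (hg : AEStronglyMeasurable g μ) :
    ∫⁻ ω, ‖f ω + g ω‖ₑ ^ 2 ∂μ ≤ 2 * ∫⁻ ω, ‖f ω‖ₑ ^ 2 ∂μ + 2 * ∫⁻ ω, ‖g ω‖ₑ ^ 2 ∂μ := by
  calc ∫⁻ ω, ‖f ω + g ω‖ₑ ^ 2 ∂μ ≤ ∫⁻ ω, (2 * ‖f ω‖ₑ ^ 2 + 2 * ‖g ω‖ₑ ^ 2) ∂μ :=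
        lintegral_mono fun ω => enorm_add_sq _ _
    _ = ∫⁻ ω, 2 * ‖f ω‖ₑ ^ 2 ∂μ + ∫⁻ ω, 2 * ‖g ω‖ₑ ^ 2 ∂μ :=
        lintegral_add_right' _ ((hg.enorm.pow_const 2).const_mul 2)
    _ = _ := by
        rw [lintegral_const_mul' _ _ (by simp), lintegral_const_mul' _ _ (by simp)]

theorem lint_neg {α : Type*} {m : MeasurableSpace α} {μ : Measure α} {E : Type*}
    [SeminormedAddCommGroup E] (f g : α → E) :
    ∫⁻ ω, ‖f ω - g ω‖ₑ ^ 2 ∂μ = ∫⁻ ω, ‖g ω - f ω‖ₑ ^ 2 ∂μ := by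
  refine lintegral_congr fun ω => ?_
  rw [← enorm_neg, neg_sub]

/-! ### isometry -/

theorem SimpleProc.integral_eq {t : ℝ} (φ : SimpleProc P F t X) (W : ℝ → Ω → ℝ) (ω : Ω) :
    letI := φ.fin
    φ.integral W ω = ∑ i, DD W (φ.a i) (φ.b i) (φ.ξ i) ω := rfl

theorem len_eq (a b a' b' t : ℝ) (ha : 0 ≤ a) (hb : b ≤ t) :
    volume ((Ioc a b ∩ Ioc a' b') ∩ Icc 0 t) = ENNReal.ofReal (len a b a' b') := by
  have h1 : (Ioc a b ∩ Ioc a' b') ∩ Icc 0 t = Ioc (max a a') (min b b') := by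
    rw [Ioc_inter_Ioc]
    ext x
    simp only [mem_inter_iff, mem_Ioc, mem_Icc, sup_lt_iff, le_inf_iff, max_lt_iff, le_min_iff]
    constructor
    · rintro ⟨h, -⟩; exact h
    · rintro ⟨h1, h2⟩
      exact ⟨⟨h1, h2⟩, by linarith, by linarith⟩
  rw [h1, Real.volume_Ioc]
  unfold len
  rcases le_total 0 (min b b' - max a a') with h | h
  · rw [max_eq_right h]
  · rw [max_eq_left h, ENNReal.ofReal_of_nonpos h, ENNReal.ofReal_zero]

theorem len_nonneg (a b a' b' : ℝ) : 0 ≤ len a b a' b' := le_max_left _ _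

theorem SimpleProc.integrable_sum (φ : SimpleProc P F T X) :
    letI := φ.fin
    Integrable (fun ω => ∑ i, ∑ j, len (φ.a i) (φ.b i) (φ.a j) (φ.b j) *
      inner ℝ (φ.ξ i ω) (φ.ξ j ω)) P := by
  letI := φ.fin
  exact integrable_finsetSum _ fun i _ => integrable_finsetSum _ fun j _ =>
    (integrable_inner (φ.memLp i) (φ.memLp j)).const_mul _

theorem SimpleProc.integral_sq {t : ℝ} (htT : t ≤ T) (hW : IsBM P F T W)
    (φ : SimpleProc P F t X) :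
    letI := φ.fin
    ∫⁻ ω, ‖φ.integral W ω‖ₑ ^ 2 ∂P = ENNReal.ofReal (∫ ω, ∑ i, ∑ j,
      len (φ.a i) (φ.b i) (φ.a j) (φ.b j) * inner ℝ (φ.ξ i ω) (φ.ξ j ω) ∂P) := by
  letI := φ.fin
  have hm : ∀ i, MemLp (DD W (φ.a i) (φ.b i) (φ.ξ i)) 2 P := fun i =>
    hW.memLp_DD (φ.nonneg i) le_rfl (φ.le i) ((φ.le_t i).trans htT) (φ.meas i) (φ.memLp i)
  have h1 : ∀ ω, ‖φ.integral W ω‖ ^ 2 = ∑ i, ∑ j, inner ℝ (DD W (φ.a i) (φ.b i) (φ.ξ i) ω)
      (DD W (φ.a j) (φ.b j) (φ.ξ j) ω) := by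
    intro ω
    rw [φ.integral_eq, ← real_inner_self_eq_norm_sq, sum_inner]
    refine Finset.sum_congr rfl fun i _ => ?_
    rw [inner_sum]
  have h2 : Integrable (fun ω => ∑ i, ∑ j, inner ℝ (DD W (φ.a i) (φ.b i) (φ.ξ i) ω)
      (DD W (φ.a j) (φ.b j) (φ.ξ j) ω)) P :=
    integrable_finsetSum _ fun i _ => integrable_finsetSum _ fun j _ =>
      integrable_inner (hm i) (hm j)
  have h3 : ∫⁻ ω, ‖φ.integral W ω‖ₑ ^ 2 ∂P = ∫⁻ ω, ENNReal.ofReal (∑ i, ∑ j,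
      inner ℝ (DD W (φ.a i) (φ.b i) (φ.ξ i) ω) (DD W (φ.a j) (φ.b j) (φ.ξ j) ω)) ∂P := by
    refine lintegral_congr fun ω => ?_
    rw [enorm_sq, h1]
  rw [h3, ← ofReal_integral_eq_lintegral_ofReal h2
    (Eventually.of_forall fun ω => by simp only [Pi.zero_apply]; rw [← h1]; positivity)]
  congr 1
  rw [integral_finsetSum _ fun i _ => integrable_finsetSum _ fun j _ =>
      integrable_inner (hm i) (hm j),
    integral_finsetSum _ fun i _ => integrable_finsetSum _ fun j _ =>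
      (integrable_inner (φ.memLp i) (φ.memLp j)).const_mul _]
  refine Finset.sum_congr rfl fun i _ => ?_
  rw [integral_finsetSum _ fun j _ => integrable_inner (hm i) (hm j),
    integral_finsetSum _ fun j _ => (integrable_inner (φ.memLp i) (φ.memLp j)).const_mul _]
  refine Finset.sum_congr rfl fun j _ => ?_
  rw [hW.inner_DD (φ.nonneg i) (φ.le i) ((φ.le_t i).trans htT) (φ.nonneg j) (φ.le j)
    ((φ.le_t j).trans htT) (φ.meas i) (φ.meas j) (φ.memLp i) (φ.memLp j), integral_const_mul]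

theorem SimpleProc.eval_sq {t : ℝ} (φ : SimpleProc P F t X) (ω : Ω) :
    letI := φ.fin
    ∫⁻ s in Icc 0 t, ‖φ.eval s ω‖ₑ ^ 2 = ENNReal.ofReal (∑ i, ∑ j,
      len (φ.a i) (φ.b i) (φ.a j) (φ.b j) * inner ℝ (φ.ξ i ω) (φ.ξ j ω)) := by
  letI := φ.fin
  have h1 : ∀ s, ‖φ.eval s ω‖ ^ 2 = ∑ i, ∑ j,
      (Ioc (φ.a i) (φ.b i) ∩ Ioc (φ.a j) (φ.b j)).indicator
        (fun _ => inner ℝ (φ.ξ i ω) (φ.ξ j ω)) s := by
    intro s
    unfold SimpleProc.eval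
    rw [← real_inner_self_eq_norm_sq, sum_inner]
    refine Finset.sum_congr rfl fun i _ => ?_
    rw [inner_sum]
    refine Finset.sum_congr rfl fun j _ => ?_
    by_cases hi : s ∈ Ioc (φ.a i) (φ.b i) <;> by_cases hj : s ∈ Ioc (φ.a j) (φ.b j) <;>
      simp [Set.indicator, hi, hj]
  have hint : ∀ i j, Integrable ((Ioc (φ.a i) (φ.b i) ∩ Ioc (φ.a j) (φ.b j)).indicator
        (fun _ => inner ℝ (φ.ξ i ω) (φ.ξ j ω))) (volume.restrict (Icc 0 t)) := by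
    intro i j
    refine (integrable_const _).indicator (measurableSet_Ioc.inter measurableSet_Ioc)
  have h2 : Integrable (fun s => ∑ i, ∑ j,
      (Ioc (φ.a i) (φ.b i) ∩ Ioc (φ.a j) (φ.b j)).indicator
        (fun _ => inner ℝ (φ.ξ i ω) (φ.ξ j ω)) s) (volume.restrict (Icc 0 t)) :=
    integrable_finsetSum _ fun i _ => integrable_finsetSum _ fun j _ => hint i j
  have h3 : ∫⁻ s in Icc 0 t, ‖φ.eval s ω‖ₑ ^ 2 = ∫⁻ s in Icc 0 t, ENNReal.ofReal (∑ i, ∑ j,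
      (Ioc (φ.a i) (φ.b i) ∩ Ioc (φ.a j) (φ.b j)).indicator
        (fun _ => inner ℝ (φ.ξ i ω) (φ.ξ j ω)) s) := by
    refine lintegral_congr fun s => ?_
    rw [enorm_sq, h1]
  rw [h3, ← ofReal_integral_eq_lintegral_ofReal h2
    (Eventually.of_forall fun s => by simp only [Pi.zero_apply]; rw [← h1]; positivity)]
  congr 1
  rw [integral_finsetSum _ fun i _ => integrable_finsetSum _ fun j _ => hint i j]
  refine Finset.sum_congr rfl fun i _ => ?_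
  rw [integral_finsetSum _ fun j _ => hint i j]
  refine Finset.sum_congr rfl fun j _ => ?_
  rw [integral_indicator (measurableSet_Ioc.inter measurableSet_Ioc), setIntegral_const,
    smul_eq_mul, Measure.real, Measure.restrict_apply (measurableSet_Ioc.inter measurableSet_Ioc),
    len_eq _ _ _ _ _ (φ.nonneg i) (φ.le_t i), ENNReal.toReal_ofReal (len_nonneg _ _ _ _)]

/-- the Ito isometry for simple processes -/
theorem SimpleProc.isometry {t : ℝ} (htT : t ≤ T) (hW : IsBM P F T W)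
    (φ : SimpleProc P F t X) :
    ∫⁻ ω, ‖φ.integral W ω‖ₑ ^ 2 ∂P = ∫⁻ ω, (∫⁻ s in Icc 0 t, ‖φ.eval s ω‖ₑ ^ 2) ∂P := by
  rw [φ.integral_sq htT hW]
  simp_rw [φ.eval_sq]
  letI := φ.fin
  refine ofReal_integral_eq_lintegral_ofReal ?_ ?_
  · exact integrable_finsetSum _ fun i _ => integrable_finsetSum _ fun j _ =>
      (integrable_inner (φ.memLp i) (φ.memLp j)).const_mul _
  · refine Eventually.of_forall fun ω => ?_
    rw [Pi.zero_apply]
    by_contra hneg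
    push Not at hneg
    -- the sum is the integral of a square
    have h1 : ∀ s, ‖φ.eval s ω‖ ^ 2 = ∑ i, ∑ j,
        (Ioc (φ.a i) (φ.b i) ∩ Ioc (φ.a j) (φ.b j)).indicator
          (fun _ => inner ℝ (φ.ξ i ω) (φ.ξ j ω)) s := by
      intro s
      unfold SimpleProc.eval
      rw [← real_inner_self_eq_norm_sq, sum_inner]
      refine Finset.sum_congr rfl fun i _ => ?_
      rw [inner_sum]
      refine Finset.sum_congr rfl fun j _ => ?_
      by_cases hi : s ∈ Ioc (φ.a i) (φ.b i) <;> by_cases hj : s ∈ Ioc (φ.a j) (φ.b j) <;>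
        simp [Set.indicator, hi, hj]
    have hint : ∀ i j, Integrable ((Ioc (φ.a i) (φ.b i) ∩ Ioc (φ.a j) (φ.b j)).indicator
          (fun _ => inner ℝ (φ.ξ i ω) (φ.ξ j ω))) (volume.restrict (Icc 0 t)) := by
      intro i j
      refine (integrable_const _).indicator (measurableSet_Ioc.inter measurableSet_Ioc)
    have h4 : ∫ s in Icc 0 t, ‖φ.eval s ω‖ ^ 2 = ∑ i, ∑ j,
        len (φ.a i) (φ.b i) (φ.a j) (φ.b j) * inner ℝ (φ.ξ i ω) (φ.ξ j ω) := by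
      simp_rw [h1]
      rw [integral_finsetSum _ fun i _ => integrable_finsetSum _ fun j _ => hint i j]
      refine Finset.sum_congr rfl fun i _ => ?_
      rw [integral_finsetSum _ fun j _ => hint i j]
      refine Finset.sum_congr rfl fun j _ => ?_
      rw [integral_indicator (measurableSet_Ioc.inter measurableSet_Ioc), setIntegral_const,
        smul_eq_mul, Measure.real,
        Measure.restrict_apply (measurableSet_Ioc.inter measurableSet_Ioc),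
        len_eq _ _ _ _ _ (φ.nonneg i) (φ.le_t i), ENNReal.toReal_ofReal (len_nonneg _ _ _ _)]
    have h5 : 0 ≤ ∫ s in Icc 0 t, ‖φ.eval s ω‖ ^ 2 := integral_nonneg fun s => by positivity
    linarith

/-! ### operations -/

/-- difference of simple processes -/
noncomputable def SimpleProc.sub {t : ℝ} (φ ψ : SimpleProc P F t X) : SimpleProc P F t X where
  ι := φ.ι ⊕ ψ.ι
  fin := @instFintypeSum _ _ φ.fin ψ.fin
  a := Sum.elim φ.a ψ.a
  b := Sum.elim φ.b ψ.b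
  ξ := Sum.elim φ.ξ (fun i ω => -ψ.ξ i ω)
  nonneg := by rintro (i | i); exacts [φ.nonneg i, ψ.nonneg i]
  le := by rintro (i | i); exacts [φ.le i, ψ.le i]
  le_t := by rintro (i | i); exacts [φ.le_t i, ψ.le_t i]
  meas := by rintro (i | i); exacts [φ.meas i, (ψ.meas i).neg]
  memLp := by rintro (i | i); exacts [φ.memLp i, (ψ.memLp i).neg]

theorem SimpleProc.eval_sub {t : ℝ} (φ ψ : SimpleProc P F t X) (s : ℝ) (ω : Ω) :
    (φ.sub ψ).eval s ω = φ.eval s ω - ψ.eval s ω := by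
  letI := φ.fin
  letI := ψ.fin
  unfold SimpleProc.eval SimpleProc.sub
  simp only [Fintype.sum_sum_type, Sum.elim_inl, Sum.elim_inr]
  rw [sub_eq_add_neg, ← Finset.sum_neg_distrib]
  congr 1
  refine Finset.sum_congr rfl fun i _ => ?_
  by_cases hi : s ∈ Ioc (ψ.a i) (ψ.b i) <;> simp [Set.indicator, hi]

theorem SimpleProc.integral_sub {t : ℝ} (φ ψ : SimpleProc P F t X) (ω : Ω) :
    (φ.sub ψ).integral W ω = φ.integral W ω - ψ.integral W ω := by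
  letI := φ.fin
  letI := ψ.fin
  unfold SimpleProc.integral SimpleProc.sub
  simp only [Fintype.sum_sum_type, Sum.elim_inl, Sum.elim_inr]
  rw [sub_eq_add_neg, ← Finset.sum_neg_distrib]
  congr 1
  refine Finset.sum_congr rfl fun i _ => ?_
  rw [smul_neg]

/-- image under a bounded operator -/
noncomputable def SimpleProc.map {t : ℝ} {Z : Type*} [NormedAddCommGroup Z] [NormedSpace ℝ Z]
    (L : X →L[ℝ] Z) (φ : SimpleProc P F t X) : SimpleProc P F t Z where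
  ι := φ.ι
  fin := φ.fin
  a := φ.a
  b := φ.b
  ξ := fun i ω => L (φ.ξ i ω)
  nonneg := φ.nonneg
  le := φ.le
  le_t := φ.le_t
  meas := fun i => L.continuous.comp_stronglyMeasurable (φ.meas i)
  memLp := fun i => L.comp_memLp' (φ.memLp i)

theorem SimpleProc.eval_map {t : ℝ} {Z : Type*} [NormedAddCommGroup Z] [NormedSpace ℝ Z]
    (L : X →L[ℝ] Z) (φ : SimpleProc P F t X) (s : ℝ) (ω : Ω) :
    (φ.map L).eval s ω = L (φ.eval s ω) := by
  letI := φ.fin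
  unfold SimpleProc.eval SimpleProc.map
  rw [map_sum]
  refine Finset.sum_congr rfl fun i _ => ?_
  by_cases hi : s ∈ Ioc (φ.a i) (φ.b i) <;> simp [Set.indicator, hi]

theorem SimpleProc.integral_map {t : ℝ} {Z : Type*} [NormedAddCommGroup Z] [NormedSpace ℝ Z]
    (L : X →L[ℝ] Z) (φ : SimpleProc P F t X) (ω : Ω) :
    (φ.map L).integral W ω = L (φ.integral W ω) := by
  letI := φ.fin
  unfold SimpleProc.integral SimpleProc.map
  rw [map_sum]
  refine Finset.sum_congr rfl fun i _ => ?_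
  rw [map_smul]

theorem enorm_map_sq {Z : Type*} [NormedAddCommGroup Z] [NormedSpace ℝ Z]
    (L : X →L[ℝ] Z) (x : X) : ‖L x‖ₑ ^ 2 ≤ ‖L‖ₑ ^ 2 * ‖x‖ₑ ^ 2 := by
  rw [← mul_pow]
  exact pow_le_pow_left' (L.le_opENorm x) 2

theorem IsItoIntegral.map {t : ℝ} {φ : ℝ → Ω → X} {Y : Ω → X} {Z : Type*} [NormedAddCommGroup Z]
    [NormedSpace ℝ Z] (L : X →L[ℝ] Z) (h : IsItoIntegral P F W t φ Y) :
    IsItoIntegral P F W t (fun s ω => L (φ s ω)) (fun ω => L (Y ω)) := by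
  obtain ⟨hY, ψ, h1, h2⟩ := h
  refine ⟨L.continuous.comp_aestronglyMeasurable hY, fun n => (ψ n).map L, ?_, ?_⟩
  · have h3 : Tendsto (fun n => ‖L‖ₑ ^ 2 * ∫⁻ ω, (∫⁻ s in Icc 0 t,
        ‖(ψ n).eval s ω - φ s ω‖ₑ ^ 2) ∂P) atTop (𝓝 (‖L‖ₑ ^ 2 * 0)) :=
      ENNReal.Tendsto.const_mul h1 (Or.inr (by simp))
    rw [mul_zero] at h3
    refine tendsto_of_tendsto_of_tendsto_of_le_of_le tendsto_const_nhds h3
      (fun n => zero_le) fun n => ?_
    rw [← lintegral_const_mul' _ _ (by simp)]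
    refine lintegral_mono fun ω => ?_
    rw [← lintegral_const_mul' _ _ (by simp)]
    refine lintegral_mono fun s => ?_
    rw [(ψ n).eval_map, ← map_sub]
    exact enorm_map_sq L _
  · have h3 : Tendsto (fun n => ‖L‖ₑ ^ 2 * ∫⁻ ω, ‖(ψ n).integral W ω - Y ω‖ₑ ^ 2 ∂P) atTop
        (𝓝 (‖L‖ₑ ^ 2 * 0)) :=
      ENNReal.Tendsto.const_mul h2 (Or.inr (by simp))
    rw [mul_zero] at h3
    refine tendsto_of_tendsto_of_tendsto_of_le_of_le tendsto_const_nhds h3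
      (fun n => zero_le) fun n => ?_
    rw [← lintegral_const_mul' _ _ (by simp)]
    refine lintegral_mono fun ω => ?_
    rw [(ψ n).integral_map, ← map_sub]
    exact enorm_map_sq L _

/-! ### measurability -/

theorem SimpleProc.stronglyMeasurable_eval {t : ℝ} (φ : SimpleProc P F t X) :
    StronglyMeasurable (fun p : Ω × ℝ => φ.eval p.2 p.1) := by
  letI := φ.fin
  unfold SimpleProc.eval
  refine Finset.stronglyMeasurable_fun_sum _ fun i _ => ?_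
  have h1 : StronglyMeasurable (fun p : Ω × ℝ => φ.ξ i p.1) :=
    ((φ.meas i).mono (F.le _)).comp_measurable measurable_fst
  have h2 : (fun p : Ω × ℝ => (Ioc (φ.a i) (φ.b i)).indicator (fun _ => φ.ξ i p.1) p.2) =
      ((fun p : Ω × ℝ => p.2) ⁻¹' (Ioc (φ.a i) (φ.b i))).indicator (fun p => φ.ξ i p.1) := by
    funext p
    by_cases hp : p.2 ∈ Ioc (φ.a i) (φ.b i) <;> simp [Set.indicator, hp]
  rw [h2]
  exact h1.indicator (measurable_snd measurableSet_Ioc)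

theorem SimpleProc.aesm_integral {t : ℝ} (htT : t ≤ T) (hW : IsBM P F T W)
    (φ : SimpleProc P F t X) : AEStronglyMeasurable (φ.integral W) P := by
  letI := φ.fin
  have : φ.integral W = fun ω => ∑ i, DD W (φ.a i) (φ.b i) (φ.ξ i) ω := by
    funext ω; exact φ.integral_eq W ω
  rw [this]
  exact Finset.aestronglyMeasurable_fun_sum _ fun i _ =>
    (hW.memLp_DD (φ.nonneg i) le_rfl (φ.le i) ((φ.le_t i).trans htT) (φ.meas i)
      (φ.memLp i)).aestronglyMeasurable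

/-- iterated `L²` distance, quasi triangle inequality -/
theorem lint2_add_le {t : ℝ} {f g : ℝ → Ω → X} (hg : StronglyMeasurable (fun p : Ω × ℝ => g p.2 p.1)) :
    ∫⁻ ω, (∫⁻ s in Icc 0 t, ‖f s ω + g s ω‖ₑ ^ 2) ∂P ≤
      2 * ∫⁻ ω, (∫⁻ s in Icc 0 t, ‖f s ω‖ₑ ^ 2) ∂P + 2 * ∫⁻ ω, (∫⁻ s in Icc 0 t, ‖g s ω‖ₑ ^ 2) ∂P := by
  have hgω : ∀ ω, StronglyMeasurable (fun s => g s ω) := fun ω =>
    hg.comp_measurable (measurable_const.prodMk measurable_id)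
  have hgm : Measurable (fun ω => ∫⁻ s in Icc 0 t, ‖g s ω‖ₑ ^ 2) := by
    have h1 : Measurable (fun p : Ω × ℝ => ‖g p.2 p.1‖ₑ ^ 2) := hg.enorm.pow_const 2
    exact h1.lintegral_prod_right'
  calc _ ≤ ∫⁻ ω, (2 * (∫⁻ s in Icc 0 t, ‖f s ω‖ₑ ^ 2) + 2 * ∫⁻ s in Icc 0 t, ‖g s ω‖ₑ ^ 2) ∂P :=
        lintegral_mono fun ω => lint_add_le (hgω ω).aestronglyMeasurable
    _ = _ := by
        rw [lintegral_add_right _ (hgm.const_mul 2), lintegral_const_mul' _ _ (by simp),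
          lintegral_const_mul' _ _ (by simp)]

/-- the Ito integral is within `2‖φ - Φ‖` of the elementary integral of `Φ` -/
theorem IsItoIntegral.dist_le {t : ℝ} (htT : t ≤ T) (hW : IsBM P F T W) {φ : ℝ → Ω → X}
    {Y : Ω → X} (h : IsItoIntegral P F W t φ Y)
    (hφ : StronglyMeasurable (fun p : Ω × ℝ => φ p.2 p.1)) (Φ : SimpleProc P F t X) :
    ∫⁻ ω, ‖Y ω - Φ.integral W ω‖ₑ ^ 2 ∂P ≤
      4 * ∫⁻ ω, (∫⁻ s in Icc 0 t, ‖φ s ω - Φ.eval s ω‖ₑ ^ 2) ∂P := by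
  obtain ⟨hY, ψ, h1, h2⟩ := h
  have key : ∀ n, ∫⁻ ω, ‖Y ω - Φ.integral W ω‖ₑ ^ 2 ∂P ≤
      2 * ∫⁻ ω, ‖(ψ n).integral W ω - Y ω‖ₑ ^ 2 ∂P +
      (4 * ∫⁻ ω, (∫⁻ s in Icc 0 t, ‖(ψ n).eval s ω - φ s ω‖ₑ ^ 2) ∂P +
      4 * ∫⁻ ω, (∫⁻ s in Icc 0 t, ‖φ s ω - Φ.eval s ω‖ₑ ^ 2) ∂P) := by
    intro n
    have e1 : ∀ ω, Y ω - Φ.integral W ω = (Y ω - (ψ n).integral W ω) +
        ((ψ n).sub Φ).integral W ω := by
      intro ω
      rw [SimpleProc.integral_sub]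
      abel
    simp_rw [e1]
    refine (lint_add_le (((ψ n).sub Φ).aesm_integral htT hW)).trans ?_
    rw [lint_neg]
    refine add_le_add le_rfl ?_
    rw [((ψ n).sub Φ).isometry htT hW]
    have e2 : ∀ s ω, ((ψ n).sub Φ).eval s ω = ((ψ n).eval s ω - φ s ω) + (φ s ω - Φ.eval s ω) := by
      intro s ω
      rw [SimpleProc.eval_sub]
      abel
    simp_rw [e2]
    have h4 : (4 : ℝ≥0∞) = 2 * 2 := by norm_num
    rw [h4, mul_assoc, mul_assoc, ← mul_add]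
    exact mul_le_mul_right (lint2_add_le (hφ.sub Φ.stronglyMeasurable_eval)) 2
  have h3 : Tendsto (fun n => 2 * ∫⁻ ω, ‖(ψ n).integral W ω - Y ω‖ₑ ^ 2 ∂P +
      (4 * ∫⁻ ω, (∫⁻ s in Icc 0 t, ‖(ψ n).eval s ω - φ s ω‖ₑ ^ 2) ∂P +
      4 * ∫⁻ ω, (∫⁻ s in Icc 0 t, ‖φ s ω - Φ.eval s ω‖ₑ ^ 2) ∂P)) atTop
      (𝓝 (2 * 0 + (4 * 0 + 4 * ∫⁻ ω, (∫⁻ s in Icc 0 t, ‖φ s ω - Φ.eval s ω‖ₑ ^ 2) ∂P))) :=
    (ENNReal.Tendsto.const_mul h2 (Or.inr (by simp))).add
      ((ENNReal.Tendsto.const_mul h1 (Or.inr (by simp))).add tendsto_const_nhds)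
  simp only [mul_zero, zero_add] at h3
  exact ge_of_tendsto' h3 key

end Pool.Agent.H725R3.SConv
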