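import Pool.Agent.H725R3.SConv.Ito

set_option autoImplicit false
set_option linter.unusedSectionVars false
set_option linter.style.haveILetI false
set_option linter.unusedSimpArgs false
open MeasureTheory ProbabilityTheory Filter Set
open scoped ENNReal NNReal Topology

namespace Pool.Agent.H725R3.SConv

variable {Ω : Type*} {mΩ : MeasurableSpace Ω} {P : Measure Ω} [IsProbabilityMeasure P]
  {F : Filtration ℝ mΩ} {T : ℝ} {W : ℝ → Ω → ℝ}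
variable {X : Type*} [NormedAddCommGroup X] [InnerProductSpace ℝ X]

theorem eLpNorm_sq {f : Ω → X} : eLpNorm f 2 P ^ 2 = ∫⁻ ω, ‖f ω‖ₑ ^ 2 ∂P := by
  have h := eLpNorm_nnreal_pow_eq_lintegral (μ := P) (f := f) (p := 2) (by norm_num)
  have e1 : ((2 : ℝ≥0) : ℝ≥0∞) = 2 := by simp
  have e2 : ((2 : ℝ≥0) : ℝ) = (2 : ℕ) := by simp
  rw [e1, e2] at h
  simp only [ENNReal.rpow_natCast] at h
  exact h

theorem IsItoIntegral.unique {t : ℝ} (htT : t ≤ T) (hW : IsBM P F T W) {φ : ℝ → Ω → X}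
    {Y Y' : Ω → X} (h : IsItoIntegral P F W t φ Y) (h' : IsItoIntegral P F W t φ Y')
    (hφ : StronglyMeasurable (fun p : Ω × ℝ => φ p.2 p.1)) : Y' =ᵐ[P] Y := by
  have hY := h.1
  have hY' := h'.1
  obtain ⟨-, ψ, h1, h2⟩ := id h'
  have key : ∀ n, ∫⁻ ω, ‖Y' ω - Y ω‖ₑ ^ 2 ∂P ≤
      2 * ∫⁻ ω, ‖(ψ n).integral W ω - Y' ω‖ₑ ^ 2 ∂P +
      8 * ∫⁻ ω, (∫⁻ s in Icc 0 t, ‖(ψ n).eval s ω - φ s ω‖ₑ ^ 2) ∂P := by
    intro n
    have e1 : ∀ ω, Y' ω - Y ω = (Y' ω - (ψ n).integral W ω) + ((ψ n).integral W ω - Y ω) := by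
      intro ω
      abel
    simp_rw [e1]
    refine (lint_add_le (((ψ n).aesm_integral htT hW).sub hY)).trans ?_
    rw [lint_neg]
    refine add_le_add le_rfl ?_
    have e3 := h.dist_le htT hW hφ (ψ n)
    simp only [Pi.sub_apply]
    rw [lint_neg]
    have e4 : ∀ ω, ∫⁻ s in Icc 0 t, ‖(ψ n).eval s ω - φ s ω‖ₑ ^ 2 =
        ∫⁻ s in Icc 0 t, ‖φ s ω - (ψ n).eval s ω‖ₑ ^ 2 := fun ω => lint_neg _ _
    simp_rw [e4]
    calc 2 * ∫⁻ ω, ‖Y ω - (ψ n).integral W ω‖ₑ ^ 2 ∂P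
        ≤ 2 * (4 * ∫⁻ ω, (∫⁻ s in Icc 0 t, ‖φ s ω - (ψ n).eval s ω‖ₑ ^ 2) ∂P) :=
          mul_le_mul_right e3 2
      _ = _ := by rw [← mul_assoc]; norm_num
  have h3 : Tendsto (fun n => 2 * ∫⁻ ω, ‖(ψ n).integral W ω - Y' ω‖ₑ ^ 2 ∂P +
      8 * ∫⁻ ω, (∫⁻ s in Icc 0 t, ‖(ψ n).eval s ω - φ s ω‖ₑ ^ 2) ∂P) atTop
      (𝓝 (2 * 0 + 8 * 0)) :=
    (ENNReal.Tendsto.const_mul h2 (Or.inr (by simp))).add
      (ENNReal.Tendsto.const_mul h1 (Or.inr (by simp)))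
  simp only [mul_zero, zero_add] at h3
  have h4 : ∫⁻ ω, ‖Y' ω - Y ω‖ₑ ^ 2 ∂P = 0 := le_antisymm (ge_of_tendsto' h3 key) zero_le
  have hmeas : AEMeasurable (fun ω => ‖Y' ω - Y ω‖ₑ ^ 2) P := (hY'.sub hY).enorm.pow_const 2
  rw [lintegral_eq_zero_iff' hmeas] at h4
  filter_upwards [h4] with ω hω
  have : ‖Y' ω - Y ω‖ₑ = 0 := by simpa using hω
  exact sub_eq_zero.1 (enorm_eq_zero.1 this)

theorem SimpleProc.memLp_integral {t : ℝ} (htT : t ≤ T) (hW : IsBM P F T W)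
    (φ : SimpleProc P F t X) : MemLp (φ.integral W) 2 P := by
  letI := φ.fin
  have : φ.integral W = fun ω => ∑ i, DD W (φ.a i) (φ.b i) (φ.ξ i) ω := by
    funext ω; exact φ.integral_eq W ω
  rw [this]
  exact memLp_finsetSum _ fun i _ =>
    (hW.memLp_DD (φ.nonneg i) le_rfl (φ.le i) ((φ.le_t i).trans htT) (φ.meas i)
      (φ.memLp i))

/-- existence of the Ito integral of an approximable process -/
theorem exists_ito [CompleteSpace X] {t : ℝ} (htT : t ≤ T) (hW : IsBM P F T W)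
    {φ : ℝ → Ω → X} (hφ : StronglyMeasurable (fun p : Ω × ℝ => φ p.2 p.1))
    (ψ : ℕ → SimpleProc P F t X)
    (h1 : Tendsto (fun n => ∫⁻ ω, (∫⁻ s in Icc 0 t, ‖(ψ n).eval s ω - φ s ω‖ₑ ^ 2) ∂P) atTop
      (𝓝 0)) : ∃ Y, IsItoIntegral P F W t φ Y := by
  have hm : ∀ n, MemLp ((ψ n).integral W) 2 P := fun n => (ψ n).memLp_integral htT hW
  have hdist : ∀ n m, edist ((hm n).toLp _) ((hm m).toLp _) ^ 2 ≤
      2 * ∫⁻ ω, (∫⁻ s in Icc 0 t, ‖(ψ n).eval s ω - φ s ω‖ₑ ^ 2) ∂P +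
      2 * ∫⁻ ω, (∫⁻ s in Icc 0 t, ‖(ψ m).eval s ω - φ s ω‖ₑ ^ 2) ∂P := by
    intro n m
    rw [Lp.edist_toLp_toLp, eLpNorm_sq]
    have e1 : ∀ ω, ((ψ n).integral W - (ψ m).integral W) ω = ((ψ n).sub (ψ m)).integral W ω := by
      intro ω
      rw [SimpleProc.integral_sub]
      rfl
    simp_rw [e1]
    rw [((ψ n).sub (ψ m)).isometry htT hW]
    have e2 : ∀ s ω, ((ψ n).sub (ψ m)).eval s ω =
        ((ψ n).eval s ω - φ s ω) + (φ s ω - (ψ m).eval s ω) := by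
      intro s ω
      rw [SimpleProc.eval_sub]
      abel
    simp_rw [e2]
    refine (lint2_add_le (hφ.sub (ψ m).stronglyMeasurable_eval)).trans ?_
    have e4 : ∀ ω, ∫⁻ s in Icc 0 t, ‖φ s ω - (ψ m).eval s ω‖ₑ ^ 2 =
        ∫⁻ s in Icc 0 t, ‖(ψ m).eval s ω - φ s ω‖ₑ ^ 2 := fun ω => lint_neg _ _
    simp_rw [e4]
    exact le_rfl
  have hcauchy : CauchySeq (fun n => (hm n).toLp ((ψ n).integral W)) := by
    rw [EMetric.cauchySeq_iff]
    intro ε hε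
    rcases eq_or_ne ε ∞ with rfl | hεt
    · refine ⟨0, fun m _ n _ => ?_⟩
      rw [Lp.edist_toLp_toLp]
      exact (((hm m).sub (hm n)).eLpNorm_lt_top)
    have hpos : 0 < ε ^ 2 / 8 := ENNReal.div_pos (pow_ne_zero 2 hε.ne') (by simp)
    obtain ⟨N, hN⟩ := eventually_atTop.1 ((tendsto_order.1 h1).2 (ε ^ 2 / 8) hpos)
    refine ⟨N, fun m hm' n hn' => ?_⟩
    have e1 := hdist m n
    have e2 : edist ((hm m).toLp ((ψ m).integral W)) ((hm n).toLp ((ψ n).integral W)) ^ 2 <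
        ε ^ 2 := by
      refine lt_of_le_of_lt e1 ?_
      calc _ ≤ 2 * (ε ^ 2 / 8) + 2 * (ε ^ 2 / 8) := by
            gcongr
            · exact (hN m hm').le
            · exact (hN n hn').le
        _ = ε ^ 2 / 2 := by
            rw [← two_mul, ← mul_assoc, ← mul_div_assoc]
            rw [ENNReal.div_eq_div_iff (by simp) (by simp) (by simp) (by simp)]
            ring
        _ < ε ^ 2 := ENNReal.half_lt_self (pow_ne_zero 2 hε.ne') (ENNReal.pow_ne_top hεt)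
    by_contra hcon
    push Not at hcon
    exact absurd (pow_le_pow_left' hcon 2) (not_le.2 e2)
  obtain ⟨g, hg⟩ := cauchySeq_tendsto_of_complete hcauchy
  refine ⟨g, (Lp.memLp g).aestronglyMeasurable, ψ, h1, ?_⟩
  have hg' : Tendsto (fun n => (hm n).toLp ((ψ n).integral W)) atTop
      (𝓝 ((Lp.memLp g).toLp (g : Ω → X))) := by
    rw [Lp.toLp_coeFn]
    exact hg
  rw [Lp.tendsto_Lp_iff_tendsto_eLpNorm''] at hg'
  have h5 : Tendsto (fun n => eLpNorm ((ψ n).integral W - (g : Ω → X)) 2 P ^ 2) atTop (𝓝 (0 ^ 2)) :=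
    ENNReal.Tendsto.pow hg'
  simp_rw [eLpNorm_sq] at h5
  simpa using h5

end Pool.Agent.H725R3.SConv
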