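import Pool.Agent.H725R3.SConv.Process

set_option autoImplicit false
set_option linter.unusedSectionVars false
set_option linter.style.haveILetI false
set_option linter.unusedSimpArgs false
open MeasureTheory ProbabilityTheory Filter Set
open scoped ENNReal NNReal Topology

namespace Pool.Agent.H725R3.SConv

variable {Ω : Type*} {mΩ : MeasurableSpace Ω} {P : Measure Ω} [IsProbabilityMeasure P]
  {F : Filtration ℝ mΩ} {T : ℝ} {W : ℝ → Ω → ℝ}

theorem exp_neg_lip {x y : ℝ} (hx : 0 ≤ x) (hy : 0 ≤ y) :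
    |Real.exp (-x) - Real.exp (-y)| ≤ |x - y| := by
  wlog h : x ≤ y with H
  · rw [abs_sub_comm, abs_sub_comm x y]
    exact H hy hx (le_of_not_ge h)
  have h1 : Real.exp (-y) ≤ Real.exp (-x) := Real.exp_le_exp.2 (by linarith)
  rw [abs_of_nonneg (by linarith), abs_sub_comm, abs_of_nonneg (by linarith)]
  have h2 : Real.exp (-y) = Real.exp (-x) * Real.exp (-(y - x)) := by
    rw [← Real.exp_add]; congr 1; ring
  have h3 : 1 - (y - x) ≤ Real.exp (-(y - x)) := by
    have := Real.add_one_le_exp (-(y - x))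
    linarith
  have h4 : Real.exp (-x) ≤ 1 := Real.exp_le_one_iff.2 (by linarith)
  have h5 := Real.exp_pos (-x)
  rw [h2]
  have h6 : Real.exp (-x) * (1 - (y - x)) ≤ Real.exp (-x) * Real.exp (-(y - x)) :=
    mul_le_mul_of_nonneg_left h3 h5.le
  nlinarith

/-- the time dependent coefficient -/
noncomputable def hc (ρ t s : ℝ) : ℝ := Real.exp (-(ρ * max (t - s) 0))

theorem hc_cont (ρ t : ℝ) : Continuous (hc ρ t) := by
  unfold hc
  fun_prop

theorem hc_lip {ρ : ℝ} (hρ : 0 ≤ ρ) (t s s' : ℝ) : |hc ρ t s - hc ρ t s'| ≤ ρ * |s - s'| := by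
  unfold hc
  have h1 := le_max_right (t - s) 0
  have h2 := le_max_right (t - s') 0
  refine (exp_neg_lip (mul_nonneg hρ h1) (mul_nonneg hρ h2)).trans ?_
  rw [← mul_sub, abs_mul, abs_of_nonneg hρ]
  refine mul_le_mul_of_nonneg_left ?_ hρ
  refine (abs_max_sub_max_le_abs _ _ _).trans (le_of_eq ?_)
  rw [abs_sub_comm s s']
  congr 1
  ring

theorem SS_norm_le (r : ℕ → ℕ → ℝ) (h0 : ∀ m k, 0 ≤ r m k)
    (hm : ∀ m i j, i ≤ j → r m i ≤ r m j) (t : ℝ) (f : XX) : ‖SS r h0 hm t f‖ ≤ 10 * ‖f‖ :=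
  ContinuousLinearMap.le_of_opNorm_le _ (LinearMap.mkContinuous_norm_le _ (by norm_num) _) f

theorem SS_joint (r : ℕ → ℕ → ℝ) (h0 : ∀ m k, 0 ≤ r m k)
    (hm : ∀ m i j, i ≤ j → r m i ≤ r m j) :
    Continuous (fun p : ℝ × XX => SS r h0 hm p.1 p.2) := by
  rw [continuous_iff_continuousAt]
  rintro ⟨t₀, x₀⟩
  rw [ContinuousAt, tendsto_iff_norm_sub_tendsto_zero]
  have h1 : Tendsto (fun p : ℝ × XX => 10 * ‖p.2 - x₀‖ +
      ‖SS r h0 hm p.1 x₀ - SS r h0 hm t₀ x₀‖) (𝓝 (t₀, x₀)) (𝓝 (10 * 0 + 0)) := by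
    refine Tendsto.add (Tendsto.const_mul _ ?_) ?_
    · have : Continuous (fun p : ℝ × XX => ‖p.2 - x₀‖) := by fun_prop
      have h2 := this.tendsto (t₀, x₀)
      simpa using h2
    · have : Continuous (fun p : ℝ × XX => ‖SS r h0 hm p.1 x₀ - SS r h0 hm t₀ x₀‖) :=
        (((SS_cont r h0 hm x₀).comp continuous_fst).sub continuous_const).norm
      have h2 := this.tendsto (t₀, x₀)
      simpa using h2
  rw [mul_zero, add_zero] at h1
  refine squeeze_zero (fun p => norm_nonneg _) (fun p => ?_) h1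
  have h3 : SS r h0 hm p.1 p.2 - SS r h0 hm t₀ x₀ =
      SS r h0 hm p.1 (p.2 - x₀) + (SS r h0 hm p.1 x₀ - SS r h0 hm t₀ x₀) := by
    rw [map_sub]; abel
  rw [h3]
  exact (norm_add_le _ _).trans (add_le_add (SS_norm_le r h0 hm _ _) le_rfl)

namespace Par
variable (c : Par T)

theorem δcc (m : ℕ) : c.δ m * c.cc m ^ 2 = ((3 / 5 : ℝ) ^ m) ^ 2 := by
  have h := c.δpos m
  unfold cc
  rw [div_pow, Real.sq_sqrt h.le]
  field_simp

theorem enorm_gm (W : ℝ → Ω → ℝ) (m : ℕ) (s : ℝ) (ω : Ω) :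
    ‖c.gm W m s ω‖ₑ ^ 2 ≤ ∑ l ∈ Finset.range (c.L m),
      (Ioc (c.tt m l) (c.tt m l + c.δ m)).indicator (fun _ => ‖c.xi W m l ω‖ₑ ^ 2) s := by
  by_cases h : ∃ l, l < c.L m ∧ s ∈ Ioc (c.tt m l) (c.tt m l + c.δ m)
  · obtain ⟨l, hl, hs⟩ := h
    rw [c.gm_of_mem W hl hs]
    refine le_trans (le_of_eq ?_) (Finset.single_le_sum (f := fun l =>
      (Ioc (c.tt m l) (c.tt m l + c.δ m)).indicator (fun _ => ‖c.xi W m l ω‖ₑ ^ 2) s)
      (fun _ _ => zero_le) (Finset.mem_range.2 hl))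
    rw [indicator_of_mem hs]
  · push Not at h
    rw [c.gm_of_notMem W h]
    simp

theorem lint_gm (hW : IsBM P F T W) (m : ℕ) (t : ℝ) :
    ∫⁻ ω, (∫⁻ s in Icc 0 t, ‖c.gm W m s ω‖ₑ ^ 2) ∂P ≤
      ENNReal.ofReal (9 / pp * (18 / 25) ^ m) := by
  have hcoin := c.RR_coins hW m
  have hδ := c.δpos m
  have h1 : ∀ ω, ∫⁻ s in Icc 0 t, ‖c.gm W m s ω‖ₑ ^ 2 ≤
      ENNReal.ofReal (9 * ((3 / 5 : ℝ) ^ m) ^ 2 * ∑ k ∈ Finset.range (2 ^ m),
        Aq (c.w m) (fun j => c.RR W m j ω) k (c.L m)) := by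
    intro ω
    calc ∫⁻ s in Icc 0 t, ‖c.gm W m s ω‖ₑ ^ 2
        ≤ ∫⁻ s in Icc 0 t, ∑ l ∈ Finset.range (c.L m),
          (Ioc (c.tt m l) (c.tt m l + c.δ m)).indicator (fun _ => ‖c.xi W m l ω‖ₑ ^ 2) s :=
          lintegral_mono fun s => c.enorm_gm W m s ω
      _ ≤ ∫⁻ s, ∑ l ∈ Finset.range (c.L m),
          (Ioc (c.tt m l) (c.tt m l + c.δ m)).indicator (fun _ => ‖c.xi W m l ω‖ₑ ^ 2) s :=
          setLIntegral_le_lintegral _ _
      _ = ∑ l ∈ Finset.range (c.L m), ‖c.xi W m l ω‖ₑ ^ 2 * ENNReal.ofReal (c.δ m) := by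
          rw [lintegral_finsetSum]
          · refine Finset.sum_congr rfl fun l _ => ?_
            rw [lintegral_indicator measurableSet_Ioc, setLIntegral_const, Real.volume_Ioc]
            congr 2
            ring
          · intro l _
            exact measurable_const.indicator measurableSet_Ioc
      _ ≤ ∑ l ∈ Finset.range (c.L m), ENNReal.ofReal (9 * ((3 / 5 : ℝ) ^ m) ^ 2 *
            ∑ k ∈ Finset.range (2 ^ m), c.at' W m k l ω) := by
          refine Finset.sum_le_sum fun l _ => ?_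
          rw [← ofReal_norm, ← ENNReal.ofReal_pow (norm_nonneg _),
            ← ENNReal.ofReal_mul (by positivity)]
          refine ENNReal.ofReal_le_ofReal ?_
          have h2 := mul_le_mul_of_nonneg_right (c.sq_norm_xi W m l ω) hδ.le
          refine h2.trans (le_of_eq ?_)
          rw [← c.δcc m]
          ring
      _ = _ := by
          rw [← ENNReal.ofReal_sum_of_nonneg]
          · congr 1
            rw [← Finset.mul_sum, Finset.sum_comm]
            rfl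
          · intro l _
            have := Finset.sum_nonneg (s := Finset.range (2 ^ m))
              fun k _ => c.at_nonneg (W := W) m k l ω
            positivity
  refine (lintegral_mono h1).trans ?_
  rw [← ofReal_integral_eq_lintegral_ofReal]
  · refine ENNReal.ofReal_le_ofReal ?_
    rw [integral_const_mul, integral_finsetSum _ fun k _ => hcoin.integrable_Aq (c.w m) k]
    have h2 : ∑ k ∈ Finset.range (2 ^ m), ∫ ω, Aq (c.w m) (fun j => c.RR W m j ω) k (c.L m) ∂P ≤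
        ∑ k ∈ Finset.range (2 ^ m), 1 / pp := Finset.sum_le_sum fun k _ =>
          hcoin.integral_Aq (c.w m) k
    have hp := pp_pos
    calc _ ≤ 9 * ((3 / 5 : ℝ) ^ m) ^ 2 * ∑ k ∈ Finset.range (2 ^ m), 1 / pp := by gcongr
      _ = _ := by
        rw [Finset.sum_const, Finset.card_range, nsmul_eq_mul]
        push_cast
        have e : ((18 : ℝ) / 25) ^ m = ((3 / 5 : ℝ) ^ m) ^ 2 * 2 ^ m := by
          rw [← pow_mul, mul_comm m 2, pow_mul, ← mul_pow]
          norm_num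
        rw [e]
        ring
  · exact (integrable_finsetSum _ fun k _ => hcoin.integrable_Aq (c.w m) k).const_mul _
  · refine Eventually.of_forall fun ω => ?_
    have := Finset.sum_nonneg (s := Finset.range (2 ^ m)) (f := fun k =>
      Aq (c.w m) (fun j => c.RR W m j ω) k (c.L m)) fun k _ =>
        Finset.sum_nonneg fun j _ => att_nonneg _ _ _ _
    simp only [Pi.zero_apply]
    positivity

theorem tail_bound (hW : IsBM P F T W) (t : ℝ) (M : ℕ) :
    ∫⁻ ω, (∫⁻ s in Icc 0 t, ‖(∑ m ∈ Finset.range M, c.gm W m s ω) - c.g W s ω‖ₑ ^ 2) ∂P ≤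
      ∑' m, ENNReal.ofReal (9 / pp * (18 / 25) ^ (m + M)) := by
  have hjm : ∀ m, Measurable (fun p : Ω × ℝ => ‖c.gm W m p.2 p.1‖ₑ ^ 2) := fun m =>
    (c.sm_gm hW m).enorm.pow_const 2
  calc _ ≤ ∫⁻ ω, (∫⁻ s in Icc 0 t, ∑' m, ‖c.gm W (m + M) s ω‖ₑ ^ 2) ∂P :=
        lintegral_mono fun ω => lintegral_mono fun s => c.enorm_tail W M s ω
    _ = ∫⁻ ω, (∑' m, ∫⁻ s in Icc 0 t, ‖c.gm W (m + M) s ω‖ₑ ^ 2) ∂P := by
        refine lintegral_congr fun ω => ?_
        refine lintegral_tsum fun m => ?_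
        exact ((hjm (m + M)).comp measurable_prodMk_left).aemeasurable
    _ = ∑' m, ∫⁻ ω, (∫⁻ s in Icc 0 t, ‖c.gm W (m + M) s ω‖ₑ ^ 2) ∂P := by
        refine lintegral_tsum fun m => ?_
        exact (hjm (m + M)).lintegral_prod_right'.aemeasurable
    _ ≤ _ := ENNReal.tsum_le_tsum fun m => c.lint_gm hW (m + M) t

theorem tsum_fin : ∑' m : ℕ, ENNReal.ofReal (9 / pp * (18 / 25) ^ m) ≠ ∞ := by
  have hp := pp_pos
  have h : Summable (fun m : ℕ => 9 / pp * (18 / 25 : ℝ) ^ m) :=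
    (summable_geometric_of_lt_one (by norm_num) (by norm_num)).mul_left _
  rw [← ENNReal.ofReal_tsum_of_nonneg (fun m => by positivity) h]
  exact ENNReal.ofReal_ne_top

theorem g_L2 (hW : IsBM P F T W) :
    ∫⁻ ω, (∫⁻ s in Icc 0 T, ‖c.g W s ω‖ₑ ^ 2) ∂P < ∞ := by
  have h := c.tail_bound hW T 0
  simp only [Finset.range_zero, Finset.sum_empty, zero_sub, enorm_neg, add_zero] at h
  exact lt_of_le_of_lt h (lt_top_iff_ne_top.2 tsum_fin)

/-- the semigroup of the construction -/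
noncomputable def S (t : ℝ) : XX →L[ℝ] XX := SS c.r c.r0 c.rmono t

theorem S_ev (m k : ℕ) (t s : ℝ) : c.S (t - s) (ev m k) = hc (c.r m k) t s • ev m k :=
  SS_ev c.r c.r0 c.rmono m k (t - s)

theorem isC0 : IsC0Semigroup c.S where
  zero := fun x => SS_zero c.r c.r0 c.rmono x
  add := fun s t hs ht x => SS_add c.r c.r0 c.rmono s t hs ht x
  cont := fun x => (SS_cont c.r c.r0 c.rmono x).continuousOn

theorem sm_Sg (hW : IsBM P F T W) (t : ℝ) :
    StronglyMeasurable (fun p : Ω × ℝ => c.S (t - p.2) (c.g W p.2 p.1)) := by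
  have h1 : StronglyMeasurable (fun p : Ω × ℝ => (t - p.2, c.g W p.2 p.1)) :=
    StronglyMeasurable.prodMk ((measurable_const.sub measurable_snd).stronglyMeasurable)
      (c.sm_g hW)
  exact (SS_joint c.r c.r0 c.rmono).comp_stronglyMeasurable h1

theorem S_gm (W : ℝ → Ω → ℝ) (m : ℕ) (t s : ℝ) (ω : Ω) :
    c.S (t - s) (c.gm W m s ω) = ∑ l ∈ Finset.range (c.L m), ∑ k ∈ Finset.range (2 ^ m),
      (Ioc (c.tt m l) (c.tt m l + c.δ m)).indicator
        (fun s => hc (c.r m k) t s • ((c.cc m * c.at' W m k l ω) • ev m k)) s := by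
  unfold gm
  rw [map_sum]
  refine Finset.sum_congr rfl fun l _ => ?_
  by_cases hs : s ∈ Ioc (c.tt m l) (c.tt m l + c.δ m)
  · simp only [indicator_of_mem hs]
    unfold xi
    rw [map_sum]
    refine Finset.sum_congr rfl fun k _ => ?_
    rw [map_smul, c.S_ev, smul_comm]
  · simp only [indicator_of_notMem hs, map_zero, Finset.sum_const_zero]

theorem apx_gm (hW : IsBM P F T W) (m : ℕ) (t : ℝ) :
    Apx P F t (fun s ω => c.S (t - s) (c.gm W m s ω)) := by
  simp_rw [c.S_gm]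
  refine Apx.sum _ fun l hl => Apx.sum _ fun k _ => ?_
  have hl' := (Finset.mem_range.1 hl).le
  have hsm : StronglyMeasurable[F (c.tt m l)] (fun ω => (c.cc m * c.at' W m k l ω) • ev m k) :=
    ((c.meas_at hW m k hl').const_mul _).stronglyMeasurable.smul_const _
  refine apx_term' (ξ := fun ω => (c.cc m * c.at' W m k l ω) • ev m k) (c.tt_nonneg m l)
    (le_add_of_nonneg_right (c.δpos m).le) (hc_cont _ _)
    (c.r0 m k) (hc_lip (c.r0 m k) t) hsm ?_
  refine MemLp.of_bound (hsm.mono (F.le _)).aestronglyMeasurable (c.cc m * ‖ev m k‖)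
    (Eventually.of_forall fun ω => ?_)
  rw [norm_smul, Real.norm_eq_abs, abs_of_nonneg (mul_nonneg (c.cc_nonneg m) (c.at_nonneg m k l ω))]
  have h1 := c.at_le_one (W := W) m k l ω
  have h2 := c.cc_nonneg m
  have h3 := norm_nonneg (ev m k)
  have : c.cc m * c.at' W m k l ω ≤ c.cc m := by nlinarith
  exact mul_le_mul_of_nonneg_right this h3

theorem apx_Sg (hW : IsBM P F T W) (t : ℝ) :
    Apx P F t (fun s ω => c.S (t - s) (c.g W s ω)) := by
  refine Apx.limit (c.sm_Sg hW t) fun ε hε => ?_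
  have h1 := ENNReal.tendsto_sum_nat_add (fun m => ENNReal.ofReal (9 / pp * (18 / 25) ^ m))
    tsum_fin
  have h2 : Tendsto (fun M => 100 * ∑' m : ℕ, ENNReal.ofReal (9 / pp * (18 / 25) ^ (m + M)))
      atTop (𝓝 (100 * 0)) := ENNReal.Tendsto.const_mul h1 (Or.inr (by simp))
  rw [mul_zero] at h2
  obtain ⟨M, hM⟩ := ((tendsto_order.1 h2).2 ε (pos_iff_ne_zero.2 hε)).exists
  refine ⟨fun s ω => c.S (t - s) (∑ m ∈ Finset.range M, c.gm W m s ω), ?_, ?_⟩
  · simp_rw [map_sum]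
    exact Apx.sum _ fun m _ => c.apx_gm hW m t
  · refine le_trans ?_ hM.le
    refine le_trans ?_ (mul_le_mul_right (c.tail_bound hW t M) 100)
    rw [← lintegral_const_mul' _ _ (by simp)]
    refine lintegral_mono fun ω => ?_
    rw [← lintegral_const_mul' _ _ (by simp)]
    refine lintegral_mono fun s => ?_
    rw [← map_sub, ← ofReal_norm, ← ofReal_norm, ← ENNReal.ofReal_pow (norm_nonneg _),
      ← ENNReal.ofReal_pow (norm_nonneg _)]
    have h100 : (100 : ℝ≥0∞) = ENNReal.ofReal 100 := by simp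
    rw [h100, ← ENNReal.ofReal_mul (by norm_num)]
    refine ENNReal.ofReal_le_ofReal ?_
    have h3 := SS_norm_le c.r c.r0 c.rmono (t - s)
      ((∑ m ∈ Finset.range M, c.gm W m s ω) - c.g W s ω)
    calc _ ≤ (10 * ‖(∑ m ∈ Finset.range M, c.gm W m s ω) - c.g W s ω‖) ^ 2 :=
          pow_le_pow_left₀ (norm_nonneg _) h3 2
      _ = _ := by ring

theorem exists_conv (hW : IsBM P F T W) {t : ℝ} (ht : t ≤ T) :
    ∃ Y, IsItoIntegral P F W t (fun s ω => c.S (t - s) (c.g W s ω)) Y :=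
  (c.apx_Sg hW t).exists_ito ht hW

end Par

end Pool.Agent.H725R3.SConv
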