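import Pool.Agent.H725R3.SConv.L2

set_option autoImplicit false
set_option linter.unusedSectionVars false
set_option linter.style.haveILetI false
set_option linter.unusedSimpArgs false
open MeasureTheory ProbabilityTheory Filter Set
open scoped ENNReal NNReal Topology

namespace Pool.Agent.H725R3.SConv

variable {Ω : Type*} {mΩ : MeasurableSpace Ω} {P : Measure Ω} [IsProbabilityMeasure P]
  {F : Filtration ℝ mΩ} {T : ℝ} {W : ℝ → Ω → ℝ}

theorem Yq_eq (w : ℕ → ℕ) (r : ℕ → ℝ) (d : ℕ → ℝ) (k i : ℕ) :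
    Yq w r d k i = ∑ l ∈ Finset.range i, d k ^ (i - l) * (att w r k l * r l) := by
  induction i with
  | zero => simp [Yq]
  | succ i ih =>
    rw [Finset.sum_range_succ]
    show d k * (Yq w r d k i + att w r k i * r i) = _
    rw [ih, mul_add, Finset.mul_sum]
    congr 1
    · refine Finset.sum_congr rfl fun l hl => ?_
      have := Finset.mem_range.1 hl
      have e : i + 1 - l = (i - l) + 1 := by omega
      rw [e, pow_succ]
      ring
    · have e : i + 1 - i = 1 := by omega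
      rw [e, pow_one]

namespace Par
variable (c : Par T)

theorem psi_g (W : ℝ → Ω → ℝ) (m : ℕ) (t s : ℝ) (ω : Ω) :
    psiF m (c.S (t - s) (c.g W s ω)) = psiF m (c.S (t - s) (c.gm W m s ω)) := by
  by_cases h : ∃ m', s ∈ Ioc (c.τ m') (c.τ (m' + 1))
  · obtain ⟨m', hm'⟩ := h
    rw [c.g_of_mem W hm']
    by_cases hmm : m' = m
    · rw [hmm]
    · rw [c.gm_zero_out W (m := m) (fun h => hmm (c.block_unique hm' h)) ω, c.S_gm, map_zero,
        map_zero, map_sum]
      refine Finset.sum_eq_zero fun l _ => ?_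
      rw [map_sum]
      refine Finset.sum_eq_zero fun k _ => ?_
      by_cases hs : s ∈ Ioc (c.tt m' l) (c.tt m' l + c.δ m')
      · rw [indicator_of_mem hs, map_smul, map_smul, psiF_ev_ne (fun h => hmm h.symm)]
        simp
      · rw [indicator_of_notMem hs, map_zero]
  · push Not at h
    rw [c.g_of_notMem W h, c.gm_zero_out W (h m)]

/-- the comparison process -/
noncomputable def cmp (hW : IsBM P F T W) (m i : ℕ) (hi : i ≤ c.L m) :
    SimpleProc P F (c.tt m i) ℝ where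
  ι := Fin i
  fin := inferInstance
  a := fun l => c.tt m l
  b := fun l => c.tt m l + c.δ m
  ξ := fun l ω => c.cc m * ∑ k ∈ Finset.range (2 ^ m), c.at' W m k l ω *
    Real.exp (-(c.r m k * c.Δ m)) ^ (i - (l : ℕ))
  nonneg := fun l => c.tt_nonneg m l
  le := fun l => le_add_of_nonneg_right (c.δpos m).le
  le_t := fun l => (c.tt_δ m l).trans (c.tt_mono m l.2)
  meas := fun l => by
    have hl : (l : ℕ) ≤ c.L m := l.2.le.trans hi
    refine Measurable.stronglyMeasurable ?_
    refine Measurable.const_mul ?_ _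
    exact Finset.measurable_fun_sum _ fun k _ => (c.meas_at hW m k hl).mul_const _
  memLp := fun l => by
    have hl : (l : ℕ) ≤ c.L m := l.2.le.trans hi
    have hm : Measurable (fun ω => c.cc m * ∑ k ∈ Finset.range (2 ^ m), c.at' W m k l ω *
        Real.exp (-(c.r m k * c.Δ m)) ^ (i - (l : ℕ))) :=
      (Finset.measurable_fun_sum _ fun k _ =>
        ((c.meas_at hW m k hl).mono (F.le _) le_rfl).mul_const _).const_mul _
    refine MemLp.of_bound hm.aestronglyMeasurable
      (c.cc m * ∑ k ∈ Finset.range (2 ^ m), Real.exp (-(c.r m k * c.Δ m)) ^ (i - (l : ℕ)))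
      (Eventually.of_forall fun ω => ?_)
    have h1 := c.cc_nonneg m
    rw [Real.norm_eq_abs, abs_of_nonneg (mul_nonneg h1 (Finset.sum_nonneg fun k _ =>
      mul_nonneg (c.at_nonneg m k l ω) (by positivity)))]
    refine mul_le_mul_of_nonneg_left (Finset.sum_le_sum fun k _ => ?_) h1
    have h2 := c.at_le_one (W := W) m k l ω
    have h3 : 0 ≤ Real.exp (-(c.r m k * c.Δ m)) ^ (i - (l : ℕ)) := by positivity
    nlinarith

theorem cmp_integral (hW : IsBM P F T W) (m i : ℕ) (hi : i ≤ c.L m) (ω : Ω) :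
    (c.cmp hW m i hi).integral W ω = (3 / 5) ^ m * ∑ k ∈ Finset.range (2 ^ m),
      Yq (c.w m) (fun j => c.RR W m j ω) (fun k => Real.exp (-(c.r m k * c.Δ m))) k i := by
  have hδ := c.δpos m
  have hs : 0 < Real.sqrt (c.δ m) := Real.sqrt_pos.2 hδ
  simp_rw [Yq_eq]
  rw [Finset.sum_comm, Finset.mul_sum]
  show ∑ l : Fin i, (W (c.tt m l + c.δ m) ω - W (c.tt m l) ω) • (c.cc m *
    ∑ k ∈ Finset.range (2 ^ m), c.at' W m k l ω *
    Real.exp (-(c.r m k * c.Δ m)) ^ (i - (l : ℕ))) = _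
  rw [Fin.sum_univ_eq_sum_range (fun l => (W (c.tt m l + c.δ m) ω - W (c.tt m l) ω) • (c.cc m *
    ∑ k ∈ Finset.range (2 ^ m), c.at' W m k l ω *
    Real.exp (-(c.r m k * c.Δ m)) ^ (i - l)))]
  refine Finset.sum_congr rfl fun l _ => ?_
  have e1 : W (c.tt m l + c.δ m) ω - W (c.tt m l) ω = Real.sqrt (c.δ m) * c.RR W m l ω := by
    unfold RR
    field_simp
  rw [e1, smul_eq_mul, Finset.mul_sum, Finset.mul_sum, Finset.mul_sum]
  refine Finset.sum_congr rfl fun k _ => ?_
  unfold cc at'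
  field_simp

theorem err_bound (hW : IsBM P F T W) (m i : ℕ) (hi : i ≤ c.L m) (ω : Ω) (s : ℝ)
    (hs : s ≤ c.tt m i) :
    ‖psiF m (c.S (c.tt m i - s) (c.g W s ω)) - (c.cmp hW m i hi).eval s ω‖ₑ ^ 2 ≤
      ∑ l ∈ Finset.range i, (Ioc (c.tt m l) (c.tt m l + c.δ m)).indicator
        (fun _ => ENNReal.ofReal ((c.cc m / (64 * ((c.L m : ℝ) + 1))) ^ 2)) s := by
  rw [c.psi_g]
  have heval : (c.cmp hW m i hi).eval s ω = ∑ l ∈ Finset.range i,
      (Ioc (c.tt m l) (c.tt m l + c.δ m)).indicator (fun _ => c.cc m *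
        ∑ k ∈ Finset.range (2 ^ m), c.at' W m k l ω *
        Real.exp (-(c.r m k * c.Δ m)) ^ (i - l)) s := by
    show ∑ l : Fin i, (Ioc (c.tt m l) (c.tt m l + c.δ m)).indicator (fun _ => c.cc m *
        ∑ k ∈ Finset.range (2 ^ m), c.at' W m k l ω *
        Real.exp (-(c.r m k * c.Δ m)) ^ (i - (l : ℕ))) s = _
    rw [Fin.sum_univ_eq_sum_range (fun l => (Ioc (c.tt m l) (c.tt m l + c.δ m)).indicator
      (fun _ => c.cc m * ∑ k ∈ Finset.range (2 ^ m), c.at' W m k l ω *
        Real.exp (-(c.r m k * c.Δ m)) ^ (i - l)) s)]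
  by_cases h : ∃ l, l < i ∧ s ∈ Ioc (c.tt m l) (c.tt m l + c.δ m)
  · obtain ⟨l, hl, hsl⟩ := h
    refine le_trans ?_ (Finset.single_le_sum (f := fun l =>
      (Ioc (c.tt m l) (c.tt m l + c.δ m)).indicator
        (fun _ => ENNReal.ofReal ((c.cc m / (64 * ((c.L m : ℝ) + 1))) ^ 2)) s)
      (fun _ _ => zero_le) (Finset.mem_range.2 hl))
    rw [indicator_of_mem hsl, c.gm_of_mem W (hl.trans_le hi) hsl]
    have e1 : (c.cmp hW m i hi).eval s ω = c.cc m *
        ∑ k ∈ Finset.range (2 ^ m), c.at' W m k l ω *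
        Real.exp (-(c.r m k * c.Δ m)) ^ (i - l) := by
      rw [heval, Finset.sum_eq_single l]
      · rw [indicator_of_mem hsl]
      · intro l' _ hne
        rw [indicator_of_notMem]
        intro hs'
        rcases lt_or_gt_of_ne hne with h | h
        · have := c.tt_mono m (Nat.succ_le_of_lt h)
          have := c.tt_δ m l'
          have := hsl.1
          have := hs'.2
          simp only [Nat.succ_eq_add_one] at *
          linarith
        · have := c.tt_mono m (Nat.succ_le_of_lt h)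
          have := c.tt_δ m l
          have := hs'.1
          have := hsl.2
          simp only [Nat.succ_eq_add_one] at *
          linarith
      · intro h; exact absurd (Finset.mem_range.2 hl) h
    have e2 : psiF m (c.S (c.tt m i - s) (c.xi W m l ω)) = c.cc m *
        ∑ k ∈ Finset.range (2 ^ m), c.at' W m k l ω * hc (c.r m k) (c.tt m i) s := by
      unfold xi
      rw [map_sum, map_sum, Finset.mul_sum]
      refine Finset.sum_congr rfl fun k hk => ?_
      rw [map_smul, c.S_ev, map_smul, map_smul, psiF_ev (Finset.mem_range.1 hk)]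
      simp only [smul_eq_mul, mul_one]
      ring
    rw [e1, e2, ← mul_sub, ← Finset.sum_sub_distrib, ← ofReal_norm,
      ← ENNReal.ofReal_pow (norm_nonneg _)]
    refine ENNReal.ofReal_le_ofReal (pow_le_pow_left₀ (norm_nonneg _) ?_ 2)
    have hL0 : (0 : ℝ) < 64 * ((c.L m : ℝ) + 1) := by positivity
    rw [Real.norm_eq_abs, abs_mul, abs_of_nonneg (c.cc_nonneg m), div_eq_mul_inv]
    refine mul_le_mul_of_nonneg_left ?_ (c.cc_nonneg m)
    have e3 : ∀ k, Real.exp (-(c.r m k * c.Δ m)) ^ (i - l) = hc (c.r m k) (c.tt m i) (c.tt m l) := by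
      intro k
      unfold hc
      rw [← Real.exp_nat_mul]
      congr 1
      have e4 : c.tt m i - c.tt m l = ((i - l : ℕ) : ℝ) * c.Δ m := by
        rw [Nat.cast_sub hl.le]
        unfold tt
        ring
      rw [e4, max_eq_left (by have := (c.Δpos m).le; positivity)]
      ring
    have h5 : ∀ k ∈ Finset.range (2 ^ m), |c.at' W m k l ω * hc (c.r m k) (c.tt m i) s -
        c.at' W m k l ω * Real.exp (-(c.r m k * c.Δ m)) ^ (i - l)| ≤
        c.at' W m k l ω * (64 * ((c.L m : ℝ) + 1))⁻¹ := by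
      intro k hk
      rw [e3, ← mul_sub, abs_mul, abs_of_nonneg (c.at_nonneg m k l ω)]
      refine mul_le_mul_of_nonneg_left ?_ (c.at_nonneg m k l ω)
      refine (hc_lip (c.r0 m k) _ _ _).trans ?_
      have h6 : |s - c.tt m l| ≤ c.δ m := by
        rw [abs_of_nonneg (by linarith [hsl.1])]
        linarith [hsl.2]
      have h7 := mul_le_mul_of_nonneg_left h6 (c.r0 m k)
      refine h7.trans ?_
      rw [inv_eq_one_div, le_div_iff₀ hL0, mul_comm]
      exact c.small m k (Finset.mem_range.1 hk)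
    refine (Finset.abs_sum_le_sum_abs _ _).trans ((Finset.sum_le_sum h5).trans ?_)
    rw [← Finset.sum_mul]
    have h8 : ∑ k ∈ Finset.range (2 ^ m), c.at' W m k l ω ≤ 1 := by
      rcases c.at_cases W m l ω with h | ⟨k₀, h1, h2⟩
      · simp [h]
      · by_cases hk : k₀ < 2 ^ m
        · rw [Finset.sum_eq_single k₀ (fun k _ hk => h2 k hk)
            (fun h => absurd (Finset.mem_range.2 hk) h), h1]
        · rw [Finset.sum_eq_zero]
          · norm_num
          · intro k hk'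
            exact h2 k (by have := Finset.mem_range.1 hk'; omega)
    have h9 : 0 ≤ (64 * ((c.L m : ℝ) + 1))⁻¹ := by positivity
    nlinarith
  · push Not at h
    have e1 : (c.cmp hW m i hi).eval s ω = 0 := by
      rw [heval]
      exact Finset.sum_eq_zero fun l hl => indicator_of_notMem (h l (Finset.mem_range.1 hl)) _
    have e2 : c.gm W m s ω = 0 := by
      refine c.gm_of_notMem W (fun l _ => ?_) ω
      rcases lt_or_ge l i with hli | hli
      · exact h l hli
      · intro h'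
        have := c.tt_mono m hli
        linarith [h'.1]
    rw [e1, e2]
    simp

/-- `L²` comparison at a grid time -/
theorem dist_grid (hW : IsBM P F T W) (m i : ℕ) (hi : i ≤ c.L m) {Y : Ω → XX}
    (hY : IsItoIntegral P F W (c.tt m i) (fun s ω => c.S (c.tt m i - s) (c.g W s ω)) Y) :
    ∫⁻ ω, ‖psiF m (Y ω) - (3 / 5) ^ m * ∑ k ∈ Finset.range (2 ^ m),
      Yq (c.w m) (fun j => c.RR W m j ω) (fun k => Real.exp (-(c.r m k * c.Δ m))) k i‖ₑ ^ 2 ∂P ≤
      ENNReal.ofReal (((3 / 5 : ℝ) ^ m) ^ 2 / (1024 * ((c.L m : ℝ) + 1))) := by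
  have h1 := (hY.map (psiF m)).dist_le (c.tt_leT hi) hW
    ((psiF m).continuous.comp_stronglyMeasurable (c.sm_Sg hW _)) (c.cmp hW m i hi)
  simp_rw [c.cmp_integral hW m i hi] at h1
  refine h1.trans ?_
  have hδ := c.δpos m
  have h2 : ∀ ω, ∫⁻ s in Icc 0 (c.tt m i),
      ‖psiF m (c.S (c.tt m i - s) (c.g W s ω)) - (c.cmp hW m i hi).eval s ω‖ₑ ^ 2 ≤
      ENNReal.ofReal (((3 / 5 : ℝ) ^ m) ^ 2 / (4096 * ((c.L m : ℝ) + 1))) := by
    intro ω
    calc _ ≤ ∫⁻ s in Icc 0 (c.tt m i), ∑ l ∈ Finset.range i,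
          (Ioc (c.tt m l) (c.tt m l + c.δ m)).indicator
          (fun _ => ENNReal.ofReal ((c.cc m / (64 * ((c.L m : ℝ) + 1))) ^ 2)) s :=
          setLIntegral_mono' measurableSet_Icc fun s hs => c.err_bound hW m i hi ω s hs.2
      _ ≤ ∫⁻ s, ∑ l ∈ Finset.range i, (Ioc (c.tt m l) (c.tt m l + c.δ m)).indicator
          (fun _ => ENNReal.ofReal ((c.cc m / (64 * ((c.L m : ℝ) + 1))) ^ 2)) s :=
          setLIntegral_le_lintegral _ _
      _ = ∑ l ∈ Finset.range i, ENNReal.ofReal ((c.cc m / (64 * ((c.L m : ℝ) + 1))) ^ 2) *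
            ENNReal.ofReal (c.δ m) := by
          rw [lintegral_finsetSum]
          · refine Finset.sum_congr rfl fun l _ => ?_
            rw [lintegral_indicator measurableSet_Ioc, setLIntegral_const, Real.volume_Ioc]
            congr 2
            ring
          · intro l _
            exact measurable_const.indicator measurableSet_Ioc
      _ ≤ _ := by
          rw [Finset.sum_const, Finset.card_range, nsmul_eq_mul, ← ENNReal.ofReal_mul
            (by positivity), ← ENNReal.ofReal_natCast, ← ENNReal.ofReal_mul (by positivity)]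
          refine ENNReal.ofReal_le_ofReal ?_
          have e1 : (c.cc m / (64 * ((c.L m : ℝ) + 1))) ^ 2 * c.δ m =
              ((3 / 5 : ℝ) ^ m) ^ 2 / (4096 * ((c.L m : ℝ) + 1) ^ 2) := by
            rw [div_pow, div_mul_eq_mul_div, mul_comm (c.cc m ^ 2), c.δcc m]
            congr 1
            ring
          rw [e1]
          have hi' : (i : ℝ) ≤ (c.L m : ℝ) + 1 := by
            have : (i : ℝ) ≤ c.L m := by exact_mod_cast hi
            linarith
          have hL0 : (0 : ℝ) < (c.L m : ℝ) + 1 := by positivity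
          calc (i : ℝ) * (((3 / 5 : ℝ) ^ m) ^ 2 / (4096 * ((c.L m : ℝ) + 1) ^ 2)) ≤
              ((c.L m : ℝ) + 1) * (((3 / 5 : ℝ) ^ m) ^ 2 / (4096 * ((c.L m : ℝ) + 1) ^ 2)) := by
                gcongr
            _ = _ := by field_simp
  calc _ ≤ 4 * ∫⁻ _, ENNReal.ofReal (((3 / 5 : ℝ) ^ m) ^ 2 / (4096 * ((c.L m : ℝ) + 1))) ∂P :=
        mul_le_mul_right (lintegral_mono h2) 4
    _ = _ := by
        rw [lintegral_const, measure_univ, mul_one]
        have h4 : (4 : ℝ≥0∞) = ENNReal.ofReal 4 := by simp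
        rw [h4, ← ENNReal.ofReal_mul (by norm_num)]
        congr 1
        field_simp
        norm_num

/-- with probability at least `1/2` the process is large at a grid time of block `m` -/
theorem block_large (hW : IsBM P F T W) (m : ℕ) {u : ℝ → Ω → XX}
    (hu : ∀ t, 0 ≤ t → t ≤ T →
      IsItoIntegral P F W t (fun s ω => c.S (t - s) (c.g W s ω)) (u t)) :
    P {ω | ∀ i, i ≤ c.L m → ‖u (c.tt m i) ω‖ < (27 / 25) ^ m / 2} ≤ 1 / 2 := by
  set Z : ℕ → Ω → ℝ := fun i ω => ∑ k ∈ Finset.range (2 ^ m),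
      Yq (c.w m) (fun j => c.RR W m j ω) (fun k => Real.exp (-(c.r m k * c.Δ m))) k i with hZ
  set B0 : Set Ω := {ω | ∀ l, 0 < l → l ≤ c.L m → Z l ω < 3 / 4 * ((2 ^ m : ℕ) : ℝ)} with hB0
  set Bi : ℕ → Set Ω := fun i => {ω | ENNReal.ofReal (((3 / 5 : ℝ) ^ m * (2 ^ m / 4)) ^ 2) ≤
    ‖psiF m (u (c.tt m i) ω) - (3 / 5) ^ m * Z i ω‖ₑ ^ 2} with hBi
  have hN : (0 : ℝ) < 2 ^ m := by positivity
  have ha : (0 : ℝ) < (3 / 5) ^ m := by positivity
  have hsub : {ω | ∀ i, i ≤ c.L m → ‖u (c.tt m i) ω‖ < (27 / 25) ^ m / 2} ⊆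
      B0 ∪ ⋃ i ∈ Finset.range (c.L m + 1), Bi i := by
    intro ω hω
    by_contra hcon
    rw [mem_union, not_or] at hcon
    obtain ⟨h1, h2⟩ := hcon
    have h1' : ∃ l, 0 < l ∧ l ≤ c.L m ∧ 3 / 4 * ((2 ^ m : ℕ) : ℝ) ≤ Z l ω := by
      by_contra h
      push Not at h
      exact h1 h
    obtain ⟨l, _, hl, hZl⟩ := h1'
    push_cast at hZl
    have h3 : ω ∉ Bi l := fun h => h2 (by
      simp only [mem_iUnion]
      exact ⟨l, Finset.mem_range.2 (by omega), h⟩)
    have h4 : ‖psiF m (u (c.tt m l) ω) - (3 / 5) ^ m * Z l ω‖ₑ ^ 2 <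
        ENNReal.ofReal (((3 / 5 : ℝ) ^ m * (2 ^ m / 4)) ^ 2) := not_le.1 h3
    rw [← ofReal_norm, ← ENNReal.ofReal_pow (norm_nonneg _),
      ENNReal.ofReal_lt_ofReal_iff (by positivity)] at h4
    have h5 : |psiF m (u (c.tt m l) ω) - (3 / 5) ^ m * Z l ω| < (3 / 5 : ℝ) ^ m * (2 ^ m / 4) := by
      have := (pow_lt_pow_iff_left₀ (norm_nonneg _) (by positivity) (by norm_num)).1 h4
      rwa [Real.norm_eq_abs] at this
    have h6 := (abs_lt.1 h5).1
    have h7 := mul_le_mul_of_nonneg_left hZl ha.le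
    have h8 : (3 / 5 : ℝ) ^ m * (2 ^ m / 2) < psiF m (u (c.tt m l) ω) := by linarith
    have h9 := (le_abs_self _).trans (psiF_bound m (u (c.tt m l) ω))
    have h10 := hω l hl
    have h11 : (10 / 9 : ℝ) ^ m * ‖u (c.tt m l) ω‖ < (10 / 9 : ℝ) ^ m * ((27 / 25) ^ m / 2) :=
      mul_lt_mul_of_pos_left h10 (by positivity)
    have h12 : (10 / 9 : ℝ) ^ m * ((27 / 25) ^ m / 2) = (3 / 5 : ℝ) ^ m * (2 ^ m / 2) := by
      rw [← mul_div_assoc, ← mul_div_assoc, ← mul_pow, ← mul_pow]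
      norm_num
    linarith
  have hc0 := c.RR_coins hW m
  have hP0 : P B0 ≤ ENNReal.ofReal (3 / 8) := by
    have h := hc0.block (c.w m) (fun k => c.r m k * c.Δ m)
      (fun k => mul_nonneg (c.r0 m k) (c.Δpos m).le) (N := 2 ^ m) (by positivity) (c.h1 m)
      (c.h2 m) (c.Lpos m)
    rw [← ofReal_measureReal]
    exact ENNReal.ofReal_le_ofReal h
  have hPi : ∀ i ∈ Finset.range (c.L m + 1), P (Bi i) ≤
      ENNReal.ofReal (1 / (64 * ((c.L m : ℝ) + 1))) := by
    intro i hi
    have hi' : i ≤ c.L m := by have := Finset.mem_range.1 hi; omega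
    have hYi := hu (c.tt m i) (c.tt_nonneg m i) (c.tt_leT hi')
    have h1 := c.dist_grid hW m i hi' hYi
    have hmeas : AEMeasurable (fun ω => ‖psiF m (u (c.tt m i) ω) - (3 / 5) ^ m * Z i ω‖ₑ ^ 2) P := by
      have e1 : AEStronglyMeasurable (fun ω => psiF m (u (c.tt m i) ω)) P :=
        (psiF m).continuous.comp_aestronglyMeasurable hYi.1
      have e2 : AEStronglyMeasurable (fun ω => (3 / 5 : ℝ) ^ m * Z i ω) P := by
        have e3 := (c.cmp hW m i hi').aesm_integral (c.tt_leT hi') hW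
        have e4 : (c.cmp hW m i hi').integral W = fun ω => (3 / 5 : ℝ) ^ m * Z i ω := by
          funext ω
          exact c.cmp_integral hW m i hi' ω
        rw [e4] at e3
        exact e3
      exact (e1.sub e2).enorm.pow_const 2
    have hne : ENNReal.ofReal (((3 / 5 : ℝ) ^ m * (2 ^ m / 4)) ^ 2) ≠ 0 := by
      rw [Ne, ENNReal.ofReal_eq_zero, not_le]
      positivity
    have h2 := meas_ge_le_lintegral_div hmeas hne ENNReal.ofReal_ne_top
    refine h2.trans ((ENNReal.div_le_div_right h1 _).trans ?_)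
    rw [← ENNReal.ofReal_div_of_pos (by positivity)]
    refine ENNReal.ofReal_le_ofReal ?_
    have hL0 : (0 : ℝ) < (c.L m : ℝ) + 1 := by positivity
    have h2m : (1 : ℝ) ≤ 2 ^ m := one_le_pow₀ (by norm_num)
    rw [div_div, div_le_div_iff₀ (by positivity) (by positivity)]
    have h5 : (1 : ℝ) ≤ (2 ^ m) ^ 2 := one_le_pow₀ h2m
    have h6 : 0 < ((3 / 5 : ℝ) ^ m) ^ 2 * (64 * ((c.L m : ℝ) + 1)) := by positivity
    calc ((3 / 5 : ℝ) ^ m) ^ 2 * (64 * ((c.L m : ℝ) + 1))
        ≤ ((3 / 5 : ℝ) ^ m) ^ 2 * (64 * ((c.L m : ℝ) + 1)) * (2 ^ m) ^ 2 := by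
          nlinarith
      _ = 1 * (1024 * ((c.L m : ℝ) + 1) * ((3 / 5 : ℝ) ^ m * (2 ^ m / 4)) ^ 2) := by
          ring
  calc P _ ≤ P (B0 ∪ ⋃ i ∈ Finset.range (c.L m + 1), Bi i) := measure_mono hsub
    _ ≤ P B0 + P (⋃ i ∈ Finset.range (c.L m + 1), Bi i) := measure_union_le _ _
    _ ≤ ENNReal.ofReal (3 / 8) + ∑ i ∈ Finset.range (c.L m + 1),
        ENNReal.ofReal (1 / (64 * ((c.L m : ℝ) + 1))) :=
        add_le_add hP0 ((measure_biUnion_finset_le _ _).trans (Finset.sum_le_sum hPi))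
    _ = ENNReal.ofReal (3 / 8 + 1 / 64) := by
        rw [Finset.sum_const, Finset.card_range, nsmul_eq_mul, ← ENNReal.ofReal_natCast,
          ← ENNReal.ofReal_mul (by positivity), ← ENNReal.ofReal_add (by norm_num) (by positivity)]
        congr 2
        push_cast
        have hL0 : ((c.L m : ℝ) + 1) ≠ 0 := by positivity
        field_simp
    _ ≤ 1 / 2 := by
        have : (1 / 2 : ℝ≥0∞) = ENNReal.ofReal (1 / 2) := by
          rw [ENNReal.ofReal_div_of_pos (by norm_num)]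
          simp
        rw [this]
        exact ENNReal.ofReal_le_ofReal (by norm_num)

/-- there is no version with a.s. continuous paths -/
theorem no_continuous (hW : IsBM P F T W) {u : ℝ → Ω → XX}
    (hu : ∀ t, 0 ≤ t → t ≤ T →
      IsItoIntegral P F W t (fun s ω => c.S (t - s) (c.g W s ω)) (u t)) :
    ¬ ∀ᵐ ω ∂P, ContinuousOn (fun t => u t ω) (Icc 0 T) := by
  intro hcont
  set A : ℕ → Set Ω := fun K => {ω | ∀ m, K ≤ m → ∀ i, i ≤ c.L m →
    ‖u (c.tt m i) ω‖ < (27 / 25) ^ m / 2} with hA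
  have hmono : Monotone A := fun K K' hKK' ω hω m hm => hω m (hKK'.trans hm)
  have hle : ∀ K, P (A K) ≤ 1 / 2 := fun K => by
    have hsub : A K ⊆ {ω | ∀ i, i ≤ c.L K → ‖u (c.tt K i) ω‖ < (27 / 25) ^ K / 2} :=
      fun ω hω => hω K le_rfl
    exact (measure_mono hsub).trans (c.block_large hW K hu)
  have hfull : P (⋃ K, A K) = 1 := by
    refine le_antisymm prob_le_one ?_
    rw [← measure_univ (μ := P)]
    refine measure_mono_ae ?_
    filter_upwards [hcont] with ω hω _
    obtain ⟨C, hC⟩ := isCompact_Icc.exists_bound_of_continuousOn hω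
    obtain ⟨K, hK⟩ := pow_unbounded_of_one_lt (2 * C) (by norm_num : (1 : ℝ) < 27 / 25)
    refine mem_iUnion.2 ⟨K, fun m hm i hi => ?_⟩
    have h1 := hC (c.tt m i) ⟨c.tt_nonneg m i, c.tt_leT hi⟩
    have h2 : (27 / 25 : ℝ) ^ K ≤ (27 / 25) ^ m := pow_le_pow_right₀ (by norm_num) hm
    linarith
  rw [hmono.measure_iUnion] at hfull
  have h3 : (⨆ K, P (A K)) ≤ 1 / 2 := iSup_le hle
  rw [hfull] at h3
  have h4 : (1 / 2 : ℝ≥0∞) < 1 := by
    rw [one_div]
    exact ENNReal.one_half_lt_one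
  exact absurd h3 (not_le.2 h4)

end Par

end Pool.Agent.H725R3.SConv
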