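import Mathlib

set_option autoImplicit false
open Finset

namespace Pool.Agent.H725R3.SConv

open Classical in
/-- one step of the control: the state is (current mode, waiting counter) -/
noncomputable def nxt (w : ℕ → ℕ) (st : ℕ × ℕ) (x : ℝ) : ℕ × ℕ :=
  if st.2 = 0 then (if 1 ≤ x then (st.1 + 1, w (st.1 + 1)) else (st.1, w st.1))
  else (st.1, st.2 - 1)

/-- the state after `l` steps when the outcomes are `r 0, r 1, …` -/
noncomputable def stt (w : ℕ → ℕ) (r : ℕ → ℝ) : ℕ → ℕ × ℕ
  | 0 => (0, w 0)
  | l + 1 => nxt w (stt w r l) (r l)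

section
variable (w : ℕ → ℕ) (r : ℕ → ℝ)

theorem stt_wait {l : ℕ} (h : (stt w r l).2 ≠ 0) :
    stt w r (l + 1) = ((stt w r l).1, (stt w r l).2 - 1) := by
  show nxt w (stt w r l) (r l) = _
  unfold nxt
  rw [if_neg h]

theorem stt_succ {l : ℕ} (h : (stt w r l).2 = 0) (hr : 1 ≤ r l) :
    stt w r (l + 1) = ((stt w r l).1 + 1, w ((stt w r l).1 + 1)) := by
  show nxt w (stt w r l) (r l) = _
  unfold nxt
  rw [if_pos h, if_pos hr]

theorem stt_fail {l : ℕ} (h : (stt w r l).2 = 0) (hr : ¬ 1 ≤ r l) :
    stt w r (l + 1) = ((stt w r l).1, w (stt w r l).1) := by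
  show nxt w (stt w r l) (r l) = _
  unfold nxt
  rw [if_pos h, if_neg hr]

theorem stt_cases (l : ℕ) :
    ((stt w r l).2 ≠ 0 ∧ stt w r (l + 1) = ((stt w r l).1, (stt w r l).2 - 1)) ∨
    ((stt w r l).2 = 0 ∧ 1 ≤ r l ∧ stt w r (l + 1) = ((stt w r l).1 + 1, w ((stt w r l).1 + 1))) ∨
    ((stt w r l).2 = 0 ∧ ¬ 1 ≤ r l ∧ stt w r (l + 1) = ((stt w r l).1, w (stt w r l).1)) := by
  by_cases h : (stt w r l).2 = 0
  · by_cases hr : 1 ≤ r l
    · exact Or.inr (Or.inl ⟨h, hr, stt_succ w r h hr⟩)
    · exact Or.inr (Or.inr ⟨h, hr, stt_fail w r h hr⟩)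
  · exact Or.inl ⟨h, stt_wait w r h⟩

theorem stt_le (l : ℕ) : (stt w r l).2 ≤ w (stt w r l).1 := by
  induction l with
  | zero => exact le_rfl
  | succ l ih =>
    rcases stt_cases w r l with ⟨_, h⟩ | ⟨_, _, h⟩ | ⟨_, _, h⟩ <;> rw [h]
    · simp only
      omega

theorem stt_step (l : ℕ) : (stt w r l).1 ≤ (stt w r (l + 1)).1 ∧
    (stt w r (l + 1)).1 ≤ (stt w r l).1 + 1 := by
  rcases stt_cases w r l with ⟨_, h⟩ | ⟨_, _, h⟩ | ⟨_, _, h⟩ <;> rw [h] <;> simp

theorem stt_mono {l l' : ℕ} (h : l ≤ l') : (stt w r l).1 ≤ (stt w r l').1 := by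
  induction l', h using Nat.le_induction with
  | base => exact le_rfl
  | succ m _ ih => exact ih.trans (stt_step w r m).1

open Classical in
/-- indicator of an attempt on mode `k` at step `l` -/
noncomputable def att (k l : ℕ) : ℝ := if stt w r l = (k, 0) then 1 else 0

open Classical in
/-- indicator of a success on mode `k` at step `l` -/
noncomputable def suc (k l : ℕ) : ℝ := if stt w r l = (k, 0) ∧ 1 ≤ r l then 1 else 0

open Classical in
/-- indicator of mode `k` at step `l` -/
noncomputable def inm (k l : ℕ) : ℝ := if (stt w r l).1 = k then 1 else 0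

open Classical in
/-- indicator that mode `k` is completed at step `l` -/
noncomputable def com (k l : ℕ) : ℝ := if k < (stt w r l).1 then 1 else 0

theorem att_nonneg (k l : ℕ) : 0 ≤ att w r k l := by unfold att; split_ifs <;> norm_num
theorem inm_nonneg (k l : ℕ) : 0 ≤ inm w r k l := by unfold inm; split_ifs <;> norm_num

theorem att_zero_of_ne {k l : ℕ} (h : (stt w r l).1 ≠ k) : att w r k l = 0 := by
  unfold att
  rw [if_neg]
  intro h'
  exact h (by rw [h'])

/-- total attempts on mode `k` before step `l` -/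
noncomputable def Aq (k l : ℕ) : ℝ := ∑ j ∈ range l, att w r k j
/-- total successes -/
noncomputable def Sq (k l : ℕ) : ℝ := ∑ j ∈ range l, suc w r k j
/-- total time in mode `k` -/
noncomputable def Uq (k l : ℕ) : ℝ := ∑ j ∈ range l, inm w r k j
/-- total absolute size of the outcomes of attempts on mode `k` -/
noncomputable def Gq (k l : ℕ) : ℝ := ∑ j ∈ range l, att w r k j * |r j|
/-- time since completion of mode `k` -/
noncomputable def Cq (k l : ℕ) : ℝ := ∑ j ∈ range l, com w r k (j + 1)

theorem Gq_nonneg (k l : ℕ) : 0 ≤ Gq w r k l :=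
  Finset.sum_nonneg fun j _ => mul_nonneg (att_nonneg w r k j) (abs_nonneg _)

theorem Uq_nonneg (k l : ℕ) : 0 ≤ Uq w r k l :=
  Finset.sum_nonneg fun j _ => inm_nonneg w r k j

theorem Gq_mono (k : ℕ) {l l' : ℕ} (h : l ≤ l') : Gq w r k l ≤ Gq w r k l' :=
  Finset.sum_le_sum_of_subset_of_nonneg (Finset.range_mono h)
    fun j _ _ => mul_nonneg (att_nonneg w r k j) (abs_nonneg _)

theorem Uq_mono (k : ℕ) {l l' : ℕ} (h : l ≤ l') : Uq w r k l ≤ Uq w r k l' :=
  Finset.sum_le_sum_of_subset_of_nonneg (Finset.range_mono h)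
    fun j _ _ => inm_nonneg w r k j

/-- the number of successes is the indicator of completion -/
theorem Sq_eq (k l : ℕ) : Sq w r k l = com w r k l := by
  induction l with
  | zero => simp [Sq, com, stt]
  | succ l ih =>
    unfold Sq at ih ⊢
    rw [Finset.sum_range_succ, ih]
    unfold com suc
    rcases stt_cases w r l with ⟨h2, h⟩ | ⟨h2, h3, h⟩ | ⟨h2, h3, h⟩ <;> rw [h]
    · have : ¬ (stt w r l = (k, 0) ∧ 1 ≤ r l) := by
        rintro ⟨h4, -⟩
        exact h2 (by rw [h4])
      rw [if_neg this, add_zero]
    · simp only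
      by_cases hk : (stt w r l).1 = k
      · have h5 : stt w r l = (k, 0) := Prod.ext hk h2
        rw [if_neg (by omega : ¬ k < (stt w r l).1), if_pos ⟨h5, h3⟩,
          if_pos (by omega : k < (stt w r l).1 + 1)]
        norm_num
      · have h5 : ¬ (stt w r l = (k, 0) ∧ 1 ≤ r l) := by
          rintro ⟨h4, -⟩
          exact hk (by rw [h4])
        rw [if_neg h5, add_zero]
        by_cases hlt : k < (stt w r l).1
        · rw [if_pos hlt, if_pos (by omega)]
        · rw [if_neg hlt, if_neg (by omega)]
    · have : ¬ (stt w r l = (k, 0) ∧ 1 ≤ r l) := fun h4 => h3 h4.2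
      rw [if_neg this, add_zero]

theorem Sq_le_one (k l : ℕ) : Sq w r k l ≤ 1 := by
  rw [Sq_eq]; unfold com; split_ifs <;> norm_num

/-- bookkeeping of time spent in a mode -/
theorem Uq_eq (k l : ℕ) :
    ((stt w r l).1 < k → Uq w r k l = 0 ∧ Aq w r k l = 0) ∧
    ((stt w r l).1 = k → Uq w r k l + (stt w r l).2 = (w k + 1) * Aq w r k l + w k) ∧
    (k < (stt w r l).1 → Uq w r k l = (w k + 1) * Aq w r k l) := by
  induction l with
  | zero =>
    refine ⟨fun _ => ⟨by simp [Uq], by simp [Aq]⟩, fun h => ?_, fun h => ?_⟩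
    · have : 0 = k := h
      subst this
      simp [Uq, Aq, stt]
    · simp [stt] at h
  | succ l ih =>
    obtain ⟨ih1, ih2, ih3⟩ := ih
    have hU : Uq w r k (l + 1) = Uq w r k l + inm w r k l := Finset.sum_range_succ _ _
    have hA : Aq w r k (l + 1) = Aq w r k l + att w r k l := Finset.sum_range_succ _ _
    rw [hU, hA]
    rcases stt_cases w r l with ⟨h2, h⟩ | ⟨h2, h3, h⟩ | ⟨h2, h3, h⟩ <;> rw [h] <;> simp only
    · have hat : att w r k l = 0 := by
        unfold att
        rw [if_neg]
        intro h4
        exact h2 (by rw [h4])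
      rw [hat, add_zero]
      refine ⟨fun hk => ?_, fun hk => ?_, fun hk => ?_⟩
      · have : inm w r k l = 0 := by unfold inm; rw [if_neg (by omega)]
        rw [this, add_zero]
        exact ih1 hk
      · have : inm w r k l = 1 := by unfold inm; rw [if_pos hk]
        rw [this]
        have h5 := ih2 hk
        have h6 : (((stt w r l).2 - 1 : ℕ) : ℝ) = (stt w r l).2 - 1 := by
          rw [Nat.cast_sub (by omega)]; simp
        rw [h6]
        linarith
      · have : inm w r k l = 0 := by unfold inm; rw [if_neg (by omega)]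
        rw [this, add_zero]
        exact ih3 hk
    · refine ⟨fun hk => ?_, fun hk => ?_, fun hk => ?_⟩
      · have e1 : inm w r k l = 0 := by unfold inm; rw [if_neg (by omega)]
        have e2 : att w r k l = 0 := att_zero_of_ne w r (by omega)
        rw [e1, e2, add_zero, add_zero]
        exact ih1 (by omega)
      · have e1 : inm w r k l = 0 := by unfold inm; rw [if_neg (by omega)]
        have e2 : att w r k l = 0 := att_zero_of_ne w r (by omega)
        rw [e1, e2, add_zero, add_zero, (ih1 (by omega)).1, (ih1 (by omega)).2, hk]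
        ring
      · rcases Nat.lt_or_ge k (stt w r l).1 with hlt | hge
        · have e1 : inm w r k l = 0 := by unfold inm; rw [if_neg (by omega)]
          have e2 : att w r k l = 0 := att_zero_of_ne w r (by omega)
          rw [e1, e2, add_zero, add_zero]
          exact ih3 hlt
        · have hkk : (stt w r l).1 = k := by omega
          have e1 : inm w r k l = 1 := by unfold inm; rw [if_pos hkk]
          have e2 : att w r k l = 1 := by
            unfold att
            rw [if_pos (Prod.ext hkk h2)]
          rw [e1, e2]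
          have h5 := ih2 hkk
          rw [h2] at h5
          push_cast at h5
          linarith
    · refine ⟨fun hk => ?_, fun hk => ?_, fun hk => ?_⟩
      · have e1 : inm w r k l = 0 := by unfold inm; rw [if_neg (by omega)]
        have e2 : att w r k l = 0 := att_zero_of_ne w r (by omega)
        rw [e1, e2, add_zero, add_zero]
        exact ih1 (by omega)
      · have e1 : inm w r k l = 1 := by unfold inm; rw [if_pos hk]
        have e2 : att w r k l = 1 := by
          unfold att
          rw [if_pos (Prod.ext hk h2)]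
        rw [e1, e2, hk]
        have h5 := ih2 hk
        rw [h2] at h5
        push_cast at h5
        linarith
      · have e1 : inm w r k l = 0 := by unfold inm; rw [if_neg (by omega)]
        have e2 : att w r k l = 0 := att_zero_of_ne w r (by omega)
        rw [e1, e2, add_zero, add_zero]
        exact ih3 hk

theorem Uq_le (k l : ℕ) : Uq w r k l ≤ (w k + 1) * (Aq w r k l + 1) := by
  have hA : 0 ≤ Aq w r k l := Finset.sum_nonneg fun j _ => att_nonneg w r k j
  have hw : (0 : ℝ) ≤ w k := Nat.cast_nonneg _
  have h2 : (0 : ℝ) ≤ (stt w r l).2 := Nat.cast_nonneg _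
  have h3 : 0 ≤ (w k + 1) * Aq w r k l := by positivity
  obtain ⟨i1, i2, i3⟩ := Uq_eq w r k l
  rcases lt_trichotomy (stt w r l).1 k with h | h | h
  · rw [(i1 h).1]; positivity
  · have := i2 h
    nlinarith
  · rw [i3 h]
    nlinarith

/-- amplitude of mode `k`: decay factor `d` per step, kicks `r` at the attempts -/
noncomputable def Yq (d : ℕ → ℝ) (k : ℕ) : ℕ → ℝ
  | 0 => 0
  | l + 1 => d k * (Yq d k l + att w r k l * r l)

theorem Yq_inv (d : ℕ → ℝ) (k : ℕ) (hd0 : 0 ≤ d k) (hd1 : d k ≤ 1) (l : ℕ) :
    ((stt w r l).1 < k → Yq w r d k l = 0 ∧ Cq w r k l = 0) ∧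
    ((stt w r l).1 = k → |Yq w r d k l| ≤ d k ^ (w k - (stt w r l).2) * Gq w r k l ∧
      Cq w r k l = 0) ∧
    (k < (stt w r l).1 → ∃ c : ℕ, (c : ℝ) = Cq w r k l ∧
      d k ^ c - d k ^ (w k) * Gq w r k l ≤ Yq w r d k l) := by
  induction l with
  | zero =>
    refine ⟨fun _ => ⟨rfl, by simp [Cq]⟩, fun h => ⟨by simp [Yq, Gq], by simp [Cq]⟩, fun h => ?_⟩
    simp [stt] at h
  | succ l ih =>
    obtain ⟨ih1, ih2, ih3⟩ := ih
    have hY : Yq w r d k (l + 1) = d k * (Yq w r d k l + att w r k l * r l) := rfl
    have hG : Gq w r k (l + 1) = Gq w r k l + att w r k l * |r l| := Finset.sum_range_succ _ _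
    have hC : Cq w r k (l + 1) = Cq w r k l + com w r k (l + 1) := Finset.sum_range_succ _ _
    have hGn := Gq_nonneg w r k l
    rw [hY, hG, hC]
    rcases stt_cases w r l with ⟨h2, h⟩ | ⟨h2, h3, h⟩ | ⟨h2, h3, h⟩
    · have hat : att w r k l = 0 := by
        unfold att
        rw [if_neg]
        intro h4
        exact h2 (by rw [h4])
      have hle := stt_le w r l
      rw [hat, zero_mul, zero_mul, add_zero, add_zero]
      unfold com
      rw [h]
      simp only
      refine ⟨fun hk => ?_, fun hk => ?_, fun hk => ?_⟩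
      · rw [(ih1 hk).1, (ih1 hk).2, if_neg (by omega)]
        simp
      · obtain ⟨i1, i2⟩ := ih2 hk
        rw [if_neg (by omega), i2]
        refine ⟨?_, by simp⟩
        rw [abs_mul, abs_of_nonneg hd0]
        have e : w k - ((stt w r l).2 - 1) = (w k - (stt w r l).2) + 1 := by
          rw [hk] at hle
          omega
        rw [e, pow_succ]
        calc d k * |Yq w r d k l| ≤ d k * (d k ^ (w k - (stt w r l).2) * Gq w r k l) :=
              mul_le_mul_of_nonneg_left i1 hd0
          _ = _ := by ring
      · obtain ⟨c, hc, i1⟩ := ih3 hk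
        rw [if_pos hk]
        refine ⟨c + 1, by push_cast; rw [hc], ?_⟩
        have e1 := mul_le_mul_of_nonneg_left i1 hd0
        have e2 : d k * (d k ^ w k * Gq w r k l) ≤ d k ^ w k * Gq w r k l := by
          have : 0 ≤ d k ^ w k * Gq w r k l := by positivity
          nlinarith
        rw [pow_succ]
        nlinarith
    · refine ⟨fun hk => ?_, fun hk => ?_, fun hk => ?_⟩ <;> rw [h] at hk <;> simp only at hk
      · have e2 : att w r k l = 0 := att_zero_of_ne w r (by omega)
        unfold com
        rw [h, e2]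
        simp only
        rw [(ih1 (by omega)).1, (ih1 (by omega)).2, if_neg (by omega)]
        simp
      · have e2 : att w r k l = 0 := att_zero_of_ne w r (by omega)
        unfold com
        rw [h, e2]
        simp only
        rw [(ih1 (by omega)).1, (ih1 (by omega)).2, if_neg (by omega)]
        simp only [zero_mul, add_zero, mul_zero, abs_zero, and_true]
        positivity
      · unfold com
        rw [h]
        simp only
        rw [if_pos (by omega)]
        rcases Nat.lt_or_ge k (stt w r l).1 with hlt | hge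
        · have e2 : att w r k l = 0 := att_zero_of_ne w r (by omega)
          rw [e2, zero_mul, zero_mul, add_zero, add_zero]
          obtain ⟨c, hc, i1⟩ := ih3 hlt
          refine ⟨c + 1, by push_cast; rw [hc], ?_⟩
          have e1 := mul_le_mul_of_nonneg_left i1 hd0
          have e2 : d k * (d k ^ w k * Gq w r k l) ≤ d k ^ w k * Gq w r k l := by
            have : 0 ≤ d k ^ w k * Gq w r k l := by positivity
            nlinarith
          rw [pow_succ]
          nlinarith
        · have hkk : (stt w r l).1 = k := by omega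
          have e2 : att w r k l = 1 := by
            unfold att
            rw [if_pos (Prod.ext hkk h2)]
          obtain ⟨i1, i2⟩ := ih2 hkk
          rw [e2, one_mul, one_mul, i2]
          refine ⟨1, by norm_num, ?_⟩
          rw [h2, Nat.sub_zero] at i1
          have i3 := (abs_le.1 i1).1
          have i4 : 0 ≤ d k ^ w k * Gq w r k l := by positivity
          have i5 : 0 ≤ d k ^ w k * |r l| := by positivity
          rw [pow_one]
          have i6 : d k * (1 - d k ^ w k * Gq w r k l) ≤ d k * (Yq w r d k l + r l) :=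
            mul_le_mul_of_nonneg_left (by linarith) hd0
          nlinarith
    · refine ⟨fun hk => ?_, fun hk => ?_, fun hk => ?_⟩ <;> rw [h] at hk <;> simp only at hk
      · have e2 : att w r k l = 0 := att_zero_of_ne w r (by omega)
        unfold com
        rw [h, e2]
        simp only
        rw [(ih1 (by omega)).1, (ih1 (by omega)).2, if_neg (by omega)]
        simp
      · have e2 : att w r k l = 1 := by
          unfold att
          rw [if_pos (Prod.ext hk h2)]
        obtain ⟨i1, i2⟩ := ih2 hk
        unfold com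
        rw [h, e2, i2]
        simp only
        rw [if_neg (by omega), hk]
        simp only [Nat.sub_self, pow_zero, one_mul, add_zero, and_true]
        rw [abs_mul, abs_of_nonneg hd0]
        have i3 : |Yq w r d k l + r l| ≤ Gq w r k l + |r l| := by
          refine (abs_add_le _ _).trans (add_le_add (i1.trans ?_) le_rfl)
          have : d k ^ (w k - (stt w r l).2) ≤ 1 := pow_le_one₀ hd0 hd1
          nlinarith
        have i4 := abs_nonneg (Yq w r d k l + r l)
        nlinarith
      · have e2 : att w r k l = 0 := att_zero_of_ne w r (by omega)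
        unfold com
        rw [h, e2]
        simp only
        rw [if_pos (by omega), zero_mul, zero_mul, add_zero, add_zero]
        obtain ⟨c, hc, i1⟩ := ih3 hk
        refine ⟨c + 1, by push_cast; rw [hc], ?_⟩
        have e1 := mul_le_mul_of_nonneg_left i1 hd0
        have e2 : d k * (d k ^ w k * Gq w r k l) ≤ d k ^ w k * Gq w r k l := by
          have : 0 ≤ d k ^ w k * Gq w r k l := by positivity
          nlinarith
        rw [pow_succ]
        nlinarith

/-- the total loss -/
noncomputable def Loss (ε : ℕ → ℝ) (N L : ℕ) : ℝ :=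
  ∑ k ∈ range N, (ε k * (1 + ∑ i ∈ Finset.Ioo k N, Uq w r i L) +
    Real.exp (-(ε k)) ^ (w k) * Gq w r k L)

/-- if `N` modes are completed by step `L`, then at some step the total amplitude is at least
`N` minus the loss -/
theorem exists_good (ε : ℕ → ℝ) (hε : ∀ k, 0 ≤ ε k) {N L : ℕ} (hN : 0 < N)
    (hdone : N ≤ (stt w r L).1) :
    ∃ l, 0 < l ∧ l ≤ L ∧
      N - Loss w r ε N L ≤ ∑ k ∈ range N, Yq w r (fun k => Real.exp (-(ε k))) k l := by
  classical
  have hex : ∃ l, N ≤ (stt w r l).1 := ⟨L, hdone⟩
  set l := Nat.find hex with hl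
  have hl1 : N ≤ (stt w r l).1 := Nat.find_spec hex
  have hlL : l ≤ L := Nat.find_min' hex hdone
  have hl0 : 0 < l := by
    rcases Nat.eq_zero_or_pos l with h | h
    · rw [h] at hl1
      simp [stt] at hl1
      omega
    · exact h
  refine ⟨l, hl0, hlL, ?_⟩
  have hbefore : ∀ j, j < l → (stt w r j).1 < N := fun j hj => not_le.1 (Nat.find_min hex hj)
  unfold Loss
  have hN' : (N : ℝ) = ∑ k ∈ range N, (1 : ℝ) := by simp
  rw [hN', ← Finset.sum_sub_distrib]
  refine Finset.sum_le_sum fun k hk => ?_
  have hkN := Finset.mem_range.1 hk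
  obtain ⟨c, hc, hc'⟩ := (Yq_inv w r (fun k => Real.exp (-(ε k))) k (Real.exp_pos _).le
    (by rw [Real.exp_le_one_iff]; linarith [hε k]) l).2.2 (by omega)
  -- bound on the time since completion
  have hC : Cq w r k l ≤ 1 + ∑ i ∈ Finset.Ioo k N, Uq w r i L := by
    have h1 : ∀ l', l' < l → Cq w r k l' ≤ ∑ i ∈ Finset.Ioo k N, Uq w r i (l' + 1) := by
      intro l'
      induction l' with
      | zero =>
        intro _
        simp only [Cq, Finset.range_zero, Finset.sum_empty]
        exact Finset.sum_nonneg fun i _ => Uq_nonneg w r i _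
      | succ m ih =>
        intro hm
        have h2 := ih (by omega)
        have h3 : Cq w r k (m + 1) = Cq w r k m + com w r k (m + 1) := Finset.sum_range_succ _ _
        have h4 : ∀ i, Uq w r i (m + 1 + 1) = Uq w r i (m + 1) + inm w r i (m + 1) := fun i =>
          Finset.sum_range_succ _ _
        simp_rw [h4]
        rw [h3, Finset.sum_add_distrib]
        refine add_le_add h2 ?_
        unfold com
        split_ifs with h5
        · have h6 : (stt w r (m + 1)).1 ∈ Finset.Ioo k N :=
            Finset.mem_Ioo.2 ⟨h5, hbefore _ hm⟩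
          have h7 : inm w r (stt w r (m + 1)).1 (m + 1) = 1 := by unfold inm; rw [if_pos rfl]
          rw [← h7]
          exact Finset.single_le_sum (f := fun i => inm w r i (m + 1))
            (fun i _ => inm_nonneg w r i (m + 1)) h6
        · exact Finset.sum_nonneg fun i _ => inm_nonneg w r i _
    obtain ⟨m, hm⟩ : ∃ m, l = m + 1 := ⟨l - 1, by omega⟩
    have h2 := h1 m (by omega)
    rw [hm]
    have h3 : Cq w r k (m + 1) = Cq w r k m + com w r k (m + 1) := Finset.sum_range_succ _ _
    have h4 : com w r k (m + 1) ≤ 1 := by unfold com; split_ifs <;> norm_num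
    have h5 : ∑ i ∈ Finset.Ioo k N, Uq w r i (m + 1) ≤ ∑ i ∈ Finset.Ioo k N, Uq w r i L :=
      Finset.sum_le_sum fun i _ => Uq_mono w r i (by omega)
    linarith
  have hexp : 1 - ε k * c ≤ Real.exp (-(ε k)) ^ c := by
    rw [← Real.exp_nat_mul]
    have := Real.add_one_le_exp ((c : ℝ) * -(ε k))
    linarith
  have hεc : ε k * c ≤ ε k * (1 + ∑ i ∈ Finset.Ioo k N, Uq w r i L) := by
    rw [hc]
    exact mul_le_mul_of_nonneg_left hC (hε k)
  have hGm : Real.exp (-(ε k)) ^ (w k) * Gq w r k l ≤ Real.exp (-(ε k)) ^ (w k) * Gq w r k L :=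
    mul_le_mul_of_nonneg_left (Gq_mono w r k hlL) (by positivity)
  linarith

end

end Pool.Agent.H725R3.SConv
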