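import Pool.Agent.H725R3.SConv.Prob

set_option autoImplicit false
set_option linter.unusedSectionVars false
open MeasureTheory ProbabilityTheory Filter Finset
open scoped ENNReal NNReal Topology

namespace Pool.Agent.H725R3.SConv

/-- the parameters of the construction -/
structure Par (T : ℝ) where
  w : ℕ → ℕ → ℕ
  r : ℕ → ℕ → ℝ
  L : ℕ → ℕ
  Δ : ℕ → ℝ
  τ : ℕ → ℝ
  δ : ℕ → ℝ
  Lpos : ∀ m, 0 < L m
  Δpos : ∀ m, 0 < Δ m
  τ0 : ∀ m, 0 ≤ τ m
  τend : ∀ m, τ m + L m * Δ m = τ (m + 1)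
  τT : ∀ m, τ m ≤ T
  δpos : ∀ m, 0 < δ m
  δle : ∀ m, δ m ≤ Δ m
  r0 : ∀ m k, 0 ≤ r m k
  rmono : ∀ m i j, i ≤ j → r m i ≤ r m j
  h1 : ∀ m, ∑ k ∈ range (2 ^ m), (r m k * Δ m *
      (1 + ∑ i ∈ Finset.Ioo k (2 ^ m), ((w m i : ℝ) + 1) * (1 / pp + 1)) +
      Real.exp (-(r m k * Δ m)) ^ (w m k) * (1 / pp)) ≤ ((2 ^ m : ℕ) : ℝ) / 16
  h2 : ∀ m, ∑ i ∈ range (2 ^ m), ((w m i : ℝ) + 1) * (1 / pp + 1) ≤ L m / 8
  small : ∀ m k, k < 2 ^ m → 64 * ((L m : ℝ) + 1) * (r m k * δ m) ≤ 1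

theorem geo_bound {B : ℕ} (hB : 2 ≤ B) (N : ℕ) : ∀ d k : ℕ, k + d + 1 = N →
    ∑ i ∈ Finset.Ico (k + 1) N, (B : ℝ) ^ (N - i) ≤ 2 * (B : ℝ) ^ d := by
  have hB' : (2 : ℝ) ≤ B := by exact_mod_cast hB
  intro d
  induction d with
  | zero =>
    intro k hk
    rw [← hk]
    simp
  | succ d ih =>
    intro k hk
    have h := ih (k + 1) (by omega)
    rw [Finset.sum_eq_sum_Ico_succ_bot (by omega)]
    have e : N - (k + 1) = d + 1 := by omega
    rw [e]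
    have h3 : (0 : ℝ) ≤ (B : ℝ) ^ d := by positivity
    rw [pow_succ]
    nlinarith

theorem exists_par {T : ℝ} (hT : 0 < T) : Nonempty (Par T) := by
  have hp := pp_pos
  -- the constant Λ
  obtain ⟨Λ, hΛ0, hΛ⟩ : ∃ Λ : ℝ, 0 ≤ Λ ∧ Real.exp (-Λ) * (1 / pp) ≤ 1 / 32 := by
    refine ⟨32 / pp, by positivity, ?_⟩
    rw [Real.exp_neg]
    have h1 : 32 / pp ≤ Real.exp (32 / pp) := by
      have := Real.add_one_le_exp (32 / pp)
      linarith
    have h2 : (Real.exp (32 / pp))⁻¹ ≤ (32 / pp)⁻¹ := inv_anti₀ (by positivity) h1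
    calc (Real.exp (32 / pp))⁻¹ * (1 / pp) ≤ (32 / pp)⁻¹ * (1 / pp) := by gcongr
      _ = 1 / 32 := by field_simp
  set C : ℝ := 1 / pp + 1 with hC
  have hC0 : 0 < C := by positivity
  obtain ⟨B, hB2, hB⟩ : ∃ B : ℕ, 2 ≤ B ∧ Λ * (1 + 4 * C) ≤ B / 32 := by
    obtain ⟨n, hn⟩ := exists_nat_ge (Λ * (1 + 4 * C) * 32)
    refine ⟨n + 2, by omega, ?_⟩
    push_cast
    linarith
  have hB2' : (2 : ℝ) ≤ B := by exact_mod_cast hB2
  have hBpos : (0 : ℝ) < B := by linarith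
  have hL : ∀ m : ℕ, ∃ L : ℕ, 0 < L ∧
      ∑ i ∈ range (2 ^ m), (((B ^ (2 ^ m - i) : ℕ) : ℝ) + 1) * C ≤ L / 8 := by
    intro m
    obtain ⟨n, hn⟩ := exists_nat_ge
      (8 * ∑ i ∈ range (2 ^ m), (((B ^ (2 ^ m - i) : ℕ) : ℝ) + 1) * C)
    refine ⟨n + 1, by omega, ?_⟩
    push_cast at hn ⊢
    linarith
  choose L hLpos hL2 using hL
  have hLr : ∀ m, (0 : ℝ) < L m := fun m => by exact_mod_cast hLpos m
  set Δ : ℕ → ℝ := fun m => T / (2 ^ (m + 1) * L m) with hΔ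
  have hΔpos : ∀ m, 0 < Δ m := fun m => by
    have := hLr m
    simp only [hΔ]
    positivity
  have hw : ∀ m k, (0 : ℝ) < ((B ^ (2 ^ m - k) : ℕ) : ℝ) := fun m k => by
    push_cast
    positivity
  refine ⟨{
    w := fun m k => B ^ (2 ^ m - k)
    r := fun m k => Λ / (((B ^ (2 ^ m - k) : ℕ) : ℝ) * Δ m)
    L := L
    Δ := Δ
    τ := fun m => T * (1 - 1 / 2 ^ m)
    δ := fun m => Δ m / (64 * (Λ + 1) * ((L m : ℝ) + 1))
    Lpos := hLpos
    Δpos := hΔpos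
    τ0 := ?_
    τend := ?_
    τT := ?_
    δpos := ?_
    δle := ?_
    r0 := ?_
    rmono := ?_
    h1 := ?_
    h2 := hL2
    small := ?_ }⟩
  · intro m
    have : (1 : ℝ) / 2 ^ m ≤ 1 := by
      rw [div_le_one (by positivity)]
      exact one_le_pow₀ (by norm_num)
    exact mul_nonneg hT.le (by linarith)
  · intro m
    simp only [hΔ]
    have := hLr m
    field_simp
    ring
  · intro m
    have : (0 : ℝ) < 1 / 2 ^ m := by positivity
    nlinarith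
  · intro m
    have := hΔpos m
    have := hLr m
    positivity
  · intro m
    have h1 := hΔpos m
    have h2 := hLr m
    refine div_le_self h1.le ?_
    have h3 : 1 ≤ (L m : ℝ) + 1 := by linarith
    have h4 : 1 ≤ 64 * (Λ + 1) := by linarith
    nlinarith
  · intro m k
    have h1 := hΔpos m
    have h2 := hw m k
    positivity
  · intro m i j hij
    have h1 := hΔpos m
    have h2 := hw m i
    have h3 := hw m j
    refine div_le_div_of_nonneg_left hΛ0 (by positivity) ?_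
    refine mul_le_mul_of_nonneg_right ?_ h1.le
    exact_mod_cast Nat.pow_le_pow_right (by omega) (by omega)
  · intro m
    have key : ∀ k ∈ range (2 ^ m), (Λ / (((B ^ (2 ^ m - k) : ℕ) : ℝ) * Δ m) * Δ m *
        (1 + ∑ i ∈ Finset.Ioo k (2 ^ m), (((B ^ (2 ^ m - i) : ℕ) : ℝ) + 1) * (1 / pp + 1)) +
        Real.exp (-(Λ / (((B ^ (2 ^ m - k) : ℕ) : ℝ) * Δ m) * Δ m)) ^ (B ^ (2 ^ m - k)) *
          (1 / pp)) ≤ 1 / 16 := by
      intro k hk
      have hk' := Finset.mem_range.1 hk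
      have h1 := hΔpos m
      have h2 := hw m k
      have e1 : Λ / (((B ^ (2 ^ m - k) : ℕ) : ℝ) * Δ m) * Δ m =
          Λ / ((B ^ (2 ^ m - k) : ℕ) : ℝ) := by
        field_simp
      rw [e1]
      have e2 : Real.exp (-(Λ / ((B ^ (2 ^ m - k) : ℕ) : ℝ))) ^ (B ^ (2 ^ m - k)) =
          Real.exp (-Λ) := by
        rw [← Real.exp_nat_mul]
        congr 1
        field_simp
      rw [e2]
      obtain ⟨d, hd⟩ : ∃ d, 2 ^ m = k + d + 1 := ⟨2 ^ m - k - 1, by omega⟩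
      have e3 : 2 ^ m - k = d + 1 := by omega
      have h3 := geo_bound hB2 (2 ^ m) d k hd.symm
      have e4 : Finset.Ioo k (2 ^ m) = Finset.Ico (k + 1) (2 ^ m) := by
        ext i
        simp only [Finset.mem_Ioo, Finset.mem_Ico]
        omega
      rw [e4]
      have h4 : ∑ i ∈ Finset.Ico (k + 1) (2 ^ m), (((B ^ (2 ^ m - i) : ℕ) : ℝ) + 1) * (1 / pp + 1)
          ≤ 4 * C * (B : ℝ) ^ d := by
        calc ∑ i ∈ Finset.Ico (k + 1) (2 ^ m), (((B ^ (2 ^ m - i) : ℕ) : ℝ) + 1) * (1 / pp + 1)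
            ≤ ∑ i ∈ Finset.Ico (k + 1) (2 ^ m), (2 * C) * (B : ℝ) ^ (2 ^ m - i) := by
              refine Finset.sum_le_sum fun i _ => ?_
              push_cast
              have h5 : (1 : ℝ) ≤ (B : ℝ) ^ (2 ^ m - i) := one_le_pow₀ (by linarith)
              rw [← hC]
              nlinarith
          _ = (2 * C) * ∑ i ∈ Finset.Ico (k + 1) (2 ^ m), (B : ℝ) ^ (2 ^ m - i) := by
              rw [Finset.mul_sum]
          _ ≤ (2 * C) * (2 * (B : ℝ) ^ d) := by gcongr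
          _ = _ := by ring
      have e5 : ((B ^ (2 ^ m - k) : ℕ) : ℝ) = (B : ℝ) ^ (d + 1) := by rw [e3]; push_cast; rfl
      rw [e5]
      have hBd : (1 : ℝ) ≤ (B : ℝ) ^ d := one_le_pow₀ (by linarith)
      have h6 : Λ / (B : ℝ) ^ (d + 1) *
          (1 + ∑ i ∈ Finset.Ico (k + 1) (2 ^ m), (((B ^ (2 ^ m - i) : ℕ) : ℝ) + 1) * (1 / pp + 1))
          ≤ 1 / 32 := by
        calc Λ / (B : ℝ) ^ (d + 1) *
            (1 + ∑ i ∈ Finset.Ico (k + 1) (2 ^ m), (((B ^ (2 ^ m - i) : ℕ) : ℝ) + 1) * (1 / pp + 1))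
            ≤ Λ / (B : ℝ) ^ (d + 1) * ((B : ℝ) ^ d + 4 * C * (B : ℝ) ^ d) := by
              gcongr
          _ = Λ * (1 + 4 * C) / B := by
              rw [pow_succ]
              field_simp
          _ ≤ 1 / 32 := by
              rw [div_le_iff₀ hBpos]
              linarith
      linarith
    refine (Finset.sum_le_sum key).trans ?_
    simp
    linarith
  · intro m k hk
    have h1 := hΔpos m
    have h2 := hw m k
    have h3 := hLr m
    have h4 : (1 : ℝ) ≤ ((B ^ (2 ^ m - k) : ℕ) : ℝ) := by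
      exact_mod_cast Nat.one_le_iff_ne_zero.2 (pow_ne_zero _ (by omega))
    have e : 64 * ((L m : ℝ) + 1) * (Λ / (((B ^ (2 ^ m - k) : ℕ) : ℝ) * Δ m) *
        (Δ m / (64 * (Λ + 1) * ((L m : ℝ) + 1)))) =
        (Λ / (Λ + 1)) * (1 / ((B ^ (2 ^ m - k) : ℕ) : ℝ)) := by
      have : Λ + 1 ≠ 0 := by positivity
      field_simp
    rw [e]
    have h5 : Λ / (Λ + 1) ≤ 1 := by rw [div_le_one (by positivity)]; linarith
    have h6 : 1 / ((B ^ (2 ^ m - k) : ℕ) : ℝ) ≤ 1 := by rw [div_le_one h2]; exact h4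
    have h7 : 0 ≤ Λ / (Λ + 1) := by positivity
    have h8 : 0 ≤ 1 / ((B ^ (2 ^ m - k) : ℕ) : ℝ) := by positivity
    nlinarith

end Pool.Agent.H725R3.SConv
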