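import Pool.Agent.H725R3.SConv.Machine

set_option autoImplicit false
set_option linter.unusedSectionVars false
open MeasureTheory ProbabilityTheory Filter Finset
open scoped ENNReal NNReal Topology

namespace Pool.Agent.H725R3.SConv

variable {Ω : Type*} {mΩ : MeasurableSpace Ω} {P : Measure Ω} [IsProbabilityMeasure P]

/-- a finite sequence of independent standard normal outcomes along a filtration -/
structure Coins {Ω : Type*} {mΩ : MeasurableSpace Ω} (P : Measure Ω) (G : ℕ → MeasurableSpace Ω)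
    (R : ℕ → Ω → ℝ) (L : ℕ) : Prop where
  le : ∀ l, l ≤ L → G l ≤ mΩ
  mono : ∀ l, l < L → G l ≤ G (l + 1)
  meas : ∀ l, l < L → Measurable[G (l + 1)] (R l)
  law : ∀ l, l < L → P.map (R l) = gaussianReal 0 1
  indep : ∀ l, l < L → Indep (MeasurableSpace.comap (R l) inferInstance) (G l) P

theorem measurable_nxt (w : ℕ → ℕ) : Measurable (fun p : (ℕ × ℕ) × ℝ => nxt w p.1 p.2) := by
  refine measurable_from_prod_countable_right fun st => ?_
  unfold nxt
  by_cases h : st.2 = 0
  · simp only [h, if_true]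
    exact Measurable.ite measurableSet_Ici measurable_const measurable_const
  · simp only [h, if_false]
    exact measurable_const

variable {G : ℕ → MeasurableSpace Ω} {R : ℕ → Ω → ℝ} {L : ℕ}

theorem Coins.meas_stt (hc : Coins P G R L) (w : ℕ → ℕ) {l : ℕ} (hl : l ≤ L) :
    Measurable[G l] (fun ω => stt w (fun j => R j ω) l) := by
  induction l with
  | zero => exact measurable_const
  | succ l ih =>
    have h1 := (ih (by omega)).mono (hc.mono l (by omega)) le_rfl
    exact (measurable_nxt w).comp (h1.prodMk (hc.meas l (by omega)))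

theorem Coins.meas_att (hc : Coins P G R L) (w : ℕ → ℕ) (k : ℕ) {l : ℕ} (hl : l ≤ L) :
    Measurable[G l] (fun ω => att w (fun j => R j ω) k l) := by
  classical
  have h : Measurable (fun st : ℕ × ℕ => if st = (k, 0) then (1 : ℝ) else 0) :=
    Measurable.of_discrete
  have h2 := h.comp (hc.meas_stt w hl)
  have h3 : (fun ω => att w (fun j => R j ω) k l) =
      (fun st : ℕ × ℕ => if st = (k, 0) then (1 : ℝ) else 0) ∘
        (fun ω => stt w (fun j => R j ω) l) := by
    funext ω
    simp only [Function.comp_apply, att]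
  rw [h3]
  exact h2

theorem att_le_one (w : ℕ → ℕ) (r : ℕ → ℝ) (k l : ℕ) : att w r k l ≤ 1 := by
  unfold att; split_ifs <;> norm_num

/-- the success probability -/
noncomputable def pp : ℝ := (gaussianReal 0 1).real (Set.Ici 1)

theorem pp_pos : 0 < pp := by
  unfold pp
  rw [measureReal_def]
  refine ENNReal.toReal_pos ?_ (measure_ne_top _ _)
  intro h
  have := gaussianReal_absolutelyContinuous' 0 (one_ne_zero : (1 : ℝ≥0) ≠ 0) h
  simp at this

theorem pp_le_one : pp ≤ 1 := measureReal_le_one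

theorem Coins.integrable_att (hc : Coins P G R L) (w : ℕ → ℕ) (k : ℕ) {l : ℕ} (hl : l ≤ L) :
    Integrable (fun ω => att w (fun j => R j ω) k l) P := by
  refine Integrable.of_bound ((hc.meas_att w k hl).mono (hc.le l hl) le_rfl).aestronglyMeasurable 1
    (Eventually.of_forall fun ω => ?_)
  rw [Real.norm_eq_abs, abs_of_nonneg (att_nonneg _ _ _ _)]
  exact att_le_one _ _ _ _

theorem Coins.measR (hc : Coins P G R L) {l : ℕ} (hl : l < L) : Measurable (R l) :=
  (hc.meas l hl).mono (hc.le (l + 1) (by omega)) le_rfl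

theorem Coins.indepFun (hc : Coins P G R L) {l : ℕ} (hl : l < L) {ζ : Ω → ℝ}
    (hζ : Measurable[G l] ζ) : IndepFun (R l) ζ P := by
  rw [IndepFun_iff_Indep]
  exact indep_of_indep_of_le_right (hc.indep l hl) hζ.comap_le

theorem suc_eq (w : ℕ → ℕ) (r : ℕ → ℝ) (k l : ℕ) :
    suc w r k l = (Set.Ici (1 : ℝ)).indicator (fun _ => (1 : ℝ)) (r l) * att w r k l := by
  classical
  unfold suc att
  by_cases h1 : stt w r l = (k, 0) <;> by_cases h2 : 1 ≤ r l <;> simp [h1, h2]

theorem Coins.integral_suc (hc : Coins P G R L) (w : ℕ → ℕ) (k : ℕ) {l : ℕ} (hl : l < L) :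
    ∫ ω, suc w (fun j => R j ω) k l ∂P = pp * ∫ ω, att w (fun j => R j ω) k l ∂P ∧
    Integrable (fun ω => suc w (fun j => R j ω) k l) P := by
  have hm : Measurable ((Set.Ici (1 : ℝ)).indicator (fun _ => (1 : ℝ))) :=
    measurable_const.indicator measurableSet_Ici
  have h1 : IndepFun (fun ω => (Set.Ici (1 : ℝ)).indicator (fun _ => (1 : ℝ)) (R l ω))
      (fun ω => att w (fun j => R j ω) k l) P :=
    (hc.indepFun hl (hc.meas_att w k hl.le)).comp (ψ := id) hm measurable_id
  have h2 : ∫ ω, (Set.Ici (1 : ℝ)).indicator (fun _ => (1 : ℝ)) (R l ω) ∂P = pp := by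
    rw [← integral_map (φ := R l) (hc.measR hl).aemeasurable
      (f := (Set.Ici (1 : ℝ)).indicator (fun _ => (1 : ℝ))) hm.aestronglyMeasurable, hc.law l hl,
      integral_indicator measurableSet_Ici, setIntegral_const]
    simp [pp]
  have h3 : AEStronglyMeasurable (fun ω => (Set.Ici (1 : ℝ)).indicator (fun _ => (1 : ℝ)) (R l ω)) P :=
    (hm.comp (hc.measR hl)).aestronglyMeasurable
  simp_rw [suc_eq]
  refine ⟨?_, ?_⟩
  · rw [h1.integral_fun_mul_eq_mul_integral h3 (hc.integrable_att w k hl.le).aestronglyMeasurable,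
      h2]
  · refine (hc.integrable_att w k hl.le).bdd_mul (c := 1) h3 (Eventually.of_forall fun ω => ?_)
    by_cases h : R l ω ∈ Set.Ici (1 : ℝ) <;> simp [Set.indicator, h]

theorem Coins.integrable_Aq (hc : Coins P G R L) (w : ℕ → ℕ) (k : ℕ) :
    Integrable (fun ω => Aq w (fun j => R j ω) k L) P :=
  integrable_finsetSum _ fun l hl => hc.integrable_att w k (Finset.mem_range.1 hl).le

theorem Coins.integral_Aq (hc : Coins P G R L) (w : ℕ → ℕ) (k : ℕ) :
    ∫ ω, Aq w (fun j => R j ω) k L ∂P ≤ 1 / pp := by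
  have h1 : ∫ ω, Sq w (fun j => R j ω) k L ∂P = pp * ∫ ω, Aq w (fun j => R j ω) k L ∂P := by
    unfold Sq Aq
    rw [integral_finsetSum _ fun l hl => (hc.integral_suc w k (Finset.mem_range.1 hl)).2,
      integral_finsetSum _ fun l hl => hc.integrable_att w k (Finset.mem_range.1 hl).le,
      Finset.mul_sum]
    exact Finset.sum_congr rfl fun l hl => (hc.integral_suc w k (Finset.mem_range.1 hl)).1
  have h2 : ∫ ω, Sq w (fun j => R j ω) k L ∂P ≤ 1 := by
    have hi : Integrable (fun ω => Sq w (fun j => R j ω) k L) P :=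
      integrable_finsetSum _ fun l hl => (hc.integral_suc w k (Finset.mem_range.1 hl)).2
    calc ∫ ω, Sq w (fun j => R j ω) k L ∂P ≤ ∫ _, (1 : ℝ) ∂P :=
          integral_mono hi (integrable_const _) fun ω => Sq_le_one _ _ _ _
      _ = 1 := by simp
  rw [le_div_iff₀ pp_pos]
  linarith [mul_comm pp (∫ ω, Aq w (fun j => R j ω) k L ∂P)]

theorem integral_abs_gauss : ∫ x, |x| ∂(gaussianReal 0 1) ≤ 1 := by
  have h2 := variance_id_gaussianReal (μ := 0) (v := 1)
  have h4 := variance_eq_sub (X := (id : ℝ → ℝ)) (memLp_id_gaussianReal (μ := 0) (v := 1) 2)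
  rw [h2] at h4
  have h5 : ∫ x, id x ∂(gaussianReal 0 1) = 0 := integral_id_gaussianReal
  rw [h5] at h4
  have h6 : ∫ x, ((id : ℝ → ℝ) ^ 2) x ∂(gaussianReal 0 1) = ∫ x, x ^ 2 ∂(gaussianReal 0 1) := rfl
  rw [h6] at h4
  have h7 : ∫ x, x ^ 2 ∂(gaussianReal 0 1) = 1 := by
    have : ((1 : ℝ≥0) : ℝ) = 1 := rfl
    rw [this] at h4
    linarith
  have hml : MemLp (id : ℝ → ℝ) 2 (gaussianReal 0 1) := memLp_id_gaussianReal (μ := 0) (v := 1) 2
  have i1 : Integrable (fun x : ℝ => x ^ 2) (gaussianReal 0 1) := hml.integrable_sq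
  have i2 : Integrable (fun x : ℝ => |x|) (gaussianReal 0 1) :=
    (hml.integrable (by norm_num)).abs
  have h8 : ∫ x, |x| ∂(gaussianReal 0 1) ≤ ∫ x, (1 / 2 + x ^ 2 / 2) ∂(gaussianReal 0 1) := by
    refine integral_mono i2 ((integrable_const _).add (i1.div_const 2)) fun x => ?_
    have := sq_nonneg (|x| - 1)
    rw [sub_sq, sq_abs] at this
    simp only
    linarith
  rw [integral_add (integrable_const _) (i1.div_const 2)] at h8
  have h9 : ∫ x, x ^ 2 / 2 ∂(gaussianReal 0 1) = 1 / 2 := by
    rw [integral_div, h7]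
  rw [h9] at h8
  simp at h8
  linarith

theorem Coins.integral_Gq (hc : Coins P G R L) (w : ℕ → ℕ) (k : ℕ) :
    Integrable (fun ω => Gq w (fun j => R j ω) k L) P ∧
    ∫ ω, Gq w (fun j => R j ω) k L ∂P ≤ 1 / pp := by
  have hR : ∀ l, l < L → Integrable (fun ω => |R l ω|) P ∧ ∫ ω, |R l ω| ∂P ≤ 1 := by
    intro l hl
    have h1 : ∫ x, |x| ∂(P.map (R l)) = ∫ ω, |R l ω| ∂P :=
      integral_map (hc.measR hl).aemeasurable (by fun_prop)
    rw [← h1, hc.law l hl]
    refine ⟨?_, integral_abs_gauss⟩
    have h2 : MemLp (id : ℝ → ℝ) 1 (P.map (R l)) := by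
      rw [hc.law l hl]; exact memLp_id_gaussianReal (μ := 0) (v := 1) 1
    have h3 := (memLp_map_measure_iff (by fun_prop) (hc.measR hl).aemeasurable).1 h2
    exact (h3.integrable le_rfl).abs
  have hind : ∀ l, l < L → IndepFun (fun ω => att w (fun j => R j ω) k l) (fun ω => |R l ω|) P := by
    intro l hl
    exact ((hc.indepFun hl (hc.meas_att w k hl.le)).symm).comp (φ := id) (ψ := fun x => |x|)
      measurable_id (by fun_prop)
  have hint : ∀ l, l < L → Integrable (fun ω => att w (fun j => R j ω) k l * |R l ω|) P := by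
    intro l hl
    exact (hind l hl).integrable_mul (hc.integrable_att w k hl.le) (hR l hl).1
  have hle : ∀ l, l < L → ∫ ω, att w (fun j => R j ω) k l * |R l ω| ∂P ≤
      ∫ ω, att w (fun j => R j ω) k l ∂P := by
    intro l hl
    rw [(hind l hl).integral_fun_mul_eq_mul_integral
      (hc.integrable_att w k hl.le).aestronglyMeasurable (hR l hl).1.aestronglyMeasurable]
    have h0 : 0 ≤ ∫ ω, att w (fun j => R j ω) k l ∂P :=
      integral_nonneg fun ω => att_nonneg _ _ _ _
    nlinarith [(hR l hl).2]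
  refine ⟨integrable_finsetSum _ fun l hl => hint l (Finset.mem_range.1 hl), ?_⟩
  refine le_trans ?_ (hc.integral_Aq w k)
  unfold Gq Aq
  rw [integral_finsetSum _ fun l hl => hint l (Finset.mem_range.1 hl),
      integral_finsetSum _ fun l hl => hc.integrable_att w k (Finset.mem_range.1 hl).le]
  exact Finset.sum_le_sum fun l hl => hle l (Finset.mem_range.1 hl)

theorem Coins.integral_Uq (hc : Coins P G R L) (w : ℕ → ℕ) (k : ℕ) :
    Integrable (fun ω => Uq w (fun j => R j ω) k L) P ∧
    ∫ ω, Uq w (fun j => R j ω) k L ∂P ≤ (w k + 1) * (1 / pp + 1) := by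
  classical
  have hm : ∀ l, l < L → Measurable (fun ω => inm w (fun j => R j ω) k l) := by
    intro l hl
    have h : Measurable (fun st : ℕ × ℕ => if st.1 = k then (1 : ℝ) else 0) :=
      Measurable.of_discrete
    have h2 := h.comp (hc.meas_stt w hl.le)
    have h3 : (fun ω => inm w (fun j => R j ω) k l) =
        (fun st : ℕ × ℕ => if st.1 = k then (1 : ℝ) else 0) ∘
          (fun ω => stt w (fun j => R j ω) l) := by
      funext ω
      simp only [Function.comp_apply, inm]
    rw [h3]
    exact h2.mono (hc.le l hl.le) le_rfl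
  have hi : ∀ l, l < L → Integrable (fun ω => inm w (fun j => R j ω) k l) P := by
    intro l hl
    refine Integrable.of_bound (hm l hl).aestronglyMeasurable 1 (Eventually.of_forall fun ω => ?_)
    unfold inm
    split_ifs <;> simp
  have hU : Integrable (fun ω => Uq w (fun j => R j ω) k L) P :=
    integrable_finsetSum _ fun l hl => hi l (Finset.mem_range.1 hl)
  refine ⟨hU, ?_⟩
  calc ∫ ω, Uq w (fun j => R j ω) k L ∂P
      ≤ ∫ ω, ((w k : ℝ) + 1) * (Aq w (fun j => R j ω) k L + 1) ∂P :=
        integral_mono hU (((hc.integrable_Aq w k).add (integrable_const _)).const_mul _)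
          fun ω => Uq_le _ _ _ _
    _ = ((w k : ℝ) + 1) * (∫ ω, Aq w (fun j => R j ω) k L ∂P + 1) := by
        rw [integral_const_mul, integral_add (hc.integrable_Aq w k) (integrable_const _)]
        simp
    _ ≤ _ := by
        have := hc.integral_Aq w k
        have hw : (0 : ℝ) ≤ w k := Nat.cast_nonneg _
        gcongr

/-- the main probabilistic estimate for one block -/
theorem Coins.block (hc : Coins P G R L) (w : ℕ → ℕ) (ε : ℕ → ℝ) (hε : ∀ k, 0 ≤ ε k) {N : ℕ}
    (hN : 0 < N)
    (h1 : ∑ k ∈ range N, (ε k * (1 + ∑ i ∈ Finset.Ioo k N, ((w i : ℝ) + 1) * (1 / pp + 1)) +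
      Real.exp (-(ε k)) ^ (w k) * (1 / pp)) ≤ N / 16)
    (h2 : ∑ i ∈ range N, ((w i : ℝ) + 1) * (1 / pp + 1) ≤ L / 8) (hL : 0 < L) :
    P.real {ω | ∀ l, 0 < l → l ≤ L →
      ∑ k ∈ range N, Yq w (fun j => R j ω) (fun k => Real.exp (-(ε k))) k l < 3 / 4 * N} ≤ 3 / 8 := by
  set E1 : Set Ω := {ω | (N : ℝ) / 4 ≤ Loss w (fun j => R j ω) ε N L} with hE1
  set E2 : Set Ω := {ω | (L : ℝ) ≤ ∑ i ∈ range N, Uq w (fun j => R j ω) i L} with hE2
  have hsub : {ω | ∀ l, 0 < l → l ≤ L →
      ∑ k ∈ range N, Yq w (fun j => R j ω) (fun k => Real.exp (-(ε k))) k l < 3 / 4 * N} ⊆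
      E1 ∪ E2 := by
    intro ω hω
    by_contra hcon
    rw [Set.mem_union, not_or] at hcon
    obtain ⟨hn1, hn2⟩ := hcon
    have hn1' : Loss w (fun j => R j ω) ε N L < (N : ℝ) / 4 := not_le.1 hn1
    have hn2' : ∑ i ∈ range N, Uq w (fun j => R j ω) i L < (L : ℝ) := not_le.1 hn2
    have hdone : N ≤ (stt w (fun j => R j ω) L).1 := by
      by_contra hlt
      rw [not_le] at hlt
      have h3 : ∑ i ∈ range N, Uq w (fun j => R j ω) i L = L := by
        unfold Uq
        rw [Finset.sum_comm]
        have h4 : ∀ l ∈ range L, ∑ i ∈ range N, inm w (fun j => R j ω) i l = 1 := by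
          intro l hl
          have h5 : (stt w (fun j => R j ω) l).1 < N :=
            lt_of_le_of_lt (stt_mono w _ (Finset.mem_range.1 hl).le) hlt
          rw [Finset.sum_eq_single (stt w (fun j => R j ω) l).1]
          · unfold inm; rw [if_pos rfl]
          · intro b _ hb
            unfold inm; rw [if_neg (fun h => hb h.symm)]
          · intro h; exact absurd (Finset.mem_range.2 h5) h
        rw [Finset.sum_congr rfl h4]
        simp
      linarith
    obtain ⟨l, hl0, hlL, hl⟩ := exists_good w (fun j => R j ω) ε hε hN hdone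
    have := hω l hl0 hlL
    linarith
  have hint1 : Integrable (fun ω => Loss w (fun j => R j ω) ε N L) P := by
    unfold Loss
    refine integrable_finsetSum _ fun k _ => ?_
    exact ((((integrable_const _).add (integrable_finsetSum _ fun i _ =>
      (hc.integral_Uq w i).1))).const_mul _).add ((hc.integral_Gq w k).1.const_mul _)
  have hLoss : ∫ ω, Loss w (fun j => R j ω) ε N L ∂P ≤ N / 16 := by
    refine le_trans ?_ h1
    unfold Loss
    rw [integral_finsetSum]
    · refine Finset.sum_le_sum fun k _ => ?_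
      rw [integral_add, integral_const_mul, integral_const_mul, integral_add, integral_finsetSum]
      · have h3 : ∫ _, (1 : ℝ) ∂P = 1 := by simp
        rw [h3]
        have h4 : ∑ i ∈ Finset.Ioo k N, ∫ ω, Uq w (fun j => R j ω) i L ∂P ≤
            ∑ i ∈ Finset.Ioo k N, ((w i : ℝ) + 1) * (1 / pp + 1) :=
          Finset.sum_le_sum fun i _ => (hc.integral_Uq w i).2
        have h5 := (hc.integral_Gq w k).2
        have h6 := hε k
        have h7 : 0 ≤ Real.exp (-(ε k)) ^ (w k) := by positivity
        gcongr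
      · exact fun i _ => (hc.integral_Uq w i).1
      · exact integrable_const _
      · exact integrable_finsetSum _ fun i _ => (hc.integral_Uq w i).1
      · exact ((((integrable_const _).add (integrable_finsetSum _ fun i _ =>
          (hc.integral_Uq w i).1))).const_mul _)
      · exact ((hc.integral_Gq w k).1.const_mul _)
    · intro k _
      exact ((((integrable_const _).add (integrable_finsetSum _ fun i _ =>
        (hc.integral_Uq w i).1))).const_mul _).add ((hc.integral_Gq w k).1.const_mul _)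
  have hP1 : P.real E1 ≤ 1 / 4 := by
    have h3 := mul_meas_ge_le_integral_of_nonneg (μ := P)
      (f := fun ω => Loss w (fun j => R j ω) ε N L) (Eventually.of_forall fun ω => ?_) hint1
      ((N : ℝ) / 4)
    · have hN' : (0 : ℝ) < N := by exact_mod_cast hN
      have h4 : (N : ℝ) / 4 * P.real E1 ≤ N / 16 := h3.trans hLoss
      by_contra h5
      rw [not_le] at h5
      nlinarith
    · simp only [Pi.zero_apply]
      unfold Loss
      refine Finset.sum_nonneg fun k _ => ?_
      have h4 : 0 ≤ ∑ i ∈ Finset.Ioo k N, Uq w (fun j => R j ω) i L :=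
        Finset.sum_nonneg fun i _ => Uq_nonneg _ _ _ _
      have h5 := Gq_nonneg w (fun j => R j ω) k L
      have h6 := hε k
      positivity
  have hP2 : P.real E2 ≤ 1 / 8 := by
    have hint2 : Integrable (fun ω => ∑ i ∈ range N, Uq w (fun j => R j ω) i L) P :=
      integrable_finsetSum _ fun i _ => (hc.integral_Uq w i).1
    have h3 := mul_meas_ge_le_integral_of_nonneg (μ := P)
      (f := fun ω => ∑ i ∈ range N, Uq w (fun j => R j ω) i L)
      (Eventually.of_forall fun ω => Finset.sum_nonneg fun i _ => Uq_nonneg _ _ _ _) hint2 (L : ℝ)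
    have h4 : ∫ ω, ∑ i ∈ range N, Uq w (fun j => R j ω) i L ∂P ≤ L / 8 := by
      rw [integral_finsetSum _ fun i _ => (hc.integral_Uq w i).1]
      exact (Finset.sum_le_sum fun i _ => (hc.integral_Uq w i).2).trans h2
    have hL' : (0 : ℝ) < L := by exact_mod_cast hL
    have h5 : (L : ℝ) * P.real E2 ≤ L / 8 := h3.trans h4
    by_contra h6
    rw [not_le] at h6
    nlinarith
  calc P.real _ ≤ P.real (E1 ∪ E2) := measureReal_mono hsub
    _ ≤ P.real E1 + P.real E2 := measureReal_union_le _ _
    _ ≤ 3 / 8 := by linarith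

end Pool.Agent.H725R3.SConv
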