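import Pool.Agent.H725R3.SConv.Blk

set_option autoImplicit false
open Finset Filter
open scoped ENNReal Topology

namespace Pool.Agent.H725R3.SConv

/-- unit vectors of the block -/
noncomputable def eb (m k : ℕ) : Blk m := fun i => if i.1 = k then 1 else 0

theorem ext_eb {m k : ℕ} (hk : k < 2 ^ m) : ext (eb m k) = del k := by
  funext i
  unfold ext eb del
  split_ifs <;> first | rfl | omega

theorem norm_eb_sq (m k : ℕ) (hk : k < 2 ^ m) : ‖eb m k‖ ^ 2 ≤ 9 := by
  rw [blk_norm_sq, ext_eb hk]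
  exact (single_bound k m 0).trans (geom_bound m)

/-- diagonal operator on a block -/
noncomputable def dg (m : ℕ) (μ : ℕ → ℝ) : Blk m →ₗ[ℝ] Blk m where
  toFun a := fun i => μ i.1 * a i
  map_add' a b := by
    funext i
    show μ i.1 * (a i + b i) = μ i.1 * a i + μ i.1 * b i
    ring
  map_smul' c a := by
    funext i
    show μ i.1 * (c * a i) = c * (μ i.1 * a i)
    ring

theorem ext_dg {m : ℕ} (μ : ℕ → ℝ) (a : Blk m) : ext (dg m μ a) = fun i => μ i * ext a i := by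
  funext i
  unfold ext
  split_ifs
  · rfl
  · simp

theorem dg_bound {m : ℕ} {μ : ℕ → ℝ} (h0 : ∀ i, 0 ≤ μ i) (h1 : ∀ i, μ i ≤ 1)
    (ha : ∀ i j, i ≤ j → μ j ≤ μ i) (a : Blk m) : ‖dg m μ a‖ ≤ 10 * ‖a‖ := by
  have h2 : ‖dg m μ a‖ ^ 2 ≤ (10 * ‖a‖) ^ 2 := by
    rw [mul_pow, blk_norm_sq, blk_norm_sq, ext_dg]
    have := mult_bound (ext a) μ m (fun i _ => h0 i) (fun i _ => h1 i) (fun i j hij _ => ha i j hij)
    norm_num
    exact this
  exact (pow_le_pow_iff_left₀ (norm_nonneg _) (by positivity) (by norm_num)).1 h2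

theorem blk_expand {m : ℕ} (a : Blk m) : a = ∑ i : Fin (2 ^ m), (a i) • eb m i.1 := by
  have h1 : ∀ (s : Finset (Fin (2 ^ m))) (j : Fin (2 ^ m)),
      (∑ i ∈ s, (a i) • eb m i.1 : Blk m) j = ∑ i ∈ s, (a i) * (if j.1 = i.1 then 1 else 0) := by
    intro s j
    induction s using Finset.induction_on with
    | empty => simp; rfl
    | insert x s hx ih =>
      rw [Finset.sum_insert hx, Finset.sum_insert hx, ← ih]
      rfl
  funext j
  rw [h1 Finset.univ j, Finset.sum_eq_single j]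
  · simp
  · intro b _ hb
    rw [if_neg (fun h => hb (Fin.ext h.symm)), mul_zero]
  · intro h
    exact absurd (Finset.mem_univ j) h

/-- the sum functional on a block -/
noncomputable def sf (m : ℕ) : Blk m →ₗ[ℝ] ℝ where
  toFun a := ∑ i : Fin (2 ^ m), a i
  map_add' a b := by
    exact Finset.sum_add_distrib
  map_smul' c a := by
    exact (Finset.mul_sum _ _ _).symm

theorem sf_eq {m : ℕ} (a : Blk m) : sf m a = bs (ext a) m 0 := by
  unfold bs
  rw [Finset.sum_range]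
  show ∑ i : Fin (2 ^ m), a i = _
  refine Finset.sum_congr rfl fun i _ => ?_
  rw [zero_add]
  unfold ext
  rw [dif_pos i.2]

theorem sf_bound {m : ℕ} (a : Blk m) : |sf m a| ≤ (10 / 9) ^ m * ‖a‖ := by
  have h1 := bs_sq_le (ext a) m 0
  rw [← blk_norm_sq, ← sf_eq] at h1
  have h2 : qq ^ m = ((9 / 10) ^ m) ^ 2 := by
    unfold qq
    rw [← pow_mul, mul_comm m 2, pow_mul]
    norm_num
  have h3 : ((9 / 10 : ℝ) ^ m * |sf m a|) ^ 2 ≤ ‖a‖ ^ 2 := by
    rw [mul_pow, sq_abs, ← h2, sq (sf m a)]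
    exact h1
  have h4 := (pow_le_pow_iff_left₀ (by positivity) (norm_nonneg a) (by norm_num)).1 h3
  have h5 : ((10 / 9 : ℝ)) ^ m * (9 / 10) ^ m = 1 := by
    rw [← mul_pow]; norm_num
  calc |sf m a| = (10 / 9 : ℝ) ^ m * ((9 / 10) ^ m * |sf m a|) := by
        rw [← mul_assoc, h5, one_mul]
    _ ≤ _ := mul_le_mul_of_nonneg_left h4 (by positivity)

/-- multipliers of the block semigroup -/
noncomputable def mu (r : ℕ → ℝ) (t : ℝ) (i : ℕ) : ℝ := Real.exp (-(r i * max t 0))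

section mu
variable {r : ℕ → ℝ} (h0 : ∀ k, 0 ≤ r k) (hm : ∀ i j, i ≤ j → r i ≤ r j)
include h0 in
theorem mu_le_one (t : ℝ) (i : ℕ) : mu r t i ≤ 1 := by
  unfold mu
  rw [Real.exp_le_one_iff]
  have := mul_nonneg (h0 i) (le_max_right t 0)
  linarith

theorem mu_nonneg (t : ℝ) (i : ℕ) : 0 ≤ mu r t i := (Real.exp_pos _).le

include hm in
theorem mu_anti (t : ℝ) (i j : ℕ) (hij : i ≤ j) : mu r t j ≤ mu r t i := by
  unfold mu
  rw [Real.exp_le_exp]
  have := mul_le_mul_of_nonneg_right (hm i j hij) (le_max_right t 0)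
  linarith

include h0 hm in
theorem dg_mu_bound {m : ℕ} (t : ℝ) (a : Blk m) : ‖dg m (mu r t) a‖ ≤ 10 * ‖a‖ :=
  dg_bound (mu_nonneg t) (mu_le_one h0 t) (mu_anti hm t) a

end mu

theorem continuous_dg {m : ℕ} (r : ℕ → ℝ) (a : Blk m) : Continuous (fun t => dg m (mu r t) a) := by
  have h1 : (fun t => dg m (mu r t) a) =
      fun t => ∑ i : Fin (2 ^ m), (mu r t i.1 * a i) • eb m i.1 := by
    funext t
    exact blk_expand (dg m (mu r t) a)
  rw [h1]
  refine continuous_finsetSum _ fun i _ => ?_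
  have h2 : Continuous (fun t => mu r t i.1 * a i) := by
    refine Continuous.mul ?_ continuous_const
    unfold mu
    fun_prop
  exact h2.smul continuous_const

/-- the Hilbert space -/
abbrev XX : Type := lp (fun m : ℕ => Blk m) 2

theorem XX_hasSum (f : XX) : HasSum (fun m => ‖f m‖ ^ 2) (‖f‖ ^ 2) := by
  have h1 : (0 : ℝ) < (2 : ℝ≥0∞).toReal := by norm_num
  have h2 := lp.hasSum_norm h1 f
  have h3 : (2 : ℝ≥0∞).toReal = ((2 : ℕ) : ℝ) := by norm_num
  rw [h3] at h2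
  simp only [Real.rpow_natCast] at h2
  exact h2

section sg
variable (r : ℕ → ℕ → ℝ) (h0 : ∀ m k, 0 ≤ r m k) (hm : ∀ m i j, i ≤ j → r m i ≤ r m j)

include h0 hm in
theorem mem_dg (t : ℝ) (f : XX) : Memℓp (fun m => dg m (mu (r m) t) (f m)) 2 := by
  refine memℓp_gen ?_
  have h3 : (2 : ℝ≥0∞).toReal = ((2 : ℕ) : ℝ) := by norm_num
  rw [h3]
  simp only [Real.rpow_natCast]
  refine Summable.of_nonneg_of_le (fun m => by positivity) (fun m => ?_)
    ((XX_hasSum f).summable.mul_left 100)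
  have h4 := dg_mu_bound (h0 m) (hm m) t (f m)
  calc ‖dg m (mu (r m) t) (f m)‖ ^ 2 ≤ (10 * ‖f m‖) ^ 2 := by gcongr
    _ = 100 * ‖f m‖ ^ 2 := by ring

/-- the semigroup -/
noncomputable def SS (t : ℝ) : XX →L[ℝ] XX :=
  LinearMap.mkContinuous
    { toFun := fun f => ⟨fun m => dg m (mu (r m) t) (f m), mem_dg r h0 hm t f⟩
      map_add' := by
        intro f g
        ext m : 2
        exact (dg m (mu (r m) t)).map_add (f m) (g m)
      map_smul' := by
        intro c f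
        ext m : 2
        exact (dg m (mu (r m) t)).map_smul c (f m) } 10 (by
    intro f
    have h2 : ‖(⟨fun m => dg m (mu (r m) t) (f m), mem_dg r h0 hm t f⟩ : XX)‖ ^ 2 ≤
        (10 * ‖f‖) ^ 2 := by
      rw [← (XX_hasSum _).tsum_eq, mul_pow, ← (XX_hasSum f).tsum_eq, ← tsum_mul_left]
      refine Summable.tsum_le_tsum (fun m => ?_) (XX_hasSum _).summable
        ((XX_hasSum f).summable.mul_left _)
      have h4 := dg_mu_bound (h0 m) (hm m) t (f m)
      calc ‖dg m (mu (r m) t) (f m)‖ ^ 2 ≤ (10 * ‖f m‖) ^ 2 := by gcongr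
        _ = 10 ^ 2 * ‖f m‖ ^ 2 := by ring
    exact (pow_le_pow_iff_left₀ (norm_nonneg _) (by positivity) (by norm_num)).1 h2)

theorem SS_apply (t : ℝ) (f : XX) (m : ℕ) : SS r h0 hm t f m = dg m (mu (r m) t) (f m) := rfl

theorem SS_zero (f : XX) : SS r h0 hm 0 f = f := by
  ext m : 2
  rw [SS_apply]
  funext i
  show mu (r m) 0 i.1 * f m i = f m i
  simp [mu]

theorem SS_add (s t : ℝ) (hs : 0 ≤ s) (ht : 0 ≤ t) (f : XX) :
    SS r h0 hm (s + t) f = SS r h0 hm s (SS r h0 hm t f) := by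
  ext m : 2
  rw [SS_apply, SS_apply, SS_apply]
  funext i
  show mu (r m) (s + t) i.1 * f m i = mu (r m) s i.1 * (mu (r m) t i.1 * f m i)
  rw [← mul_assoc]
  congr 1
  unfold mu
  rw [max_eq_left hs, max_eq_left ht, max_eq_left (add_nonneg hs ht), ← Real.exp_add]
  congr 1
  ring

theorem SS_cont (f : XX) : Continuous (fun t => SS r h0 hm t f) := by
  rw [continuous_iff_continuousAt]
  intro t₀
  rw [ContinuousAt, tendsto_iff_norm_sub_tendsto_zero]
  have h1 : Tendsto (fun t => ‖SS r h0 hm t f - SS r h0 hm t₀ f‖ ^ 2) (𝓝 t₀) (𝓝 0) := by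
    have h2 : ∀ t, ‖SS r h0 hm t f - SS r h0 hm t₀ f‖ ^ 2 =
        ∑' m, ‖dg m (mu (r m) t) (f m) - dg m (mu (r m) t₀) (f m)‖ ^ 2 := by
      intro t
      rw [← (XX_hasSum _).tsum_eq]
      rfl
    simp_rw [h2]
    have h3 : (0 : ℝ) = ∑' m : ℕ, (0 : ℝ) := by simp
    rw [h3]
    refine tendsto_tsum_of_dominated_convergence (bound := fun m => 400 * ‖f m‖ ^ 2)
      ((XX_hasSum f).summable.mul_left 400) ?_ ?_
    · intro m
      have h5 : Continuous (fun t => dg m (mu (r m) t) (f m) - dg m (mu (r m) t₀) (f m)) :=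
        (continuous_dg (r m) (f m)).sub continuous_const
      have h6 : Continuous (fun t => ‖dg m (mu (r m) t) (f m) - dg m (mu (r m) t₀) (f m)‖ ^ 2) :=
        h5.norm.pow 2
      have h4 := h6.tendsto t₀
      simpa using h4
    · refine Eventually.of_forall fun t m => ?_
      have h5 := dg_mu_bound (h0 m) (hm m) t (f m)
      have h6 := dg_mu_bound (h0 m) (hm m) t₀ (f m)
      have h7 := norm_sub_le (dg m (mu (r m) t) (f m)) (dg m (mu (r m) t₀) (f m))
      rw [Real.norm_eq_abs, abs_of_nonneg (by positivity)]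
      calc _ ≤ (20 * ‖f m‖) ^ 2 := by
            have : ‖dg m (mu (r m) t) (f m) - dg m (mu (r m) t₀) (f m)‖ ≤ 20 * ‖f m‖ := by linarith
            gcongr
        _ = _ := by ring
  have h8 := h1.sqrt
  simpa using h8

/-- eigenvectors -/
noncomputable def ev (m k : ℕ) : XX := lp.single 2 m (eb m k)

theorem SS_ev (m k : ℕ) (t : ℝ) :
    SS r h0 hm t (ev m k) = Real.exp (-(r m k * max t 0)) • ev m k := by
  ext m' : 2
  rw [SS_apply]
  show dg m' (mu (r m') t) (ev m k m') = Real.exp (-(r m k * max t 0)) • (ev m k m')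
  by_cases hmm : m' = m
  · subst hmm
    unfold ev
    rw [lp.single_apply_self]
    funext i
    show mu (r m') t i.1 * (if i.1 = k then (1 : ℝ) else 0) =
      Real.exp (-(r m' k * max t 0)) * (if i.1 = k then (1 : ℝ) else 0)
    split_ifs with h
    · rw [h]; rfl
    · simp
  · unfold ev
    rw [lp.single_apply_ne _ _ _ hmm]
    simp

end sg

theorem norm_ev {m k : ℕ} (hk : k < 2 ^ m) : ‖ev m k‖ ≤ 3 := by
  unfold ev
  rw [lp.norm_single (by norm_num)]
  have h1 := norm_eb_sq m k hk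
  have h2 : ‖eb m k‖ ^ 2 ≤ 3 ^ 2 := by norm_num; exact h1
  exact (pow_le_pow_iff_left₀ (norm_nonneg _) (by positivity) (by norm_num)).1 h2

/-- block functionals -/
noncomputable def psiF (m : ℕ) : XX →L[ℝ] ℝ :=
  ((sf m).mkContinuous ((10 / 9) ^ m) (fun a => by
    rw [Real.norm_eq_abs]
    exact sf_bound a)).comp (lp.evalCLM ℝ (fun m : ℕ => Blk m) 2 m)

theorem psiF_apply (m : ℕ) (f : XX) : psiF m f = sf m (f m) := rfl

theorem psiF_bound (m : ℕ) (f : XX) : |psiF m f| ≤ (10 / 9) ^ m * ‖f‖ := by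
  rw [psiF_apply]
  refine (sf_bound (f m)).trans ?_
  exact mul_le_mul_of_nonneg_left (lp.norm_apply_le_norm (by norm_num) f m) (by positivity)

theorem psiF_ev {m k : ℕ} (hk : k < 2 ^ m) : psiF m (ev m k) = 1 := by
  rw [psiF_apply]
  unfold ev
  rw [lp.single_apply_self]
  show ∑ i : Fin (2 ^ m), (if i.1 = k then (1 : ℝ) else 0) = 1
  rw [Finset.sum_eq_single ⟨k, hk⟩]
  · simp
  · intro b _ hb
    rw [if_neg (fun h => hb (Fin.ext h))]
  · intro h
    exact absurd (Finset.mem_univ _) h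

theorem psiF_ev_ne {m m' k : ℕ} (h : m ≠ m') : psiF m (ev m' k) = 0 := by
  rw [psiF_apply]
  unfold ev
  rw [lp.single_apply_ne _ _ _ h]
  exact (sf m).map_zero

end Pool.Agent.H725R3.SConv
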