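import Pool.Agent.H725R3.SConv.Apx
import Pool.Agent.H725R3.SConv.Param
import Pool.Agent.H725R3.SConv.Space

set_option autoImplicit false
set_option linter.unusedSectionVars false
set_option linter.style.haveILetI false
set_option linter.unusedSimpArgs false
open MeasureTheory ProbabilityTheory Filter Set
open scoped ENNReal NNReal Topology

namespace Pool.Agent.H725R3.SConv

variable {Ω : Type*} {mΩ : MeasurableSpace Ω} {P : Measure Ω} [IsProbabilityMeasure P]
  {F : Filtration ℝ mΩ} {T : ℝ} {W : ℝ → Ω → ℝ}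

namespace Par
variable (c : Par T)

/-- grid times -/
noncomputable def tt (m l : ℕ) : ℝ := c.τ m + l * c.Δ m
/-- normalised increments -/
noncomputable def RR (W : ℝ → Ω → ℝ) (m l : ℕ) (ω : Ω) : ℝ :=
  (W (c.tt m l + c.δ m) ω - W (c.tt m l) ω) / Real.sqrt (c.δ m)
/-- attempts -/
noncomputable def at' (W : ℝ → Ω → ℝ) (m k l : ℕ) (ω : Ω) : ℝ :=
  att (c.w m) (fun j => c.RR W m j ω) k l
/-- height of the kicks -/
noncomputable def cc (m : ℕ) : ℝ := (3 / 5) ^ m / Real.sqrt (c.δ m)
/-- the value of the integrand after the grid time -/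
noncomputable def xi (W : ℝ → Ω → ℝ) (m l : ℕ) (ω : Ω) : XX :=
  ∑ k ∈ Finset.range (2 ^ m), (c.cc m * c.at' W m k l ω) • ev m k
/-- the integrand in one block -/
noncomputable def gm (W : ℝ → Ω → ℝ) (m : ℕ) (s : ℝ) (ω : Ω) : XX :=
  ∑ l ∈ Finset.range (c.L m), (Ioc (c.tt m l) (c.tt m l + c.δ m)).indicator
    (fun _ => c.xi W m l ω) s
/-- the integrand -/
noncomputable def g (W : ℝ → Ω → ℝ) (s : ℝ) (ω : Ω) : XX := ∑' m, c.gm W m s ω

/-! ### grid times -/

theorem tt_zero (m : ℕ) : c.tt m 0 = c.τ m := by simp [tt]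
theorem tt_end (m : ℕ) : c.tt m (c.L m) = c.τ (m + 1) := c.τend m
theorem tt_succ (m l : ℕ) : c.tt m (l + 1) = c.tt m l + c.Δ m := by
  unfold tt; push_cast; ring
theorem tt_mono (m : ℕ) : Monotone (c.tt m) := by
  refine monotone_nat_of_le_succ fun l => ?_
  rw [tt_succ]
  linarith [c.Δpos m]
theorem tt_nonneg (m l : ℕ) : 0 ≤ c.tt m l := by
  have := c.τ0 m
  have := c.Δpos m
  unfold tt
  positivity
theorem tt_δ (m l : ℕ) : c.tt m l + c.δ m ≤ c.tt m (l + 1) := by
  rw [tt_succ]; linarith [c.δle m]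
theorem tt_le {m l : ℕ} (h : l ≤ c.L m) : c.tt m l ≤ c.τ (m + 1) :=
  (c.tt_mono m h).trans (c.tt_end m).le
theorem tt_leT {m l : ℕ} (h : l ≤ c.L m) : c.tt m l ≤ T := (c.tt_le h).trans (c.τT _)
theorem τmono : Monotone c.τ := by
  refine monotone_nat_of_le_succ fun m => ?_
  rw [← c.tt_end m, ← c.tt_zero m]
  exact c.tt_mono m (Nat.zero_le _)

theorem RR_coins (hW : IsBM P F T W) (m : ℕ) :
    Coins P (fun l => F (c.tt m l)) (c.RR W m) (c.L m) where
  le := fun l _ => F.le _
  mono := fun l _ => F.mono (c.tt_mono m (Nat.le_succ l))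
  meas := fun l hl => by
    have h1 := hW.meas_inc (c.tt_nonneg m l) (le_add_of_nonneg_right (c.δpos m).le)
      ((c.tt_δ m l).trans (c.tt_leT hl))
    exact (h1.mono (F.mono (c.tt_δ m l)) le_rfl).div_const _
  law := fun l hl => by
    have hle := (c.tt_δ m l).trans (c.tt_leT hl)
    have h0 := le_add_of_nonneg_right (a := c.tt m l) (c.δpos m).le
    have h1 := hW.law (c.tt m l) (c.tt m l + c.δ m) (c.tt_nonneg m l) h0 hle
    have h2 : c.RR W m l = (fun x : ℝ => x / Real.sqrt (c.δ m)) ∘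
      (fun ω => W (c.tt m l + c.δ m) ω - W (c.tt m l) ω) := rfl
    rw [h2, ← Measure.map_map (by fun_prop) (hW.meas_inc' (c.tt_nonneg m l) h0 hle), h1,
      gaussianReal_map_div_const]
    congr 1
    · simp
    · have h3 := c.δpos m
      ext
      simp only [NNReal.coe_div, NNReal.coe_one, add_sub_cancel_left]
      rw [Real.coe_toNNReal _ h3.le]
      simp only [NNReal.coe_mk]
      rw [Real.sq_sqrt h3.le, div_self h3.ne']
  indep := fun l hl => by
    have hle := (c.tt_δ m l).trans (c.tt_leT hl)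
    have h0 := le_add_of_nonneg_right (a := c.tt m l) (c.δpos m).le
    have h1 := hW.indep (c.tt m l) (c.tt m l + c.δ m) (c.tt_nonneg m l) h0 hle
    refine indep_of_indep_of_le_left h1 ?_
    have h2 : c.RR W m l = (fun x : ℝ => x / Real.sqrt (c.δ m)) ∘
      (fun ω => W (c.tt m l + c.δ m) ω - W (c.tt m l) ω) := rfl
    rw [h2, ← MeasurableSpace.comap_comp]
    exact MeasurableSpace.comap_mono (Measurable.comap_le (by fun_prop))

theorem at_nonneg (m k l : ℕ) (ω : Ω) : 0 ≤ c.at' W m k l ω := att_nonneg _ _ _ _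
theorem at_le_one (m k l : ℕ) (ω : Ω) : c.at' W m k l ω ≤ 1 := att_le_one _ _ _ _

theorem meas_at (hW : IsBM P F T W) (m k : ℕ) {l : ℕ} (hl : l ≤ c.L m) :
    Measurable[F (c.tt m l)] (c.at' W m k l) := (c.RR_coins hW m).meas_att (c.w m) k hl

theorem meas_xi (hW : IsBM P F T W) (m : ℕ) {l : ℕ} (hl : l ≤ c.L m) :
    StronglyMeasurable[F (c.tt m l)] (c.xi W m l) := by
  unfold xi
  refine Finset.stronglyMeasurable_fun_sum _ fun k _ => ?_
  exact ((c.meas_at hW m k hl).const_mul _).stronglyMeasurable.smul_const _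

theorem cc_nonneg (m : ℕ) : 0 ≤ c.cc m := by unfold cc; positivity

/-- at most one attempt at a time -/
theorem at_cases (W : ℝ → Ω → ℝ) (m l : ℕ) (ω : Ω) :
    (∀ k, c.at' W m k l ω = 0) ∨ ∃ k₀, c.at' W m k₀ l ω = 1 ∧ ∀ k, k ≠ k₀ → c.at' W m k l ω = 0 := by
  by_cases h : (stt (c.w m) (fun j => c.RR W m j ω) l).2 = 0
  · refine Or.inr ⟨(stt (c.w m) (fun j => c.RR W m j ω) l).1, ?_, fun k hk => ?_⟩
    · have hst : stt (c.w m) (fun j => c.RR W m j ω) l =
          ((stt (c.w m) (fun j => c.RR W m j ω) l).1, 0) := Prod.ext rfl h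
      unfold at' att
      rw [if_pos hst]
    · exact att_zero_of_ne _ _ (fun h' => hk h'.symm)
  · refine Or.inl fun k => ?_
    unfold at' att
    rw [if_neg]
    intro h'
    exact h (by rw [h'])

theorem sq_norm_xi (W : ℝ → Ω → ℝ) (m l : ℕ) (ω : Ω) :
    ‖c.xi W m l ω‖ ^ 2 ≤ c.cc m ^ 2 * 9 * ∑ k ∈ Finset.range (2 ^ m), c.at' W m k l ω := by
  have hnn : 0 ≤ c.cc m ^ 2 * 9 * ∑ k ∈ Finset.range (2 ^ m), c.at' W m k l ω := by
    have := Finset.sum_nonneg (s := Finset.range (2 ^ m)) fun k _ => c.at_nonneg (W := W) m k l ω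
    positivity
  rcases c.at_cases W m l ω with h | ⟨k₀, h1, h2⟩
  · have : c.xi W m l ω = 0 := by
      unfold xi
      exact Finset.sum_eq_zero fun k _ => by rw [h k]; simp
    rw [this]
    simpa using hnn
  · by_cases hk : k₀ < 2 ^ m
    · have e1 : c.xi W m l ω = c.cc m • ev m k₀ := by
        unfold xi
        rw [Finset.sum_eq_single k₀ (fun k _ hk => by rw [h2 k hk]; simp)
          (fun h => absurd (Finset.mem_range.2 hk) h), h1, mul_one]
      have e2 : ∑ k ∈ Finset.range (2 ^ m), c.at' W m k l ω = 1 := by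
        rw [Finset.sum_eq_single k₀ (fun k _ hk => h2 k hk)
          (fun h => absurd (Finset.mem_range.2 hk) h), h1]
      rw [e1, e2, norm_smul, mul_pow, Real.norm_eq_abs, sq_abs]
      have h3 := norm_ev hk
      have h4 : ‖ev m k₀‖ ^ 2 ≤ 9 := by
        calc ‖ev m k₀‖ ^ 2 ≤ 3 ^ 2 := by gcongr
          _ = 9 := by norm_num
      nlinarith [sq_nonneg (c.cc m)]
    · have : c.xi W m l ω = 0 := by
        unfold xi
        refine Finset.sum_eq_zero fun k hk' => ?_
        rw [h2 k (by have := Finset.mem_range.1 hk'; omega)]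
        simp
      rw [this]
      simpa using hnn

theorem memLp_xi (hW : IsBM P F T W) (m : ℕ) {l : ℕ} (hl : l ≤ c.L m) :
    MemLp (c.xi W m l) 2 P := by
  refine MemLp.of_bound ((c.meas_xi hW m hl).mono (F.le _)).aestronglyMeasurable
    (∑ k ∈ Finset.range (2 ^ m), c.cc m * ‖ev m k‖) (Eventually.of_forall fun ω => ?_)
  refine (norm_sum_le _ _).trans (Finset.sum_le_sum fun k _ => ?_)
  rw [norm_smul, Real.norm_eq_abs, abs_of_nonneg (mul_nonneg (c.cc_nonneg m) (c.at_nonneg m k l ω))]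
  have h1 := c.at_le_one (W := W) m k l ω
  have h2 := c.cc_nonneg m
  have h3 := norm_nonneg (ev m k)
  have : c.cc m * c.at' W m k l ω ≤ c.cc m := by nlinarith
  exact mul_le_mul_of_nonneg_right this h3

/-! ### the integrand -/

theorem gm_of_mem (W : ℝ → Ω → ℝ) {m l : ℕ} (hl : l < c.L m) {s : ℝ}
    (hs : s ∈ Ioc (c.tt m l) (c.tt m l + c.δ m)) (ω : Ω) : c.gm W m s ω = c.xi W m l ω := by
  unfold gm
  rw [Finset.sum_eq_single l]
  · rw [indicator_of_mem hs]
  · intro l' _ hne
    rw [indicator_of_notMem]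
    intro hs'
    rcases lt_or_gt_of_ne hne with h | h
    · have := c.tt_mono m (Nat.succ_le_of_lt h)
      have := c.tt_δ m l'
      have := hs.1
      have := hs'.2
      simp only [Nat.succ_eq_add_one] at *
      linarith
    · have := c.tt_mono m (Nat.succ_le_of_lt h)
      have := c.tt_δ m l
      have := hs'.1
      have := hs.2
      simp only [Nat.succ_eq_add_one] at *
      linarith
  · intro h; exact absurd (Finset.mem_range.2 hl) h

theorem gm_of_notMem (W : ℝ → Ω → ℝ) {m : ℕ} {s : ℝ}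
    (hs : ∀ l, l < c.L m → s ∉ Ioc (c.tt m l) (c.tt m l + c.δ m)) (ω : Ω) :
    c.gm W m s ω = 0 := by
  unfold gm
  exact Finset.sum_eq_zero fun l hl => indicator_of_notMem (hs l (Finset.mem_range.1 hl)) _

theorem gm_zero_out (W : ℝ → Ω → ℝ) {m : ℕ} {s : ℝ} (hs : s ∉ Ioc (c.τ m) (c.τ (m + 1)))
    (ω : Ω) : c.gm W m s ω = 0 := by
  refine c.gm_of_notMem W (fun l hl h => hs ⟨?_, ?_⟩) ω
  · have h1 := c.tt_mono m (Nat.zero_le l)
    rw [c.tt_zero] at h1
    exact lt_of_le_of_lt h1 h.1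
  · exact h.2.trans ((c.tt_δ m l).trans (c.tt_le hl))

theorem block_unique {m m' : ℕ} {s : ℝ} (h : s ∈ Ioc (c.τ m) (c.τ (m + 1)))
    (h' : s ∈ Ioc (c.τ m') (c.τ (m' + 1))) : m = m' := by
  by_contra hne
  rcases lt_or_gt_of_ne hne with hlt | hlt
  · have := c.τmono (Nat.succ_le_of_lt hlt)
    exact absurd h'.1 (not_lt.2 (h.2.trans this))
  · have := c.τmono (Nat.succ_le_of_lt hlt)
    exact absurd h.1 (not_lt.2 (h'.2.trans this))

theorem hasSum_gm (W : ℝ → Ω → ℝ) (s : ℝ) (ω : Ω) :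
    HasSum (fun m => c.gm W m s ω) (c.g W s ω) := by
  refine Summable.hasSum ?_
  by_cases h : ∃ m, s ∈ Ioc (c.τ m) (c.τ (m + 1))
  · obtain ⟨m, hm⟩ := h
    refine summable_of_ne_finset_zero (s := {m}) fun m' hm' => ?_
    exact c.gm_zero_out W (fun h => hm' (Finset.mem_singleton.2 (c.block_unique h hm))) ω
  · push Not at h
    have : (fun m => c.gm W m s ω) = fun _ => 0 := by
      funext m
      exact c.gm_zero_out W (h m) ω
    rw [this]
    exact summable_zero

theorem g_of_mem (W : ℝ → Ω → ℝ) {m : ℕ} {s : ℝ} (hs : s ∈ Ioc (c.τ m) (c.τ (m + 1)))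
    (ω : Ω) : c.g W s ω = c.gm W m s ω := by
  unfold g
  refine tsum_eq_single m fun m' hm' => ?_
  exact c.gm_zero_out W (fun h => hm' (c.block_unique h hs)) ω

theorem g_of_notMem (W : ℝ → Ω → ℝ) {s : ℝ} (hs : ∀ m, s ∉ Ioc (c.τ m) (c.τ (m + 1)))
    (ω : Ω) : c.g W s ω = 0 := by
  unfold g
  have : (fun m => c.gm W m s ω) = fun _ => 0 := by
    funext m
    exact c.gm_zero_out W (hs m) ω
  rw [this, tsum_zero]

/-- squared norms add over blocks; tail version -/
theorem enorm_tail (W : ℝ → Ω → ℝ) (M : ℕ) (s : ℝ) (ω : Ω) :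
    ‖(∑ m ∈ Finset.range M, c.gm W m s ω) - c.g W s ω‖ₑ ^ 2 ≤ ∑' m, ‖c.gm W (m + M) s ω‖ₑ ^ 2 := by
  by_cases h : ∃ m, s ∈ Ioc (c.τ m) (c.τ (m + 1))
  · obtain ⟨m, hm⟩ := h
    rw [c.g_of_mem W hm]
    by_cases hmM : m < M
    · rw [Finset.sum_eq_single m (fun m' _ hm' => c.gm_zero_out W
        (fun h => hm' (c.block_unique h hm)) ω) (fun h => absurd (Finset.mem_range.2 hmM) h)]
      simp
    · have e : ∑ m ∈ Finset.range M, c.gm W m s ω = 0 := by
        refine Finset.sum_eq_zero fun m' hm' => ?_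
        refine c.gm_zero_out W (fun h => ?_) ω
        have := c.block_unique h hm
        have := Finset.mem_range.1 hm'
        omega
      rw [e, zero_sub, enorm_neg]
      obtain ⟨j, rfl⟩ : ∃ j, m = j + M := ⟨m - M, by omega⟩
      exact ENNReal.le_tsum j
  · push Not at h
    rw [c.g_of_notMem W h]
    have e : ∑ m ∈ Finset.range M, c.gm W m s ω = 0 :=
      Finset.sum_eq_zero fun m' _ => c.gm_zero_out W (h m') ω
    rw [e]
    simp

/-! ### measurability -/

theorem sm_gm (hW : IsBM P F T W) (m : ℕ) :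
    StronglyMeasurable (fun p : Ω × ℝ => c.gm W m p.2 p.1) := by
  unfold gm
  refine Finset.stronglyMeasurable_fun_sum _ fun l hl => ?_
  have h := sm_indicator (a := c.tt m l) (b := c.tt m l + c.δ m) (h := fun _ => (1 : ℝ))
    continuous_const ((c.meas_xi hW m (Finset.mem_range.1 hl).le).mono (F.le _))
  simpa using h

theorem sm_g (hW : IsBM P F T W) : StronglyMeasurable (fun p : Ω × ℝ => c.g W p.2 p.1) := by
  refine stronglyMeasurable_of_tendsto atTop
    (f := fun M => fun p : Ω × ℝ => ∑ m ∈ Finset.range M, c.gm W m p.2 p.1) (fun M => ?_) ?_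
  · exact Finset.stronglyMeasurable_fun_sum _ fun m _ => c.sm_gm hW m
  · rw [tendsto_pi_nhds]
    intro p
    exact (c.hasSum_gm W p.2 p.1).tendsto_sum_nat

theorem prog_g (hW : IsBM P F T W) : IsStronglyProgressive F (c.g W) := by
  intro i
  refine stronglyMeasurable_of_tendsto atTop
    (f := fun M => fun p : Set.Iic i × Ω => ∑ m ∈ Finset.range M, c.gm W m p.1 p.2)
    (fun M => ?_) ?_
  · refine Finset.stronglyMeasurable_fun_sum _ fun m _ => ?_
    unfold gm
    refine Finset.stronglyMeasurable_fun_sum _ fun l hl => ?_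
    have hl' := (Finset.mem_range.1 hl).le
    have h2 : (fun p : Set.Iic i × Ω => (Ioc (c.tt m l) (c.tt m l + c.δ m)).indicator
        (fun _ => c.xi W m l p.2) (p.1 : ℝ)) =
        ((fun p : Set.Iic i × Ω => (p.1 : ℝ)) ⁻¹' (Ioc (c.tt m l) (c.tt m l + c.δ m))).indicator
        (fun p => c.xi W m l p.2) := by
      funext p
      by_cases hp : (p.1 : ℝ) ∈ Ioc (c.tt m l) (c.tt m l + c.δ m) <;> simp [Set.indicator, hp]
    rw [h2]
    rcases le_or_gt (c.tt m l) i with hi | hi
    · have h3 : StronglyMeasurable[F i] (c.xi W m l) := (c.meas_xi hW m hl').mono (F.mono hi)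
      refine StronglyMeasurable.indicator ?_ ?_
      · have h5 := h3.comp_measurable (@measurable_snd (Set.Iic i) Ω inferInstance (F i))
        exact h5
      · exact (measurable_subtype_coe.comp (@measurable_fst _ _ _ (F i))) measurableSet_Ioc
    · have h4 : ((fun p : Set.Iic i × Ω => (p.1 : ℝ)) ⁻¹' (Ioc (c.tt m l) (c.tt m l + c.δ m))) =
          ∅ := by
        ext p
        simp only [mem_preimage, mem_Ioc, mem_empty_iff_false, iff_false, not_and]
        intro h5
        have h6 : (p.1 : ℝ) ≤ i := p.1.2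
        linarith
      rw [h4, indicator_empty]
      exact stronglyMeasurable_const
  · rw [tendsto_pi_nhds]
    intro p
    exact (c.hasSum_gm W p.1 p.2).tendsto_sum_nat

end Par

end Pool.Agent.H725R3.SConv
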