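import Mathlib

set_option autoImplicit false
open Finset

namespace Pool.Agent.H725R3.SConv

/-- sum over a dyadic block -/
noncomputable def bs (a : ℕ → ℝ) (h s : ℕ) : ℝ := ∑ i ∈ range (2 ^ h), a (s + i)

/-- the weight -/
noncomputable def qq : ℝ := 81 / 100

/-- the dyadic tree form -/
noncomputable def Bt (a b : ℕ → ℝ) : ℕ → ℕ → ℝ
  | 0, s => a s * b s
  | h + 1, s => Bt a b h s + Bt a b h (s + 2 ^ h) + qq ^ (h + 1) * (bs a (h + 1) s * bs b (h + 1) s)

theorem bs_succ (a : ℕ → ℝ) (h s : ℕ) : bs a (h + 1) s = bs a h s + bs a h (s + 2 ^ h) := by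
  unfold bs
  rw [pow_succ, mul_two, Finset.sum_range_add]
  simp only [add_assoc]

theorem bs_add (a b : ℕ → ℝ) (h s : ℕ) : bs (fun i => a i + b i) h s = bs a h s + bs b h s := by
  unfold bs
  rw [Finset.sum_add_distrib]

theorem bs_smul (c : ℝ) (a : ℕ → ℝ) (h s : ℕ) : bs (fun i => c * a i) h s = c * bs a h s := by
  unfold bs
  rw [Finset.mul_sum]

theorem bs_sum {ι : Type*} (J : Finset ι) (c : ι → ℝ) (b : ι → ℕ → ℝ) (h s : ℕ) :
    bs (fun i => ∑ j ∈ J, c j * b j i) h s = ∑ j ∈ J, c j * bs (b j) h s := by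
  unfold bs
  rw [Finset.sum_comm]
  simp_rw [Finset.mul_sum]

theorem bs_congr {a b : ℕ → ℝ} {h s : ℕ} (hab : ∀ i, i < 2 ^ h → a (s + i) = b (s + i)) :
    bs a h s = bs b h s :=
  Finset.sum_congr rfl fun i hi => hab i (Finset.mem_range.1 hi)

theorem Bt_add_left (a a' b : ℕ → ℝ) (h s : ℕ) :
    Bt (fun i => a i + a' i) b h s = Bt a b h s + Bt a' b h s := by
  induction h generalizing s with
  | zero => simp only [Bt]; ring
  | succ h ih => simp only [Bt]; rw [ih, ih, bs_add]; ring

theorem Bt_smul_left (c : ℝ) (a b : ℕ → ℝ) (h s : ℕ) :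
    Bt (fun i => c * a i) b h s = c * Bt a b h s := by
  induction h generalizing s with
  | zero => simp only [Bt]; ring
  | succ h ih => simp only [Bt]; rw [ih, ih, bs_smul]; ring

theorem Bt_symm (a b : ℕ → ℝ) (h s : ℕ) : Bt a b h s = Bt b a h s := by
  induction h generalizing s with
  | zero => simp only [Bt]; ring
  | succ h ih => simp only [Bt]; rw [ih, ih]; ring

theorem Bt_congr {a b a' b' : ℕ → ℝ} {h s : ℕ} (ha : ∀ i, i < 2 ^ h → a (s + i) = a' (s + i))
    (hb : ∀ i, i < 2 ^ h → b (s + i) = b' (s + i)) : Bt a b h s = Bt a' b' h s := by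
  induction h generalizing s with
  | zero =>
    simp only [Bt]
    have h1 := ha 0 (by norm_num)
    have h2 := hb 0 (by norm_num)
    rw [add_zero] at h1 h2
    rw [h1, h2]
  | succ h ih =>
    simp only [Bt]
    have e : 2 ^ (h + 1) = 2 ^ h + 2 ^ h := by rw [pow_succ, mul_two]
    rw [bs_congr ha, bs_congr hb, ih (fun i hi => ha i (by omega)) (fun i hi => hb i (by omega)),
      ih (fun i hi => by
        have := ha (2 ^ h + i) (by omega)
        rwa [← add_assoc] at this) (fun i hi => by
        have := hb (2 ^ h + i) (by omega)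
        rwa [← add_assoc] at this)]

theorem qq_pos : 0 < qq := by unfold qq; norm_num

theorem Qt_nonneg (a : ℕ → ℝ) (h s : ℕ) : 0 ≤ Bt a a h s := by
  induction h generalizing s with
  | zero => simp only [Bt]; exact mul_self_nonneg _
  | succ h ih =>
    simp only [Bt]
    have h1 := ih s
    have h2 := ih (s + 2 ^ h)
    have h3 := mul_nonneg (pow_nonneg qq_pos.le (h + 1)) (mul_self_nonneg (bs a (h + 1) s))
    linarith

theorem bs_sq_le (a : ℕ → ℝ) (h s : ℕ) : qq ^ h * (bs a h s * bs a h s) ≤ Bt a a h s := by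
  cases h with
  | zero => simp [Bt, bs]
  | succ h =>
    simp only [Bt]
    have h1 := Qt_nonneg a h s
    have h2 := Qt_nonneg a h (s + 2 ^ h)
    linarith

theorem Qt_eq_zero {a : ℕ → ℝ} {h s : ℕ} (hz : Bt a a h s = 0) (i : ℕ) (hi : i < 2 ^ h) :
    a (s + i) = 0 := by
  induction h generalizing s i with
  | zero =>
    simp only [Bt] at hz
    have : i = 0 := by simpa using hi
    subst this
    simpa using hz
  | succ h ih =>
    simp only [Bt] at hz
    have h1 := Qt_nonneg a h s
    have h2 := Qt_nonneg a h (s + 2 ^ h)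
    have h3 := mul_nonneg (pow_nonneg qq_pos.le (h + 1)) (mul_self_nonneg (bs a (h + 1) s))
    have e : 2 ^ (h + 1) = 2 ^ h + 2 ^ h := by rw [pow_succ, mul_two]
    rcases lt_or_ge i (2 ^ h) with hlt | hge
    · exact ih (by linarith) i hlt
    · have := ih (s := s + 2 ^ h) (by linarith) (i - 2 ^ h) (by omega)
      rwa [show s + 2 ^ h + (i - 2 ^ h) = s + i by omega] at this

theorem Qt_zero_of {a : ℕ → ℝ} {h s : ℕ} (ha : ∀ i, i < 2 ^ h → a (s + i) = 0) :
    Bt a a h s = 0 := by
  rw [Bt_congr (a' := fun _ => 0) (b' := fun _ => 0) ha ha]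
  have : ∀ h s, Bt (fun _ => (0 : ℝ)) (fun _ => 0) h s = 0 := by
    intro h
    induction h with
    | zero => intro s; simp [Bt]
    | succ h ih => intro s; simp only [Bt]; rw [ih, ih]; simp [bs]
  exact this h s

theorem bs_zero_of {a : ℕ → ℝ} {h s : ℕ} (ha : ∀ i, i < 2 ^ h → a (s + i) = 0) :
    bs a h s = 0 :=
  Finset.sum_eq_zero fun i hi => ha i (Finset.mem_range.1 hi)

/-- initial segment -/
noncomputable def pr (k : ℕ) (a : ℕ → ℝ) (i : ℕ) : ℝ := if i < k then a i else 0

/-- initial segment projections are bounded -/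
theorem pr_bound (a : ℕ → ℝ) (k h s : ℕ) :
    Bt (pr k a) (pr k a) h s + 9 * (qq ^ h * (bs (pr k a) h s * bs (pr k a) h s)) ≤
      100 * Bt a a h s := by
  induction h generalizing s with
  | zero =>
    simp only [Bt, bs, pr, pow_zero, Finset.range_one, Finset.sum_singleton, add_zero]
    split_ifs
    · nlinarith [mul_self_nonneg (a s)]
    · nlinarith [mul_self_nonneg (a s)]
  | succ h ih =>
    have ihl := ih s
    have ihr := ih (s + 2 ^ h)
    simp only [Bt]
    have hq : 0 < qq ^ h := pow_pos qq_pos h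
    have hqs : qq ^ (h + 1) = 81 / 100 * qq ^ h := by rw [pow_succ]; unfold qq; ring
    have hR := Qt_nonneg a h (s + 2 ^ h)
    have hL := Qt_nonneg a h s
    have hRp := Qt_nonneg (pr k a) h (s + 2 ^ h)
    have hS := mul_nonneg (pow_nonneg qq_pos.le (h + 1)) (mul_self_nonneg (bs a (h + 1) s))
    rw [bs_succ (pr k a)]
    rcases le_or_gt k (s + 2 ^ h) with hk | hk
    · -- the right child vanishes
      have hz : ∀ i, i < 2 ^ h → pr k a (s + 2 ^ h + i) = 0 := by
        intro i _
        unfold pr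
        rw [if_neg (by omega)]
      rw [Qt_zero_of hz, bs_zero_of hz, hqs]
      have h4 := mul_nonneg hq.le (mul_self_nonneg (bs (pr k a) h s))
      nlinarith
    · -- the left child is fully kept
      have hc : ∀ i, i < 2 ^ h → pr k a (s + i) = a (s + i) := by
        intro i hi
        unfold pr
        rw [if_pos (by omega)]
      rw [Bt_congr hc hc, bs_congr hc, hqs]
      have h5 := bs_sq_le a h s
      set x := bs a h s
      set y := bs (pr k a) h (s + 2 ^ h)
      set A := qq ^ h
      have h6 : 81 / 100 * A * ((x + y) * (x + y)) * 10 ≤ 81 * (A * (x * x)) + 9 * (A * (y * y)) := by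
        have : 0 ≤ A * ((9 * x - y) * (9 * x - y)) := mul_nonneg hq.le (mul_self_nonneg _)
        nlinarith
      nlinarith

theorem jensen_sq {ι : Type*} (J : Finset ι) (c x : ι → ℝ) (hc : ∀ j ∈ J, 0 ≤ c j)
    (hs : ∑ j ∈ J, c j ≤ 1) : (∑ j ∈ J, c j * x j) * (∑ j ∈ J, c j * x j) ≤
      ∑ j ∈ J, c j * (x j * x j) := by
  have h1 : (∑ j ∈ J, c j * x j) ^ 2 ≤ (∑ j ∈ J, c j) * ∑ j ∈ J, c j * (x j * x j) := by
    refine Finset.sum_sq_le_sum_mul_sum_of_sq_eq_mul J hc
      (fun j hj => mul_nonneg (hc j hj) (mul_self_nonneg _)) fun j _ => ?_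
    ring
  have h2 : 0 ≤ ∑ j ∈ J, c j * (x j * x j) :=
    Finset.sum_nonneg fun j hj => mul_nonneg (hc j hj) (mul_self_nonneg _)
  nlinarith

theorem Qt_convex {ι : Type*} (J : Finset ι) (c : ι → ℝ) (b : ι → ℕ → ℝ)
    (hc : ∀ j ∈ J, 0 ≤ c j) (hs : ∑ j ∈ J, c j ≤ 1) (h s : ℕ) :
    Bt (fun i => ∑ j ∈ J, c j * b j i) (fun i => ∑ j ∈ J, c j * b j i) h s ≤
      ∑ j ∈ J, c j * Bt (b j) (b j) h s := by
  induction h generalizing s with
  | zero =>
    simp only [Bt]
    exact jensen_sq J c (fun j => b j s) hc hs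
  | succ h ih =>
    simp only [Bt]
    have h1 := ih s
    have h2 := ih (s + 2 ^ h)
    rw [bs_sum]
    have h3 := mul_le_mul_of_nonneg_left (jensen_sq J c (fun j => bs (b j) (h + 1) s) hc hs)
      (pow_nonneg qq_pos.le (h + 1))
    have h4 : ∑ j ∈ J, c j * (Bt (b j) (b j) h s + Bt (b j) (b j) h (s + 2 ^ h) +
        qq ^ (h + 1) * (bs (b j) (h + 1) s * bs (b j) (h + 1) s)) =
        ∑ j ∈ J, c j * Bt (b j) (b j) h s + ∑ j ∈ J, c j * Bt (b j) (b j) h (s + 2 ^ h) +
        qq ^ (h + 1) * ∑ j ∈ J, c j * (bs (b j) (h + 1) s * bs (b j) (h + 1) s) := by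
      rw [Finset.mul_sum, ← Finset.sum_add_distrib, ← Finset.sum_add_distrib]
      refine Finset.sum_congr rfl fun j _ => ?_
      ring
    rw [h4]
    linarith

/-- monotone multipliers are bounded -/
theorem mult_bound (a μ : ℕ → ℝ) (h : ℕ) (h0 : ∀ i, i < 2 ^ h → 0 ≤ μ i)
    (h1 : ∀ i, i < 2 ^ h → μ i ≤ 1) (hanti : ∀ i j, i ≤ j → j < 2 ^ h → μ j ≤ μ i) :
    Bt (fun i => μ i * a i) (fun i => μ i * a i) h 0 ≤ 100 * Bt a a h 0 := by
  set n := 2 ^ h with hn
  have hn0 : 0 < n := by positivity
  let μ' : ℕ → ℝ := fun i => if i < n then μ i else 0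
  let c : ℕ → ℝ := fun k => μ' k - μ' (k + 1)
  have hc : ∀ k ∈ range n, 0 ≤ c k := by
    intro k hk
    have hk' := Finset.mem_range.1 hk
    simp only [c, μ', if_pos hk']
    split_ifs with h2
    · have := hanti k (k + 1) (by omega) h2
      linarith
    · have := h0 k hk'
      linarith
  have hsum : ∑ k ∈ range n, c k = μ' 0 - μ' n := by
    exact Finset.sum_range_sub' μ' n
  have hs : ∑ k ∈ range n, c k ≤ 1 := by
    rw [hsum]
    simp only [μ', lt_irrefl, if_false, sub_zero, if_pos hn0]
    exact h1 0 hn0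
  have hrep : ∀ i, i < n → μ i * a i = ∑ k ∈ range n, c k * pr (k + 1) a i := by
    intro i hi
    have key : ∀ n', i ≤ n' → ∑ k ∈ range n', c k * pr (k + 1) a i = (μ' i - μ' n') * a i := by
      intro n' hn'
      induction n', hn' using Nat.le_induction with
      | base =>
        rw [sub_self, zero_mul]
        refine Finset.sum_eq_zero fun k hk => ?_
        have := Finset.mem_range.1 hk
        unfold pr
        rw [if_neg (by omega), mul_zero]
      | succ m hm ih =>
        rw [Finset.sum_range_succ, ih]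
        unfold pr
        rw [if_pos (by omega)]
        simp only [c]
        ring
    rw [key n hi.le]
    simp only [μ', lt_irrefl, if_false, sub_zero, if_pos hi]
  have h2 : Bt (fun i => μ i * a i) (fun i => μ i * a i) h 0 =
      Bt (fun i => ∑ k ∈ range n, c k * pr (k + 1) a i)
        (fun i => ∑ k ∈ range n, c k * pr (k + 1) a i) h 0 := by
    refine Bt_congr ?_ ?_ <;>
    · intro i hi
      rw [zero_add]
      exact hrep i hi
  rw [h2]
  refine (Qt_convex (range n) c (fun k => pr (k + 1) a) hc hs h 0).trans ?_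
  have hQ := Qt_nonneg a h 0
  calc ∑ k ∈ range n, c k * Bt (pr (k + 1) a) (pr (k + 1) a) h 0
      ≤ ∑ k ∈ range n, c k * (100 * Bt a a h 0) := by
        refine Finset.sum_le_sum fun k hk => mul_le_mul_of_nonneg_left ?_ (hc k hk)
        have h3 := pr_bound a (k + 1) h 0
        have h4 := mul_nonneg (pow_nonneg qq_pos.le h)
          (mul_self_nonneg (bs (pr (k + 1) a) h 0))
        linarith
    _ = (∑ k ∈ range n, c k) * (100 * Bt a a h 0) := by rw [Finset.sum_mul]
    _ ≤ 1 * (100 * Bt a a h 0) := mul_le_mul_of_nonneg_right hs (by linarith)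
    _ = _ := one_mul _

/-- unit coordinate sequence -/
noncomputable def del (k i : ℕ) : ℝ := if i = k then 1 else 0

/-- unit vectors have bounded norm -/
theorem single_bound (k h s : ℕ) : Bt (del k) (del k) h s ≤ ∑ i ∈ range (h + 1), qq ^ i := by
  have hb : ∀ h s, bs (del k) h s * bs (del k) h s ≤ 1 := by
    intro h s
    have : bs (del k) h s = 0 ∨ bs (del k) h s = 1 := by
      unfold bs
      by_cases hk : ∃ j, j < 2 ^ h ∧ s + j = k
      · obtain ⟨j, hj, hjk⟩ := hk
        right
        rw [Finset.sum_eq_single_of_mem j (Finset.mem_range.2 hj)]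
        · unfold del
          rw [if_pos hjk]
        · intro i _ hij
          unfold del
          rw [if_neg]
          omega
      · left
        refine Finset.sum_eq_zero fun i hi => ?_
        unfold del
        rw [if_neg]
        intro h'
        exact hk ⟨i, Finset.mem_range.1 hi, h'⟩
    rcases this with h' | h' <;> rw [h'] <;> norm_num
  induction h generalizing s with
  | zero =>
    simp only [Bt, zero_add, Finset.range_one, Finset.sum_singleton, pow_zero]
    unfold del
    split_ifs <;> norm_num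
  | succ h ih =>
    simp only [Bt]
    rw [Finset.sum_range_succ]
    have h3 : qq ^ (h + 1) * (bs (del k) (h + 1) s * bs (del k) (h + 1) s) ≤ qq ^ (h + 1) := by
      have := mul_le_mul_of_nonneg_left (hb (h + 1) s) (pow_nonneg qq_pos.le (h + 1))
      linarith
    rcases lt_or_ge k (s + 2 ^ h) with hk | hk
    · have hz : ∀ i, i < 2 ^ h → del k (s + 2 ^ h + i) = 0 := by
        intro i _
        unfold del
        rw [if_neg (by omega)]
      rw [Qt_zero_of hz]
      have := ih s
      linarith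
    · have hz : ∀ i, i < 2 ^ h → del k (s + i) = 0 := by
        intro i _
        unfold del
        rw [if_neg (by omega)]
      rw [Qt_zero_of hz]
      have := ih (s + 2 ^ h)
      linarith

theorem geom_bound (h : ℕ) : ∑ i ∈ range (h + 1), qq ^ i ≤ 9 := by
  have h1 : ∑ i ∈ range (h + 1), qq ^ i = (1 - qq ^ (h + 1)) / (1 - qq) := by
    rw [geom_sum_eq (by unfold qq; norm_num)]
    rw [← neg_div_neg_eq]
    ring_nf
  rw [h1, div_le_iff₀ (by unfold qq; norm_num)]
  have h2 := pow_nonneg qq_pos.le (h + 1)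
  have h3 : 9 * (1 - qq) = 171 / 100 := by unfold qq; norm_num
  linarith

end Pool.Agent.H725R3.SConv
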